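import Pool.Agent.Lib.SievePrimes

/-!
# Brun-Hooley sieve with a general remainder term
-/

set_option autoImplicit false

namespace Pool.Agent.helper80.MTR

open Finset Pool.Agent.Lib.BrunHooley

section general

variable {ι α κ : Type*} [DecidableEq ι] [DecidableEq κ]

/-- subsets with few elements in each block -/
def EE' (P : κ → Finset ι) (b : κ → ℕ) (s : Finset κ) : Finset (Finset ι) :=
  {E ∈ (s.biUnion P).powerset | ∀ j ∈ s, #(E ∩ P j) ≤ b j}

lemma mem_EE' {P : κ → Finset ι} {b : κ → ℕ} {s : Finset κ} {E : Finset ι} :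
    E ∈ EE' P b s ↔ E ⊆ s.biUnion P ∧ ∀ j ∈ s, #(E ∩ P j) ≤ b j := by
  simp [EE']

omit [DecidableEq ι] in
lemma ts_eq (P : Finset ι) (g : ι → ℝ) (b : ℕ) :
    ts P g b = ∑ D ∈ P.powerset with #D ≤ b, (-1) ^ #D * ∏ p ∈ D, g p :=
  (ts_eq_sum_powerset P g b).symm

/-- the sum over the first new block -/
lemma sum_insert_EE' {P : κ → Finset ι} {b : κ → ℕ} {s : Finset κ} {k : κ} (hk : k ∉ s)
    (hdisj : ∀ j ∈ s, Disjoint (P k) (P j)) (r : Finset ι → ℝ) (D₀ : Finset ι) :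
    ∑ D ∈ (P k).powerset with #D ≤ b k, ∑ E ∈ EE' P b s, r ((D₀ ∪ D) ∪ E)
      = ∑ E ∈ EE' P b (insert k s), r (D₀ ∪ E) := by
  rw [← sum_product']
  have hd2 : Disjoint (P k) (s.biUnion P) := by
    rw [disjoint_biUnion_right]
    exact hdisj
  refine sum_nbij' (fun x => x.1 ∪ x.2) (fun E => (E ∩ P k, E ∩ s.biUnion P)) ?_ ?_ ?_ ?_ ?_
  · rintro ⟨D, E⟩ h
    simp only [mem_product, mem_filter, mem_powerset] at h
    obtain ⟨⟨h1, h2⟩, h3⟩ := h
    rw [mem_EE'] at h3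
    rw [mem_EE']
    have hE0 : E ∩ P k = ∅ := by
      rw [← disjoint_iff_inter_eq_empty]
      exact (hd2.mono_right h3.1).symm
    refine ⟨?_, ?_⟩
    · rw [biUnion_insert]
      exact union_subset_union h1 h3.1
    · intro j hj
      rw [mem_insert] at hj
      simp only
      rw [union_inter_distrib_right]
      rcases hj with rfl | hj
      · rw [hE0, union_empty, inter_eq_left.2 h1]
        exact h2
      · have : D ∩ P j = ∅ := by
          rw [← disjoint_iff_inter_eq_empty]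
          exact (hdisj j hj).mono_left h1
        rw [this, empty_union]
        exact h3.2 j hj
  · intro E hE
    rw [mem_EE', biUnion_insert] at hE
    simp only [mem_product, mem_filter, mem_powerset]
    refine ⟨⟨inter_subset_right, hE.2 k (mem_insert_self _ _)⟩, ?_⟩
    rw [mem_EE']
    refine ⟨inter_subset_right, fun j hj => ?_⟩
    rw [inter_assoc, inter_eq_right.2 (subset_biUnion_of_mem P hj)]
    exact hE.2 j (mem_insert_of_mem hj)
  · rintro ⟨D, E⟩ h
    simp only [mem_product, mem_filter, mem_powerset] at h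
    obtain ⟨⟨h1, h2⟩, h3⟩ := h
    rw [mem_EE'] at h3
    have hE0 : E ∩ P k = ∅ := by
      rw [← disjoint_iff_inter_eq_empty]
      exact (hd2.mono_right h3.1).symm
    have hD0 : D ∩ s.biUnion P = ∅ := by
      rw [← disjoint_iff_inter_eq_empty]
      exact hd2.mono_left h1
    simp only
    rw [union_inter_distrib_right, union_inter_distrib_right, hE0, hD0, union_empty, empty_union,
      inter_eq_left.2 h1, inter_eq_left.2 h3.1]
  · intro E hE
    rw [mem_EE', biUnion_insert] at hE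
    simp only
    rw [← inter_union_distrib_left]
    exact inter_eq_left.2 hE.1
  · rintro ⟨D, E⟩ _
    simp only
    rw [union_assoc]

/-- Linearisation with a general remainder. -/
lemma linearize' (A : Finset α) (a : α → ℝ) (h : ι → α → ℝ) (X : ℝ) (g : ι → ℝ)
    (r : Finset ι → ℝ) (U : Finset ι)
    (hA : ∀ D ⊆ U, |∑ n ∈ A, a n * ∏ p ∈ D, h p n - X * ∏ p ∈ D, g p| ≤ r D)
    (P : κ → Finset ι) (b : κ → ℕ) (s : Finset κ) :
    (∀ j ∈ s, ∀ k ∈ s, j ≠ k → Disjoint (P j) (P k)) →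
    (∀ j ∈ s, P j ⊆ U) →
    ∀ D₀ ⊆ U, (∀ j ∈ s, Disjoint D₀ (P j)) →
    |∑ n ∈ A, a n * (∏ p ∈ D₀, h p n) * ∏ j ∈ s, ts (P j) (fun p => h p n) (b j)
      - X * (∏ p ∈ D₀, g p) * ∏ j ∈ s, ts (P j) g (b j)|
      ≤ ∑ E ∈ EE' P b s, r (D₀ ∪ E) := by
  induction s using Finset.induction_on with
  | empty =>
    intro _ _ D₀ hD₀ _
    have : EE' P b (∅ : Finset κ) = {∅} := by
      ext E
      rw [mem_EE', mem_singleton]
      simp
    rw [this]
    simpa using hA D₀ hD₀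
  | insert k s hk ih =>
    intro hdisj hU D₀ hD₀ hD₀d
    have ih := ih (fun i hi j hj => hdisj i (mem_insert_of_mem hi) j (mem_insert_of_mem hj))
      (fun i hi => hU i (mem_insert_of_mem hi))
    have hdk' : ∀ j ∈ s, Disjoint (P k) (P j) := fun j hj =>
      hdisj k (mem_insert_self _ _) j (mem_insert_of_mem hj) (fun e => hk (e ▸ hj))
    have hdk : ∀ D ∈ (P k).powerset.filter (fun D => #D ≤ b k), Disjoint D₀ D := fun D hD =>
      (hD₀d k (mem_insert_self _ _)).mono_right (mem_powerset.1 (mem_filter.1 hD).1)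
    have ihD : ∀ D ∈ (P k).powerset.filter (fun D => #D ≤ b k),
        |∑ n ∈ A, a n * (∏ p ∈ D₀ ∪ D, h p n) * ∏ j ∈ s, ts (P j) (fun p => h p n) (b j)
        - X * (∏ p ∈ D₀ ∪ D, g p) * ∏ j ∈ s, ts (P j) g (b j)|
        ≤ ∑ E ∈ EE' P b s, r ((D₀ ∪ D) ∪ E) := by
      intro D hD
      have hDk := mem_powerset.1 (mem_filter.1 hD).1
      refine ih (D₀ ∪ D) (union_subset hD₀ (hDk.trans (hU k (mem_insert_self _ _)))) ?_
      intro j hj
      rw [disjoint_union_left]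
      exact ⟨hD₀d j (mem_insert_of_mem hj), (hdk' j hj).mono_left hDk⟩
    simp only [prod_insert hk]
    have e1 : ∑ n ∈ A, a n * (∏ p ∈ D₀, h p n) * (ts (P k) (fun p => h p n) (b k)
          * ∏ j ∈ s, ts (P j) (fun p => h p n) (b j))
        = ∑ D ∈ (P k).powerset.filter (fun D => #D ≤ b k),
          (-1) ^ #D * ∑ n ∈ A, a n * (∏ p ∈ D₀ ∪ D, h p n)
          * ∏ j ∈ s, ts (P j) (fun p => h p n) (b j) := by
      simp_rw [ts_eq (P k), sum_mul, mul_sum]
      rw [sum_comm]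
      refine sum_congr rfl fun D hD => sum_congr rfl fun n _ => ?_
      rw [prod_union (hdk D hD)]
      ring
    have e2 : X * (∏ p ∈ D₀, g p) * (ts (P k) g (b k)
          * ∏ j ∈ s, ts (P j) g (b j))
        = ∑ D ∈ (P k).powerset.filter (fun D => #D ≤ b k),
          (-1) ^ #D * (X * (∏ p ∈ D₀ ∪ D, g p)
          * ∏ j ∈ s, ts (P j) g (b j)) := by
      rw [ts_eq (P k), sum_mul, mul_sum]
      refine sum_congr rfl fun D hD => ?_
      rw [prod_union (hdk D hD)]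
      ring
    rw [e1, e2, ← sum_sub_distrib, ← sum_insert_EE' hk hdk' r D₀]
    refine (abs_sum_le_sum_abs _ _).trans (sum_le_sum fun D hD => ?_)
    rw [← mul_sub, abs_mul, abs_pow, abs_neg, abs_one, one_pow, one_mul]
    exact ihD D hD

variable (A : Finset α) (a : α → ℝ) (h : ι → α → ℝ) (X : ℝ) (g : ι → ℝ)
  (r : Finset ι → ℝ) (P : κ → Finset ι) (b : κ → ℕ) (s : Finset κ)

/-- **Brun-Hooley upper bound**, general remainder. -/
theorem upper_gen (ha : ∀ n ∈ A, 0 ≤ a n)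
    (h0 : ∀ p, ∀ n ∈ A, 0 ≤ h p n) (h1 : ∀ p, ∀ n ∈ A, h p n ≤ 1) (hX : 0 ≤ X)
    (hg0 : ∀ j ∈ s, ∀ p ∈ P j, 0 ≤ g p) (hg1 : ∀ j ∈ s, ∀ p ∈ P j, g p < 1)
    (hdisj : ∀ j ∈ s, ∀ k ∈ s, j ≠ k → Disjoint (P j) (P k))
    (hA : ∀ D ⊆ s.biUnion P, |∑ n ∈ A, a n * ∏ p ∈ D, h p n - X * ∏ p ∈ D, g p| ≤ r D)
    (hb : ∀ j ∈ s, Even (b j))
    (hE : ∑ j ∈ s, es (P j) g (b j + 1) / ∏ p ∈ P j, (1 - g p) ≤ 1 / 2) :
    ∑ n ∈ A, a n * ∏ j ∈ s, ∏ p ∈ P j, (1 - h p n) ≤
    2 * X * ∏ j ∈ s, ∏ p ∈ P j, (1 - g p) + ∑ E ∈ EE' P b s, r E := by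
  have e := linearize' A a h X g r (s.biUnion P) hA P b s hdisj
    (fun j hj => subset_biUnion_of_mem P hj) ∅ (by simp) (by simp)
  simp only [prod_empty, mul_one, empty_union] at e
  have e1 := (abs_le.mp e).2
  have e2 : ∑ n ∈ A, a n * ∏ j ∈ s, ∏ p ∈ P j, (1 - h p n)
      ≤ ∑ n ∈ A, a n * ∏ j ∈ s, ts (P j) (fun p => h p n) (b j) := by
    refine sum_le_sum fun n hn => mul_le_mul_of_nonneg_left ?_ (ha n hn)
    refine prod_le_prod (fun j _ => prod_nonneg fun p _ => by linarith [h1 p n hn]) ?_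
    intro j hj
    have := (bonferroni (P j) (fun p => h p n) (fun p _ => h0 p n hn) (fun p _ => h1 p n hn) (b j)).1
    rw [(hb j hj).neg_one_pow] at this
    linarith
  have hV0 : ∀ j ∈ s, 0 < ∏ p ∈ P j, (1 - g p) := fun j hj =>
    prod_pos fun p hp => by linarith [hg1 j hj p hp]
  have hYV : ∀ j ∈ s, ts (P j) g (b j) ≤ (∏ p ∈ P j, (1 - g p))
      * Real.exp (es (P j) g (b j + 1) / ∏ p ∈ P j, (1 - g p)) := by
    intro j hj
    have := (bonferroni (P j) g (hg0 j hj) (fun p hp => (hg1 j hj p hp).le) (b j)).2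
    rw [(hb j hj).neg_one_pow] at this
    have h2 := Real.add_one_le_exp (es (P j) g (b j + 1) / ∏ p ∈ P j, (1 - g p))
    have h3 := mul_le_mul_of_nonneg_left h2 (hV0 j hj).le
    have h4 : (∏ p ∈ P j, (1 - g p)) * (es (P j) g (b j + 1) / ∏ p ∈ P j, (1 - g p) + 1)
        = es (P j) g (b j + 1) + ∏ p ∈ P j, (1 - g p) := by
      have := (hV0 j hj).ne'
      field_simp
    linarith
  have hVY : ∀ j ∈ s, ∏ p ∈ P j, (1 - g p) ≤ ts (P j) g (b j) := by
    intro j hj
    have := (bonferroni (P j) g (hg0 j hj) (fun p hp => (hg1 j hj p hp).le) (b j)).1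
    rw [(hb j hj).neg_one_pow] at this
    linarith
  have key : ∏ j ∈ s, ts (P j) g (b j) ≤ 2 * ∏ j ∈ s, ∏ p ∈ P j, (1 - g p) := by
    calc ∏ j ∈ s, ts (P j) g (b j) ≤ ∏ j ∈ s, ((∏ p ∈ P j, (1 - g p))
          * Real.exp (es (P j) g (b j + 1) / ∏ p ∈ P j, (1 - g p))) :=
          prod_le_prod (fun j hj => (hV0 j hj).le.trans (hVY j hj)) hYV
      _ = (∏ j ∈ s, ∏ p ∈ P j, (1 - g p))
          * Real.exp (∑ j ∈ s, es (P j) g (b j + 1) / ∏ p ∈ P j, (1 - g p)) := by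
          rw [prod_mul_distrib, Real.exp_sum]
      _ ≤ (∏ j ∈ s, ∏ p ∈ P j, (1 - g p)) * 2 := by
          refine mul_le_mul_of_nonneg_left ?_ (prod_nonneg fun j hj => (hV0 j hj).le)
          refine (Real.exp_le_exp.mpr hE).trans ?_
          have : Real.exp (1 / 2) ^ 2 ≤ 2 ^ 2 := by
            rw [← Real.exp_nat_mul]
            have := Real.exp_one_lt_d9
            norm_num
            linarith
          exact le_of_sq_le_sq this (by norm_num)
      _ = _ := by ring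
  have := mul_le_mul_of_nonneg_left key hX
  linarith

/-- **Brun-Hooley lower bound**, general remainder. -/
theorem lower_gen (ha : ∀ n ∈ A, 0 ≤ a n)
    (h0 : ∀ p, ∀ n ∈ A, 0 ≤ h p n) (h1 : ∀ p, ∀ n ∈ A, h p n ≤ 1) (hX : 0 ≤ X)
    (hg0 : ∀ j ∈ s, ∀ p ∈ P j, 0 ≤ g p) (hg1 : ∀ j ∈ s, ∀ p ∈ P j, g p < 1)
    (hdisj : ∀ j ∈ s, ∀ k ∈ s, j ≠ k → Disjoint (P j) (P k))
    (hr : ∀ D, 0 ≤ r D)
    (hA : ∀ D ⊆ s.biUnion P, |∑ n ∈ A, a n * ∏ p ∈ D, h p n - X * ∏ p ∈ D, g p| ≤ r D)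
    (hb : ∀ j ∈ s, Even (b j))
    (hE : ∑ j ∈ s, es (P j) g (b j + 1) / ∏ p ∈ P j, (1 - g p) ≤ 1 / 2) :
    X / 2 * ∏ j ∈ s, ∏ p ∈ P j, (1 - g p)
      - (1 + #s) * ∑ E ∈ EE' P (fun j => b j + 1) s, r E
      ≤ ∑ n ∈ A, a n * ∏ j ∈ s, ∏ p ∈ P j, (1 - h p n) := by
  have e := linearize' A a h X g r (s.biUnion P) hA P b s hdisj
    (fun j hj => subset_biUnion_of_mem P hj) ∅ (by simp) (by simp)
  simp only [prod_empty, mul_one, empty_union] at e
  have e1 := (abs_le.mp e).1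
  set T := ∑ E ∈ EE' P (fun j => b j + 1) s, r E with hT
  have hsub1 : ∑ E ∈ EE' P b s, r E ≤ T := by
    refine sum_le_sum_of_subset_of_nonneg ?_ fun D _ _ => hr D
    intro E hE'
    rw [mem_EE'] at hE' ⊢
    exact ⟨hE'.1, fun j hj => (hE'.2 j hj).trans (Nat.le_succ _)⟩
  have hl : ∀ l ∈ s, ∑ n ∈ A, a n * (es (P l) (fun p => h p n) (b l + 1)
        * ∏ j ∈ s.erase l, ts (P j) (fun p => h p n) (b j))
      ≤ X * (es (P l) g (b l + 1) * ∏ j ∈ s.erase l, ts (P j) g (b j)) + T := by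
    intro l hl
    have hsub : s.erase l ⊆ s := erase_subset _ _
    have key : ∀ D₀ ∈ powersetCard (b l + 1) (P l),
        ∑ n ∈ A, a n * (∏ p ∈ D₀, h p n) * ∏ j ∈ s.erase l, ts (P j) (fun p => h p n) (b j)
        ≤ X * (∏ p ∈ D₀, g p) * ∏ j ∈ s.erase l, ts (P j) g (b j)
          + ∑ E ∈ EE' P b (s.erase l), r (D₀ ∪ E) := by
      intro D₀ hD₀
      have hD₀l := (mem_powersetCard.mp hD₀).1
      have := linearize' A a h X g r (s.biUnion P) hA P b (s.erase l)
        (fun j hj k hk => hdisj j (hsub hj) k (hsub hk))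
        (fun j hj => subset_biUnion_of_mem P (hsub hj)) D₀
        (hD₀l.trans (subset_biUnion_of_mem P hl))
        (fun j hj => (hdisj l hl j (hsub hj) (ne_of_mem_erase hj).symm).mono_left hD₀l)
      linarith [(abs_le.mp this).2]
    have h2 := sum_le_sum key
    rw [sum_add_distrib, sum_comm] at h2
    have h3 : ∑ D₀ ∈ powersetCard (b l + 1) (P l), ∑ E ∈ EE' P b (s.erase l), r (D₀ ∪ E) ≤ T := by
      rw [← sum_product']
      have hd2 : Disjoint (P l) ((s.erase l).biUnion P) := by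
        rw [disjoint_biUnion_right]
        intro j hj
        exact hdisj l hl j (hsub hj) (ne_of_mem_erase hj).symm
      rw [← sum_image (s := powersetCard (b l + 1) (P l) ×ˢ EE' P b (s.erase l))
        (g := fun x : Finset ι × Finset ι => x.1 ∪ x.2) (f := r)]
      · refine sum_le_sum_of_subset_of_nonneg ?_ fun D _ _ => hr D
        intro E hE'
        rw [mem_image] at hE'
        obtain ⟨⟨D, F⟩, hDF, rfl⟩ := hE'
        rw [mem_product, mem_powersetCard, mem_EE'] at hDF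
        obtain ⟨⟨hD1, hD2⟩, hF1, hF2⟩ := hDF
        simp only at hD1 hD2 hF1 hF2
        rw [mem_EE']
        refine ⟨union_subset (hD1.trans (subset_biUnion_of_mem P hl))
          (hF1.trans (biUnion_subset_biUnion_of_subset_left P hsub)), ?_⟩
        intro j hj
        simp only
        rw [union_inter_distrib_right]
        by_cases hjl : j = l
        · subst hjl
          have : F ∩ P j = ∅ := by
            rw [← disjoint_iff_inter_eq_empty]
            exact (hd2.mono_right hF1).symm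
          rw [this, union_empty, inter_eq_left.2 hD1, hD2]
        · have hj' : j ∈ s.erase l := mem_erase.2 ⟨hjl, hj⟩
          have : D ∩ P j = ∅ := by
            rw [← disjoint_iff_inter_eq_empty]
            exact (hdisj l hl j hj (Ne.symm hjl)).mono_left hD1
          rw [this, empty_union]
          exact (hF2 j hj').trans (Nat.le_succ _)
      · rintro ⟨D, F⟩ h3 ⟨D', F'⟩ h4 heq
        rw [mem_coe, mem_product, mem_powersetCard, mem_EE'] at h3 h4
        obtain ⟨⟨hD1, _⟩, hF1, _⟩ := h3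
        obtain ⟨⟨hD1', _⟩, hF1', _⟩ := h4
        simp only at hD1 hF1 hD1' hF1' heq
        have k1 : (D ∪ F) ∩ P l = D := by
          rw [union_inter_distrib_right, inter_eq_left.2 hD1]
          have : F ∩ P l = ∅ := by
            rw [← disjoint_iff_inter_eq_empty]
            exact (hd2.mono_right hF1).symm
          rw [this, union_empty]
        have k2 : (D' ∪ F') ∩ P l = D' := by
          rw [union_inter_distrib_right, inter_eq_left.2 hD1']
          have : F' ∩ P l = ∅ := by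
            rw [← disjoint_iff_inter_eq_empty]
            exact (hd2.mono_right hF1').symm
          rw [this, union_empty]
        have k3 : (D ∪ F) ∩ (s.erase l).biUnion P = F := by
          rw [union_inter_distrib_right, inter_eq_left.2 hF1]
          have : D ∩ (s.erase l).biUnion P = ∅ := by
            rw [← disjoint_iff_inter_eq_empty]
            exact hd2.mono_left hD1
          rw [this, empty_union]
        have k4 : (D' ∪ F') ∩ (s.erase l).biUnion P = F' := by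
          rw [union_inter_distrib_right, inter_eq_left.2 hF1']
          have : D' ∩ (s.erase l).biUnion P = ∅ := by
            rw [← disjoint_iff_inter_eq_empty]
            exact hd2.mono_left hD1'
          rw [this, empty_union]
        rw [Prod.mk.injEq]
        exact ⟨by rw [← k1, ← k2, heq], by rw [← k3, ← k4, heq]⟩
    have h4 : ∑ n ∈ A, a n * (es (P l) (fun p => h p n) (b l + 1)
        * ∏ j ∈ s.erase l, ts (P j) (fun p => h p n) (b j))
        = ∑ n ∈ A, ∑ D₀ ∈ powersetCard (b l + 1) (P l), a n * (∏ p ∈ D₀, h p n)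
          * ∏ j ∈ s.erase l, ts (P j) (fun p => h p n) (b j) := by
      refine sum_congr rfl fun n _ => ?_
      unfold es
      rw [sum_mul, mul_sum]
      exact sum_congr rfl fun D _ => by ring
    have h5 : X * (es (P l) g (b l + 1) * ∏ j ∈ s.erase l, ts (P j) g (b j))
        = ∑ D₀ ∈ powersetCard (b l + 1) (P l), X * (∏ p ∈ D₀, g p)
          * ∏ j ∈ s.erase l, ts (P j) g (b j) := by
      unfold es
      rw [sum_mul, mul_sum]
      exact sum_congr rfl fun D _ => by ring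
    rw [h4, h5]
    linarith
  have e2 : ∀ n ∈ A, a n * (∏ j ∈ s, ts (P j) (fun p => h p n) (b j))
      - a n * (∏ j ∈ s, ∏ p ∈ P j, (1 - h p n))
      ≤ ∑ l ∈ s, a n * (es (P l) (fun p => h p n) (b l + 1)
        * ∏ j ∈ s.erase l, ts (P j) (fun p => h p n) (b j)) := by
    intro n hn
    rw [← mul_sub, ← mul_sum]
    refine mul_le_mul_of_nonneg_left ?_ (ha n hn)
    refine prod_sub_le s _ _ _ ?_ ?_ ?_
    · exact fun j _ => prod_nonneg fun p _ => by linarith [h1 p n hn]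
    · intro j hj
      have := (bonferroni (P j) (fun p => h p n) (fun p _ => h0 p n hn) (fun p _ => h1 p n hn) (b j)).1
      rw [(hb j hj).neg_one_pow] at this
      linarith
    · intro j hj
      have := (bonferroni (P j) (fun p => h p n) (fun p _ => h0 p n hn) (fun p _ => h1 p n hn) (b j)).2
      rw [(hb j hj).neg_one_pow] at this
      linarith
  have e3 := sum_le_sum e2
  rw [sum_sub_distrib, sum_comm] at e3
  have e4 := sum_le_sum hl
  rw [sum_add_distrib, ← mul_sum, sum_const, nsmul_eq_mul] at e4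
  -- main term
  have hV0 : ∀ j ∈ s, 0 < ∏ p ∈ P j, (1 - g p) := fun j hj =>
    prod_pos fun p hp => by linarith [hg1 j hj p hp]
  have hVY : ∀ j ∈ s, ∏ p ∈ P j, (1 - g p) ≤ ts (P j) g (b j) := by
    intro j hj
    have := (bonferroni (P j) g (hg0 j hj) (fun p hp => (hg1 j hj p hp).le) (b j)).1
    rw [(hb j hj).neg_one_pow] at this
    linarith
  have hY0 : ∀ j ∈ s, 0 < ts (P j) g (b j) := fun j hj => (hV0 j hj).trans_le (hVY j hj)
  have hE0 : ∀ j ∈ s, 0 ≤ es (P j) g (b j + 1) := fun j hj => es_nonneg _ _ (hg0 j hj) _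
  have key1 : (1 / 2) * ∏ j ∈ s, ∏ p ∈ P j, (1 - g p) ≤
      ∏ j ∈ s, ts (P j) g (b j)
        - ∑ l ∈ s, es (P l) g (b l + 1) * ∏ j ∈ s.erase l, ts (P j) g (b j) := by
    have e1 : ∀ l ∈ s, es (P l) g (b l + 1) * ∏ j ∈ s.erase l, ts (P j) g (b j)
        ≤ (es (P l) g (b l + 1) / ∏ p ∈ P l, (1 - g p)) * ∏ j ∈ s, ts (P j) g (b j) := by
      intro l hl
      rw [← mul_prod_erase s _ hl, ← mul_assoc]
      refine mul_le_mul_of_nonneg_right ?_ (prod_nonneg fun j hj => (hY0 j (erase_subset _ _ hj)).le)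
      rw [div_mul_eq_mul_div, le_div_iff₀ (hV0 l hl)]
      exact mul_le_mul_of_nonneg_left (hVY l hl) (hE0 l hl)
    have e2 := sum_le_sum e1
    rw [← sum_mul] at e2
    have hPY : 0 < ∏ j ∈ s, ts (P j) g (b j) := prod_pos hY0
    have e3 : ∏ j ∈ s, ∏ p ∈ P j, (1 - g p) ≤ ∏ j ∈ s, ts (P j) g (b j) :=
      prod_le_prod (fun j hj => (hV0 j hj).le) hVY
    nlinarith
  have h6 := mul_le_mul_of_nonneg_left key1 hX
  rw [mul_sub] at h6
  linarith

end general

/-- products over a set in the support of the sieve are small -/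
lemma prod_le_of_mem {B r : ℕ} {E : Finset ℕ}
    (hE : E ∈ EE' blk (fun j => bpar B r j + 1) (range (r + 1))) :
    ∏ p ∈ E, p ≤ Z r ^ (4 * B + 6) := by
  rw [mem_EE'] at hE
  obtain ⟨h1, h2⟩ := hE
  have hdisj : ∀ i ∈ range (r + 1), ∀ j ∈ range (r + 1), i ≠ j →
      Disjoint (E ∩ blk i) (E ∩ blk j) := fun i _ j _ hij =>
    (blk_pairwise i j hij).mono inter_subset_right inter_subset_right
  have hEq : E = (range (r + 1)).biUnion (fun i => E ∩ blk i) := by
    rw [← inter_biUnion]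
    exact (inter_eq_left.2 h1).symm
  have h3 : ∏ p ∈ E, p = ∏ i ∈ range (r + 1), ∏ p ∈ E ∩ blk i, p := by
    conv_lhs => rw [hEq]
    exact prod_biUnion (fun i hi j hj hij => hdisj i hi j hj hij)
  rw [h3]
  have h4 : ∀ i ∈ range (r + 1), ∏ p ∈ E ∩ blk i, p ≤ 2 ^ (2 ^ i * (bpar B r i + 1)) := by
    intro i hi
    calc ∏ p ∈ E ∩ blk i, p ≤ ∏ _p ∈ E ∩ blk i, Z i := by
          refine prod_le_prod' fun p hp => ?_
          have := (mem_filter.1 (mem_inter.1 hp).2).1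
          exact (mem_Ioc.1 this).2
      _ = Z i ^ #(E ∩ blk i) := by rw [prod_const]
      _ ≤ Z i ^ (bpar B r i + 1) := Nat.pow_le_pow_right (Z_pos i) (h2 i hi)
      _ = _ := by rw [Z, ← pow_mul]
  refine (prod_le_prod' h4).trans ?_
  rw [prod_pow_eq_pow_sum, Z, ← pow_mul]
  refine Nat.pow_le_pow_right (by norm_num) ?_
  have h5 := weighted_sum_le B r
  have h6 : ∑ i ∈ range (r + 1), 2 ^ i ≤ 2 ^ r * 2 := by
    rw [Nat.geomSum_eq (le_refl 2)]
    simp [pow_succ]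
  calc ∑ i ∈ range (r + 1), 2 ^ i * (bpar B r i + 1)
      = ∑ i ∈ range (r + 1), 2 ^ i * (2 * (B + (r - i))) + ∑ i ∈ range (r + 1), 2 ^ i := by
        rw [← sum_add_distrib]
        exact sum_congr rfl fun i _ => by rw [bpar]; ring
    _ ≤ 2 ^ r * (4 * B + 4) + 2 ^ r * 2 := Nat.add_le_add h5 h6
    _ = _ := by ring

/-- **Brun-Hooley sieve**, dimension `κ`, general remainder. -/
theorem bh_avg (κ : ℕ) : ∃ B : ℕ, ∀ (r : ℕ) (A : Finset ℕ) (a : ℕ → ℝ)
    (h : ℕ → ℕ → ℝ) (X : ℝ) (g : ℕ → ℝ) (R : Finset ℕ → ℝ), (∀ n ∈ A, 0 ≤ a n) →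
    (∀ p, ∀ n ∈ A, 0 ≤ h p n) → (∀ p, ∀ n ∈ A, h p n ≤ 1) → 0 ≤ X → (∀ p, 0 ≤ g p) →
    (∀ p, g p * p ≤ κ) → (∀ p, p.Prime → g p < 1) → (∀ D, 0 ≤ R D) →
    (∀ D ⊆ Nat.primesLE (Z r), ∏ p ∈ D, p ≤ Z r ^ B →
      |∑ n ∈ A, a n * ∏ p ∈ D, h p n - X * ∏ p ∈ D, g p| ≤ R D) →
    X / 2 * ∏ p ∈ Nat.primesLE (Z r), (1 - g p)
        - (r + 2) * ∑ D ∈ (Nat.primesLE (Z r)).powerset with ∏ p ∈ D, p ≤ Z r ^ B, R D
      ≤ ∑ n ∈ A, a n * ∏ p ∈ Nat.primesLE (Z r), (1 - h p n) ∧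
    ∑ n ∈ A, a n * ∏ p ∈ Nat.primesLE (Z r), (1 - h p n)
      ≤ 2 * X * ∏ p ∈ Nat.primesLE (Z r), (1 - g p)
        + ∑ D ∈ (Nat.primesLE (Z r)).powerset with ∏ p ∈ D, p ≤ Z r ^ B, R D := by
  set B₀ := Z κ + 5 * κ with hB₀
  refine ⟨4 * B₀ + 6, fun r A a h X g R ha h0 h1 hX hg0 hgκ hg1 hR hA => ?_⟩
  set B := 4 * B₀ + 6 with hB
  classical
  -- the densities in the form `ω p / p`
  set ω : ℕ → ℝ := fun p => g p * p with hω
  have hωg : ∀ p : ℕ, p.Prime → ω p / p = g p := by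
    intro p hp
    have : (p : ℝ) ≠ 0 := by exact_mod_cast hp.ne_zero
    rw [hω]
    field_simp
  have hω0 : ∀ p, 0 ≤ ω p := fun p => mul_nonneg (hg0 p) (Nat.cast_nonneg p)
  have hE := sum_es_div_le κ ω hω0 hgκ r
  have hblk : ∀ i, ∀ p ∈ blk i, p.Prime := fun i p hp => mem_blk_prime hp
  have hes : ∀ i n, es (blk i) (fun p => ω p / p) n = es (blk i) g n := by
    intro i n
    unfold es
    refine sum_congr rfl fun D hD => prod_congr rfl fun p hp => ?_
    exact hωg p (hblk i p ((mem_powersetCard.1 hD).1 hp))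
  have hpr : ∀ i, ∏ p ∈ blk i, (1 - ω p / (p : ℝ)) = ∏ p ∈ blk i, (1 - g p) := by
    intro i
    refine prod_congr rfl fun p hp => ?_
    rw [hωg p (hblk i p hp)]
  simp only [hes, hpr] at hE
  set s := range (r + 1) with hs
  have hU : s.biUnion blk = Nat.primesLE (Z r) := biUnion_blk r
  have hdisj : ∀ j ∈ s, ∀ k ∈ s, j ≠ k → Disjoint (blk j) (blk k) := fun j _ k _ hjk =>
    blk_pairwise j k hjk
  set R' : Finset ℕ → ℝ := fun D => if ∏ p ∈ D, p ≤ Z r ^ B then R D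
    else |∑ n ∈ A, a n * ∏ p ∈ D, h p n - X * ∏ p ∈ D, g p| with hR'
  have hR'0 : ∀ D, 0 ≤ R' D := by
    intro D
    simp only [hR']
    split_ifs
    · exact hR D
    · exact abs_nonneg _
  have hA' : ∀ D ⊆ s.biUnion blk, |∑ n ∈ A, a n * ∏ p ∈ D, h p n - X * ∏ p ∈ D, g p| ≤ R' D := by
    intro D hD
    rw [hU] at hD
    simp only [hR']
    split_ifs with h'
    · exact hA D hD h'
    · exact le_rfl
  have hT : ∑ E ∈ EE' blk (fun j => bpar B₀ r j + 1) s, R' E
      ≤ ∑ D ∈ (Nat.primesLE (Z r)).powerset with ∏ p ∈ D, p ≤ Z r ^ B, R D := by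
    have h2 : ∀ E ∈ EE' blk (fun j => bpar B₀ r j + 1) s, R' E = R E := by
      intro E hE'
      simp only [hR']
      rw [if_pos (prod_le_of_mem hE')]
    rw [sum_congr rfl h2]
    refine sum_le_sum_of_subset_of_nonneg ?_ fun D _ _ => hR D
    intro E hE'
    rw [mem_filter, mem_powerset]
    refine ⟨?_, prod_le_of_mem hE'⟩
    rw [← hU]
    exact (mem_EE'.1 hE').1
  have hprod1 : ∀ n, ∏ p ∈ Nat.primesLE (Z r), (1 - h p n) = ∏ j ∈ s, ∏ p ∈ blk j, (1 - h p n) := by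
    intro n
    rw [← hU, prod_biUnion (fun i hi j hj hij => hdisj i hi j hj hij)]
  have hprod2 : ∏ p ∈ Nat.primesLE (Z r), (1 - g p) = ∏ j ∈ s, ∏ p ∈ blk j, (1 - g p) := by
    rw [← hU, prod_biUnion (fun i hi j hj hij => hdisj i hi j hj hij)]
  have hb : ∀ j ∈ s, Even (bpar B₀ r j) := fun j _ => ⟨B₀ + (r - j), by rw [bpar]; ring⟩
  simp only [hprod1, hprod2]
  constructor
  · have := lower_gen A a h X g R' blk (bpar B₀ r) s ha h0 h1 hX
      (fun j _ p _ => hg0 p) (fun j _ p hp => hg1 p (hblk j p hp)) hdisj hR'0 hA' hb hE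
    rw [hs, card_range] at this
    push_cast at this
    have hT0 : 0 ≤ ∑ E ∈ EE' blk (fun j => bpar B₀ r j + 1) s, R' E :=
      sum_nonneg fun E _ => hR'0 E
    have h3 : (1 + ((r : ℝ) + 1)) * ∑ E ∈ EE' blk (fun j => bpar B₀ r j + 1) s, R' E
        ≤ (r + 2) * ∑ D ∈ (Nat.primesLE (Z r)).powerset with ∏ p ∈ D, p ≤ Z r ^ B, R D := by
      have : (1 + ((r : ℝ) + 1)) = r + 2 := by ring
      rw [this]
      exact mul_le_mul_of_nonneg_left hT (by positivity)
    linarith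
  · have := upper_gen A a h X g R' blk (bpar B₀ r) s ha h0 h1 hX
      (fun j _ p _ => hg0 p) (fun j _ p hp => hg1 p (hblk j p hp)) hdisj hA' hb hE
    have h3 : ∑ E ∈ EE' blk (bpar B₀ r) s, R' E ≤ ∑ E ∈ EE' blk (fun j => bpar B₀ r j + 1) s, R' E := by
      refine sum_le_sum_of_subset_of_nonneg ?_ fun D _ _ => hR'0 D
      intro E hE'
      rw [mem_EE'] at hE' ⊢
      exact ⟨hE'.1, fun j hj => (hE'.2 j hj).trans (Nat.le_succ _)⟩
    linarith

end Pool.Agent.helper80.MTR
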