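import Pool.Agent.helper39.MT.Defs
import Pool.Agent.helper17.MT.TR4

/-!
# Residue classes: patterns on a set of primes, and systems of residue sets
-/

set_option autoImplicit false

namespace Pool.Agent.helper80.MTR

open Finset Real ArithmeticFunction Pool.Agent.helper39.MT

lemma pat_iff {k D₀ W : ℕ} {A B : Fin k → ℕ} (h : Std k D₀ A B W)
    {P : Finset ℕ} (hP : ∀ p ∈ P, p.Prime ∧ ¬ p ∣ W) (p : P)
    (n : ℕ) (i : Fin k) : pat A B P n p = some i ↔ (p : ℕ) ∣ A i * n + B i := by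
  classical
  have hp := hP p p.2
  unfold pat
  constructor
  · intro hh
    split_ifs at hh with h1
    rw [Option.some_inj] at hh
    rw [← hh]
    exact h1.choose_spec
  · intro hh
    have h1 : ∃ i, (p : ℕ) ∣ A i * n + B i := ⟨i, hh⟩
    rw [dif_pos h1, Option.some_inj]
    by_contra hne
    have h2 := h1.choose_spec
    refine hp.2 (h.det _ _ hne p hp.1 ?_)
    have e1 : (A h1.choose : ℤ) * B i - (A i : ℤ) * B h1.choose =
        A h1.choose * ((A i * n + B i : ℕ) : ℤ) -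
          A i * ((A h1.choose * n + B h1.choose : ℕ) : ℤ) := by
      push_cast
      ring
    rw [e1]
    exact dvd_sub ((Int.natCast_dvd_natCast.2 hh).mul_left _)
      ((Int.natCast_dvd_natCast.2 h2).mul_left _)

/-- the residue at one prime -/
private lemma exists_residue {k D₀ W : ℕ} {A B : Fin k → ℕ} (h : Std k D₀ A B W)
    {P : Finset ℕ} (hP : ∀ p ∈ P, p.Prime ∧ ¬ p ∣ W) (p : P)
    (i : Fin k) : ∃ r : ℕ, ∀ n : ℕ, (p : ℕ) ∣ A i * n + B i ↔ n ≡ r [MOD (p : ℕ)] := by
  have hp := hP p p.2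
  have hpA : ¬ (p : ℕ) ∣ A i := fun hd => hp.2 ((h.dvdA i p hp.1).1 hd)
  have hcop : Nat.Coprime (A i) p := ((Nat.Prime.coprime_iff_not_dvd hp.1).2 hpA).symm
  have : Fact (p : ℕ).Prime := ⟨hp.1⟩
  have hA0 : ((A i : ℕ) : ZMod p) ≠ 0 := by
    rw [Ne, ZMod.natCast_eq_zero_iff]
    exact hpA
  refine ⟨(-(B i : ZMod p) / (A i : ZMod p)).val, fun n => ?_⟩
  rw [← ZMod.natCast_eq_zero_iff, ← ZMod.natCast_eq_natCast_iff]
  rw [ZMod.natCast_val, ZMod.cast_id', id_eq, eq_div_iff hA0]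
  push_cast
  constructor
  · intro hh
    linear_combination hh
  · intro hh
    linear_combination hh

/-- TR4: the pattern of `n` is described by a congruence. -/
theorem ind_patP {k D₀ W : ℕ} {A B : Fin k → ℕ} (h : Std k D₀ A B W)
    {P : Finset ℕ} (hP : ∀ p ∈ P, p.Prime ∧ ¬ p ∣ W)
    (τ : P → Option (Fin k)) : ∃ ν : ℕ, ν < dd (fun p : P => (p : ℕ)) τ ∧
      (∀ n, ind τ (pat A B P n) =
        if n ≡ ν [MOD dd (fun p : P => (p : ℕ)) τ] then 1 else 0) ∧
      (∀ p i, τ p = some i → (p : ℕ) ∣ A i * ν + B i) := by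
  classical
  choose r hr using fun (p : P) (i : Fin k) => exists_residue h hP p i
  set s : P → ℕ := fun p => if τ p = none then 1 else (p : ℕ) with hs
  set a : P → ℕ := fun p => match τ p with
    | none => 0
    | some i => r p i with ha
  have hs0 : ∀ p, s p ≠ 0 := by
    intro p
    simp only [hs]
    split_ifs
    · exact one_ne_zero
    · exact (hP p p.2).1.ne_zero
  have hcop : ∀ p q : P, p ≠ q → Nat.Coprime (s p) (s q) := by
    intro p q hpq
    simp only [hs]
    split_ifs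
    · exact Nat.coprime_one_left _
    · exact Nat.coprime_one_left _
    · exact Nat.coprime_one_right _
    · exact (Nat.coprime_primes (hP p p.2).1 (hP q q.2).1).2
        fun e => hpq (Subtype.ext e)
  have hdd : dd (fun p : P => (p : ℕ)) τ = ∏ p, s p := rfl
  have hDpos : 0 < ∏ p, s p := Nat.pos_of_ne_zero (prod_ne_zero_iff.2 fun p _ => hs0 p)
  obtain ⟨x, hx⟩ := Nat.chineseRemainderOfFinset a s univ (fun p _ => hs0 p)
    (fun p _ q _ hpq => hcop p q hpq)
  have hmod : ∀ n m : ℕ, n ≡ m [MOD ∏ p, s p] ↔ ∀ p, n ≡ m [MOD s p] := by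
    intro n m
    constructor
    · intro hh p
      exact hh.of_dvd (dvd_prod_of_mem s (mem_univ p))
    · intro hh
      rw [Nat.modEq_iff_dvd]
      push_cast
      refine Finset.prod_dvd_of_coprime ?_ ?_
      · intro p _ q _ hpq
        exact Nat.isCoprime_iff_coprime.2 (hcop p q hpq)
      · intro p _
        exact (Nat.modEq_iff_dvd.1 (hh p))
  have hν : ∀ p, x % (∏ p, s p) ≡ a p [MOD s p] := by
    intro p
    have h1 : x % (∏ p, s p) ≡ x [MOD ∏ p, s p] := Nat.mod_modEq _ _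
    exact ((hmod _ _).1 h1 p).trans (hx p (mem_univ p))
  have hlab : ∀ (p : P) (i : Fin k) (n : ℕ), τ p = some i →
      (n ≡ x % (∏ p, s p) [MOD s p] ↔ (p : ℕ) ∣ A i * n + B i) := by
    intro p i n hτ
    have h1 : s p = p := by simp only [hs, hτ]; simp
    have h2 : a p = r p i := by simp only [ha, hτ]
    have h3 := hν p
    rw [h1, h2] at h3
    rw [h1, hr p i n]
    exact ⟨fun hh => hh.trans h3, fun hh => hh.trans h3.symm⟩
  refine ⟨x % (∏ p, s p), Nat.mod_lt _ hDpos, ?_, ?_⟩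
  · intro n
    rw [h17_ind_eq, hdd]
    congr 1
    rw [hmod, eq_iff_iff]
    constructor
    · intro hh p
      cases hτ : τ p with
      | none =>
        have h1 : s p = 1 := by simp only [hs, hτ]; simp
        rw [h1]
        exact Nat.modEq_one
      | some i =>
        rw [hlab p i n hτ, ← pat_iff h hP p n i, ← hτ]
        exact hh p (by rw [hτ]; exact Option.some_ne_none i)
    · intro hh p hp
      obtain ⟨i, hτ⟩ := Option.ne_none_iff_exists'.1 hp
      rw [hτ, pat_iff h hP p n i, ← hlab p i n hτ]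
      exact hh p
  · intro p i hτ
    rw [← hlab p i _ hτ]


/-! ### systems of residue sets -/

lemma card_modEq_range {m : ℕ} (hm : 0 < m) (v : ℕ) : #{n ∈ range m | n ≡ v [MOD m]} = 1 := by
  rw [card_eq_one]
  refine ⟨v % m, ?_⟩
  ext n
  simp only [mem_filter, mem_range, mem_singleton]
  constructor
  · rintro ⟨h1, h2⟩
    unfold Nat.ModEq at h2
    rwa [Nat.mod_eq_of_lt h1] at h2
  · rintro rfl
    exact ⟨Nat.mod_lt _ hm, Nat.mod_modEq _ _⟩

/-- the number of residue classes in a system of residue sets -/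
lemma card_classes (C : ℕ → Finset ℕ) (D : Finset ℕ) :
    (∀ p ∈ D, p.Prime) → (∀ p ∈ D, ∀ c ∈ C p, c < p) → ∀ (m v : ℕ), 0 < m →
    (∀ p ∈ D, Nat.Coprime m p) →
    #{n ∈ range (m * ∏ p ∈ D, p) | n ≡ v [MOD m] ∧ ∀ p ∈ D, n % p ∈ C p}
      = ∏ p ∈ D, #(C p) := by
  induction D using Finset.induction_on with
  | empty =>
    intro _ _ m v hm _
    simpa using card_modEq_range hm v
  | insert q D hq ih =>
    intro hD hC m v hm hcop
    have ih := ih (fun p hp => hD p (mem_insert_of_mem hp)) (fun p hp => hC p (mem_insert_of_mem hp))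
    have hqp : q.Prime := hD q (mem_insert_self _ _)
    have hmq : Nat.Coprime m q := hcop q (mem_insert_self _ _)
    have hcop' : ∀ p ∈ D, Nat.Coprime (m * q) p := by
      intro p hp
      refine Nat.Coprime.mul_left (hcop p (mem_insert_of_mem hp)) ?_
      exact (Nat.coprime_primes hqp (hD p (mem_insert_of_mem hp))).mpr (fun e => hq (e ▸ hp))
    have hsplit : #{n ∈ range (m * ∏ p ∈ insert q D, p) |
          n ≡ v [MOD m] ∧ ∀ p ∈ insert q D, n % p ∈ C p}
        = ∑ c ∈ C q, #{n ∈ range (m * q * ∏ p ∈ D, p) |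
            n ≡ (Nat.chineseRemainder hmq v c : ℕ) [MOD m * q] ∧ ∀ p ∈ D, n % p ∈ C p} := by
      rw [← card_biUnion]
      · congr 1
        ext n
        simp only [mem_filter, mem_biUnion, mem_insert, forall_eq_or_imp, prod_insert hq,
          mul_assoc]
        constructor
        · rintro ⟨h1, h2, h3, h4⟩
          refine ⟨n % q, h3, h1, ?_, h4⟩
          rw [← Nat.modEq_and_modEq_iff_modEq_mul hmq]
          refine ⟨h2.trans (Nat.chineseRemainder hmq v (n % q)).2.1.symm, ?_⟩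
          exact (Nat.mod_modEq n q).symm.trans (Nat.chineseRemainder hmq v (n % q)).2.2.symm
        · rintro ⟨c, hc, h1, h2, h4⟩
          rw [← Nat.modEq_and_modEq_iff_modEq_mul hmq] at h2
          have e := h2.2.trans (Nat.chineseRemainder hmq v c).2.2
          have hcq : c < q := hC q (mem_insert_self _ _) c hc
          have e' : n % q = c := by
            have := e
            unfold Nat.ModEq at this
            rwa [Nat.mod_eq_of_lt hcq] at this
          exact ⟨h1, h2.1.trans (Nat.chineseRemainder hmq v c).2.1, by rw [e']; exact hc, h4⟩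
      · intro c₁ h₁ c₂ h₂ hne
        rw [Function.onFun, disjoint_left]
        intro n hn₁ hn₂
        simp only [mem_filter] at hn₁ hn₂
        have a1 := (Nat.modEq_and_modEq_iff_modEq_mul hmq).mpr hn₁.2.1
        have a2 := (Nat.modEq_and_modEq_iff_modEq_mul hmq).mpr hn₂.2.1
        have b1 := a1.2.trans (Nat.chineseRemainder hmq v c₁).2.2
        have b2 := a2.2.trans (Nat.chineseRemainder hmq v c₂).2.2
        have b3 := b1.symm.trans b2
        have hc1 : c₁ < q := hC q (mem_insert_self _ _) c₁ h₁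
        have hc2 : c₂ < q := hC q (mem_insert_self _ _) c₂ h₂
        unfold Nat.ModEq at b3
        rw [Nat.mod_eq_of_lt hc1, Nat.mod_eq_of_lt hc2] at b3
        exact hne b3
    rw [hsplit, prod_insert hq, sum_congr rfl fun c _ =>
      ih (m * q) (Nat.chineseRemainder hmq v c : ℕ) (Nat.mul_pos hm hqp.pos) hcop', sum_const,
      smul_eq_mul]

/-- The residue classes modulo `m ∏ D`. -/
def cls' (m v : ℕ) (D : Finset ℕ) (C : ℕ → Finset ℕ) : Finset ℕ :=
  {n ∈ range (m * ∏ p ∈ D, p) | n ≡ v [MOD m] ∧ ∀ p ∈ D, n % p ∈ C p}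

lemma mem_cls' {m v : ℕ} {D : Finset ℕ} {C : ℕ → Finset ℕ} {n : ℕ} :
    n ∈ cls' m v D C ↔ n < m * ∏ p ∈ D, p ∧ n ≡ v [MOD m] ∧ ∀ p ∈ D, n % p ∈ C p := by
  simp [cls']

lemma cond_iff {m v : ℕ} {D : Finset ℕ} {C : ℕ → Finset ℕ} {n b : ℕ}
    (hb : n ≡ b [MOD m * ∏ p ∈ D, p]) :
    (n ≡ v [MOD m] ∧ ∀ p ∈ D, n % p ∈ C p) ↔ (b ≡ v [MOD m] ∧ ∀ p ∈ D, b % p ∈ C p) := by
  have h1 : n ≡ b [MOD m] := hb.of_dvd (Dvd.intro _ rfl)
  have h2 : ∀ p ∈ D, n % p = b % p := fun p hp =>
    hb.of_dvd ((dvd_prod_of_mem (fun p => p) hp).trans (Dvd.intro_left _ rfl))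
  constructor
  · rintro ⟨h3, h4⟩
    exact ⟨h1.symm.trans h3, fun p hp => by rw [← h2 p hp]; exact h4 p hp⟩
  · rintro ⟨h3, h4⟩
    exact ⟨h1.trans h3, fun p hp => by rw [h2 p hp]; exact h4 p hp⟩

/-- a sum over the integers described by a system of residue sets is a sum over classes -/
lemma sum_classes (m v : ℕ) (D : Finset ℕ) (C : ℕ → Finset ℕ) (hm : 0 < m)
    (hD : ∀ p ∈ D, p.Prime) (S : Finset ℕ) (f : ℕ → ℝ) :
    ∑ n ∈ S with (n ≡ v [MOD m] ∧ ∀ p ∈ D, n % p ∈ C p), f n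
      = ∑ b ∈ cls' m v D C, ∑ n ∈ S with n ≡ b [MOD m * ∏ p ∈ D, p], f n := by
  classical
  have hM : 0 < m * ∏ p ∈ D, p := Nat.mul_pos hm (prod_pos fun p hp => (hD p hp).pos)
  rw [← sum_fiberwise_of_maps_to (s := {n ∈ S | n ≡ v [MOD m] ∧ ∀ p ∈ D, n % p ∈ C p})
    (t := cls' m v D C) (g := fun n => n % (m * ∏ p ∈ D, p))]
  · refine sum_congr rfl fun b hb => ?_
    refine sum_congr ?_ fun _ _ => rfl
    ext n
    rw [mem_cls'] at hb
    simp only [mem_filter]
    constructor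
    · rintro ⟨⟨h1, _⟩, h3⟩
      refine ⟨h1, ?_⟩
      rw [← h3]
      exact (Nat.mod_modEq _ _).symm
    · rintro ⟨h1, h2⟩
      refine ⟨⟨h1, (cond_iff h2).2 hb.2⟩, ?_⟩
      unfold Nat.ModEq at h2
      rwa [Nat.mod_eq_of_lt hb.1] at h2
  · intro n hn
    rw [mem_filter] at hn
    rw [mem_cls']
    exact ⟨Nat.mod_lt _ hM, (cond_iff (Nat.mod_modEq n _).symm).1 hn.2⟩

lemma prod_indicator (D : Finset ℕ) (C : ℕ → Finset ℕ) (n : ℕ) :
    ∏ p ∈ D, (if n % p ∈ C p then (1 : ℝ) else 0) = if ∀ p ∈ D, n % p ∈ C p then 1 else 0 := by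
  split_ifs with h
  · exact prod_eq_one fun p hp => by simp [h p hp]
  · push Not at h
    obtain ⟨p, hp, hpn⟩ := h
    exact prod_eq_zero hp (by simp [hpn])

end Pool.Agent.helper80.MTR
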