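import Mathlib

/-!
# The choice of the modulus
-/

set_option autoImplicit false

namespace Pool.Agent.helper80.MTR

open Finset Polynomial

lemma primesLE_mem {D p : ℕ} : p ∈ Nat.primesLE D ↔ p ≤ D ∧ p.Prime := Nat.mem_primesLE

/-- a system of shifts, a modulus and a residue class such that exactly the shifts in the system can
be prime, and such that `x f(x)` has no small prime factor for these shifts -/
theorem choose_modulus (f : ℤ[X]) (hf0 : ∀ e : ℤ, f.eval e ≠ 0)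
    (hadm : ∀ p : ℕ, p.Prime → ∃ a : ℕ, ¬ (p : ℤ) ∣ (a : ℤ) * f.eval (a : ℤ)) (k D : ℕ)
    (hD : 2 ≤ D) :
    ∃ W M ν : ℕ, 0 < W ∧ 0 < M ∧ 0 < ν ∧ M ∣ W ∧ (∀ p : ℕ, p.Prime → p ≤ D → p ∣ W) ∧
      (∀ p : ℕ, p.Prime → p ∣ M → p ≤ D) ∧
      (∀ i < k, ∀ p : ℕ, p.Prime → p ∣ W →
        ¬ (p : ℤ) ∣ ((ν : ℤ) + i * M) * f.eval ((ν : ℤ) + i * M)) ∧
      (∀ h < k * M, ¬ M ∣ h → ∃ q, q.Prime ∧ q ∣ W ∧ q ∣ ν + h) := by
  classical
  choose! a₀ ha₀ using hadm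
  obtain ⟨M, hMdef⟩ : ∃ M, M = D.factorial := ⟨_, rfl⟩
  have hMpos : 0 < M := hMdef ▸ Nat.factorial_pos D
  have hpM : ∀ p : ℕ, p.Prime → (p ∣ M ↔ p ≤ D) := fun p hp => by
    rw [hMdef]; exact hp.dvd_factorial
  obtain ⟨N₀, hN₀⟩ : ∃ N₀ : ℕ, N₀ = D + k * M +
    ∑ e ∈ Icc (-((k * M : ℕ) : ℤ)) ((k * M : ℕ) : ℤ), (f.eval e).natAbs := ⟨_, rfl⟩
  obtain ⟨H, hH⟩ : ∃ H : Finset ℕ, H = (range (k * M)).filter (fun h => ¬ M ∣ h) := ⟨_, rfl⟩
  have hHmem : ∀ h, h ∈ H ↔ h < k * M ∧ ¬ M ∣ h := fun h => by rw [hH]; simp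
  obtain ⟨q, hq⟩ : ∃ q : ℕ → ℕ, q = fun h => Nat.nth Nat.Prime (N₀ + h) := ⟨_, rfl⟩
  have hqp : ∀ h, (q h).Prime := fun h => by rw [hq]; exact Nat.prime_nth_prime _
  have hqN : ∀ h, N₀ + h < q h := fun h => by
    rw [hq]
    have := Nat.add_two_le_nth_prime (N₀ + h)
    simp only
    omega
  have hqinj : ∀ h h', h ≠ h' → q h ≠ q h' := by
    intro h h' hne e
    rw [hq] at e
    simp only at e
    have := (Nat.nth_injective Nat.infinite_setOfPred_prime) e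
    omega
  have hqD : ∀ h, D < q h := fun h => by have := hqN h; omega
  -- the two remainders
  obtain ⟨ν₁, hν₁⟩ := Nat.chineseRemainderOfFinset a₀ (fun p => p) (Nat.primesLE D)
    (fun p hp => (primesLE_mem.1 hp).2.ne_zero)
    (fun p hp p' hp' hne => (Nat.coprime_primes (primesLE_mem.1 hp).2 (primesLE_mem.1 hp').2).2 hne)
  obtain ⟨ν₂, hν₂⟩ := Nat.chineseRemainderOfFinset (fun h => q h - h) q H
    (fun h _ => (hqp h).ne_zero)
    (fun h _ h' _ hne => (Nat.coprime_primes (hqp h) (hqp h')).2 (hqinj h h' hne))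
  have hcop : Nat.Coprime (∏ p ∈ Nat.primesLE D, p) (∏ h ∈ H, q h) := by
    refine Nat.Coprime.prod_left fun p hp => Nat.Coprime.prod_right fun h _ => ?_
    refine (Nat.coprime_primes (primesLE_mem.1 hp).2 (hqp h)).2 ?_
    have h1 := (primesLE_mem.1 hp).1
    have h2 := hqD h
    omega
  obtain ⟨ν, hνa, hνb⟩ := Nat.chineseRemainder hcop ν₁ ν₂
  have hν1 : ∀ p : ℕ, p.Prime → p ≤ D → ν ≡ a₀ p [MOD p] := fun p hp hpD =>
    (hνa.of_dvd (dvd_prod_of_mem (fun p => p) (primesLE_mem.2 ⟨hpD, hp⟩))).trans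
      (hν₁ p (primesLE_mem.2 ⟨hpD, hp⟩))
  have hν2 : ∀ h ∈ H, q h ∣ ν + h := by
    intro h hh
    have h1 : ν ≡ q h - h [MOD q h] :=
      (hνb.of_dvd (dvd_prod_of_mem q hh)).trans (hν₂ h hh)
    have h2 : ν + h ≡ q h - h + h [MOD q h] := Nat.ModEq.add_right h h1
    have h3 : q h - h + h = q h := by have := hqN h; omega
    rw [h3] at h2
    exact (Nat.ModEq.dvd_iff h2 dvd_rfl).2 dvd_rfl
  -- the key divisibility statement
  have hkey1 : ∀ (i : ℕ) (p : ℕ), p.Prime → p ≤ D →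
      ¬ (p : ℤ) ∣ ((ν : ℤ) + i * M) * f.eval ((ν : ℤ) + i * M) := by
    intro i p hp hpD hdvd
    have h1 : (p : ℤ) ∣ ((ν : ℤ) + i * M) - (a₀ p : ℤ) := by
      have h2 : (p : ℤ) ∣ (ν : ℤ) - (a₀ p : ℤ) := (Nat.modEq_iff_dvd.1 (hν1 p hp hpD).symm)
      have h3 : (p : ℤ) ∣ (i : ℤ) * M :=
        (Int.natCast_dvd_natCast.2 ((hpM p hp).2 hpD)).mul_left _
      have h4 : ((ν : ℤ) + i * M) - (a₀ p : ℤ) = ((ν : ℤ) - (a₀ p : ℤ)) + i * M := by ring
      rw [h4]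
      exact dvd_add h2 h3
    have h5 : (p : ℤ) ∣ f.eval ((ν : ℤ) + i * M) - f.eval (a₀ p : ℤ) :=
      h1.trans (sub_dvd_eval_sub _ _ f)
    refine ha₀ p hp ?_
    have h6 : (a₀ p : ℤ) * f.eval (a₀ p : ℤ) = ((ν : ℤ) + i * M) * f.eval ((ν : ℤ) + i * M)
        - ((((ν : ℤ) + i * M) - (a₀ p : ℤ)) * f.eval ((ν : ℤ) + i * M)
          + (a₀ p : ℤ) * (f.eval ((ν : ℤ) + i * M) - f.eval (a₀ p : ℤ))) := by ring
    rw [h6]
    exact dvd_sub hdvd (dvd_add (h1.mul_right _) (h5.mul_left _))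
  have hkey2 : ∀ i < k, ∀ h ∈ H,
      ¬ (q h : ℤ) ∣ ((ν : ℤ) + i * M) * f.eval ((ν : ℤ) + i * M) := by
    intro i hi h hh hdvd
    obtain ⟨hhk, hhM⟩ := (hHmem h).1 hh
    have h1 : (q h : ℤ) ∣ ((ν : ℤ) + i * M) - ((i : ℤ) * M - h) := by
      have h2 : (q h : ℤ) ∣ ((ν + h : ℕ) : ℤ) := Int.natCast_dvd_natCast.2 (hν2 h hh)
      have h3 : ((ν : ℤ) + i * M) - ((i : ℤ) * M - h) = ((ν + h : ℕ) : ℤ) := by push_cast; ring
      rw [h3]
      exact h2
    have hiM : i * M < k * M := (Nat.mul_lt_mul_right hMpos).2 hi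
    have hqh := hqN h
    have hkM : k * M ≤ N₀ := by omega
    rcases (Nat.prime_iff_prime_int.1 (hqp h)).dvd_mul.1 hdvd with h4 | h4
    · have h5 : (q h : ℤ) ∣ (i : ℤ) * M - h := by
        have := dvd_sub h4 h1
        rwa [sub_sub_cancel] at this
      have h6 : (i : ℤ) * M - h = 0 := by
        refine Int.eq_zero_of_abs_lt_dvd h5 ?_
        rw [abs_lt]
        have e1 : ((i : ℤ) * M) < k * M := by exact_mod_cast hiM
        have e2 : (h : ℤ) < k * M := by exact_mod_cast hhk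
        have e3 : ((k : ℤ) * M) < q h := by exact_mod_cast (by omega : k * M < q h)
        have e4 : (0 : ℤ) ≤ (i : ℤ) * M := by positivity
        constructor <;> linarith
      have h7 : h = i * M := by
        have : (h : ℤ) = ((i * M : ℕ) : ℤ) := by push_cast; linarith
        exact_mod_cast this
      exact hhM (h7 ▸ Dvd.intro_left i rfl)
    · have h5 : (q h : ℤ) ∣ f.eval ((i : ℤ) * M - h) := by
        have h6 : (q h : ℤ) ∣ f.eval ((ν : ℤ) + i * M) - f.eval ((i : ℤ) * M - h) :=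
          h1.trans (sub_dvd_eval_sub _ _ f)
        have := dvd_sub h4 h6
        rwa [sub_sub_cancel] at this
      refine hf0 _ (Int.eq_zero_of_abs_lt_dvd h5 ?_)
      have hmem : ((i : ℤ) * M - h) ∈ Icc (-((k * M : ℕ) : ℤ)) ((k * M : ℕ) : ℤ) := by
        rw [mem_Icc]
        have e1 : ((i : ℤ) * M) < k * M := by exact_mod_cast hiM
        have e2 : (h : ℤ) < k * M := by exact_mod_cast hhk
        have e4 : (0 : ℤ) ≤ (i : ℤ) * M := by positivity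
        push_cast
        constructor <;> linarith
      have h7 : (f.eval ((i : ℤ) * M - h)).natAbs ≤
          ∑ e ∈ Icc (-((k * M : ℕ) : ℤ)) ((k * M : ℕ) : ℤ), (f.eval e).natAbs :=
        single_le_sum (f := fun e : ℤ => (f.eval e).natAbs) (fun _ _ => Nat.zero_le _) hmem
      rw [Int.abs_eq_natAbs]
      exact_mod_cast (by omega : (f.eval ((i : ℤ) * M - h)).natAbs < q h)
  have hWprime : ∀ p : ℕ, p.Prime → p ∣ M * ∏ h ∈ H, q h → p ≤ D ∨ ∃ h ∈ H, p = q h := by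
    intro p hp hpd
    rcases (Nat.Prime.dvd_mul hp).1 hpd with h1 | h1
    · exact Or.inl ((hpM p hp).1 h1)
    · obtain ⟨h, hh, hph⟩ := (Prime.dvd_finsetProd_iff hp.prime _).1 h1
      exact Or.inr ⟨h, hh, (Nat.prime_dvd_prime_iff_eq hp (hqp h)).1 hph⟩
  refine ⟨M * ∏ h ∈ H, q h, M, ν, Nat.mul_pos hMpos (prod_pos fun h _ => (hqp h).pos), hMpos, ?_,
    Dvd.intro _ rfl, fun p hp hpD => ((hpM p hp).2 hpD).mul_right _, fun p hp => (hpM p hp).1, ?_, ?_⟩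
  · rcases Nat.eq_zero_or_pos ν with h0 | h0
    · exfalso
      refine hkey1 0 2 Nat.prime_two hD ?_
      rw [h0]
      simp
    · exact h0
  · intro i hi p hp hpW
    rcases hWprime p hp hpW with h1 | ⟨h, hh, rfl⟩
    · exact hkey1 i p hp h1
    · exact hkey2 i hi h hh
  · intro h hhk hhM
    have hh : h ∈ H := (hHmem h).2 ⟨hhk, hhM⟩
    exact ⟨q h, hqp h, (dvd_prod_of_mem q hh).mul_left M, hν2 h hh⟩

end Pool.Agent.helper80.MTR
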