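import Pool.Agent.helper80.MTR.Main
import Pool.Agent.helper80.MTR.Modulus
import Pool.Agent.helper35.MT.AN6

/-!
# Strings of consecutive primes with rough polynomial companions
-/

set_option autoImplicit false

namespace Pool.Agent.helper80.MTR

open Finset Polynomial Pool.Agent.helper39.MT

/-- **Maynard-Tao with forbidden residue classes.** -/
theorem mt_forbidden (r : ℕ) :
    ∃ k D₀ : ℕ, 2 ≤ k ∧ ∀ (A B : Fin k → ℕ) (W : ℕ), Std k D₀ A B W →
    ∀ (κ : ℕ) (C : ℕ → Finset ℕ), (∀ p, p.Prime → ∀ c ∈ C p, c < p) → (∀ p, #(C p) ≤ κ) →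
      (∀ p, p.Prime → #(C p) < p) →
      (∀ p, p.Prime → ¬ p ∣ W → ∀ m, ∃ c ∈ C p, p ∣ A m * c + B m) →
    ∃ δ : ℝ, 0 < δ ∧ ∀ N : ℕ, ∃ n ≥ N, r < #{i : Fin k | (A i * n + B i).Prime} ∧
      ∀ p : ℕ, p.Prime → ¬ p ∣ W → (p : ℝ) ≤ (n : ℝ) ^ δ → n % p ∉ C p :=
  mt_forbidden_of good_scales r

lemma card_roots_one (f : ℤ[X]) {p W b : ℕ} (hp : p.Prime) (hpW : ¬ p ∣ W)
    (hf : ∃ a : ℕ, ¬ (p : ℤ) ∣ (a : ℤ) * f.eval (a : ℤ)) :
    #{t ∈ range p | (p : ℤ) ∣ ((W : ℤ) * (t : ℕ) + b) * f.eval ((W : ℤ) * (t : ℕ) + b)}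
      ≤ 1 + f.natDegree := by
  classical
  have : Fact p.Prime := ⟨hp⟩
  set g : (ZMod p)[X] := f.map (Int.castRingHom (ZMod p)) with hg
  have heval : ∀ z : ℤ, g.eval (z : ZMod p) = ((f.eval z : ℤ) : ZMod p) := by
    intro z
    rw [hg, eval_map, eval₂_at_intCast]
    simp
  have hg0 : g ≠ 0 := by
    intro h0
    obtain ⟨a, ha⟩ := hf
    apply ha
    have h1 := heval (a : ℤ)
    rw [h0, eval_zero] at h1
    exact (((ZMod.intCast_zmod_eq_zero_iff_dvd _ p).1 h1.symm)).mul_left _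
  have hW0 : (W : ZMod p) ≠ 0 := by
    rw [Ne, ZMod.natCast_eq_zero_iff]
    exact hpW
  have hinj : Set.InjOn (fun t : ℕ => ((W * t + b : ℕ) : ZMod p))
      ({t ∈ range p | (p : ℤ) ∣ ((W : ℤ) * (t : ℕ) + b) * f.eval ((W : ℤ) * (t : ℕ) + b)} :
        Finset ℕ) := by
    intro t ht t' ht' e
    simp only [coe_filter, mem_range, Set.mem_ofPred_eq] at ht ht'
    simp only at e
    push_cast at e
    have e1 : (t : ZMod p) = t' := mul_left_cancel₀ hW0 (add_right_cancel e)
    have e2 := (ZMod.natCast_eq_natCast_iff' t t' p).1 e1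
    rwa [Nat.mod_eq_of_lt ht.1, Nat.mod_eq_of_lt ht'.1] at e2
  calc #{t ∈ range p | (p : ℤ) ∣ ((W : ℤ) * (t : ℕ) + b) * f.eval ((W : ℤ) * (t : ℕ) + b)}
      ≤ #(insert (0 : ZMod p) g.roots.toFinset) := by
        refine card_le_card_of_injOn (fun t : ℕ => ((W * t + b : ℕ) : ZMod p)) ?_ hinj
        intro t ht
        simp only [coe_filter, mem_range, Set.mem_ofPred_eq] at ht
        rw [mem_coe, mem_insert]
        rcases (Nat.prime_iff_prime_int.1 hp).dvd_mul.1 ht.2 with h1 | h1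
        · left
          rw [ZMod.natCast_eq_zero_iff]
          exact_mod_cast h1
        · right
          rw [Multiset.mem_toFinset, mem_roots hg0, IsRoot.def]
          have h2 := heval ((W : ℤ) * t + b)
          have h3 : (((W : ℤ) * t + b : ℤ) : ZMod p) = ((W * t + b : ℕ) : ZMod p) := by push_cast; ring
          rw [h3] at h2
          rw [h2]
          exact (ZMod.intCast_zmod_eq_zero_iff_dvd _ p).2 h1
    _ ≤ #g.roots.toFinset + 1 := card_insert_le _ _
    _ ≤ 1 + f.natDegree := by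
        have h1 := (Multiset.toFinset_card_le g.roots).trans (card_roots' g)
        have h2 : g.natDegree ≤ f.natDegree := natDegree_map_le
        omega

/-- **Bounded intervals with many primes, all with rough values of `f`.** -/
theorem strings (f : ℤ[X]) (hf0 : ∀ e : ℤ, f.eval e ≠ 0)
    (hadm : ∀ p : ℕ, p.Prime → ∃ a : ℕ, ¬ (p : ℤ) ∣ (a : ℤ) * f.eval (a : ℤ)) (m : ℕ) :
    ∃ C r : ℕ, ∀ N : ℕ, ∃ x ≥ N, m < #{p ∈ Icc x (x + C) | p.Prime} ∧
      ∀ p ∈ Icc x (x + C), p.Prime → ∀ q : ℕ, q.Prime → (q : ℤ) ∣ f.eval (p : ℤ) → p < q ^ r := by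
  classical
  obtain ⟨k, D₀, hk, hmt⟩ := mt_forbidden m
  obtain ⟨D, hD⟩ : ∃ D : ℕ, D = max D₀ (k * (1 + f.natDegree)) + k + 2 := ⟨_, rfl⟩
  obtain ⟨W, M, ν, hW, hM, hν, hMW, hsmall, hMD, hrough, hkill⟩ := choose_modulus f hf0 hadm k D
    (by omega)
  -- the forms
  obtain ⟨A, hA⟩ : ∃ A : Fin k → ℕ, A = fun _ => W := ⟨_, rfl⟩
  obtain ⟨B, hB⟩ : ∃ B : Fin k → ℕ, B = fun i : Fin k => ν + (i : ℕ) * M :=
    ⟨_, rfl⟩
  have hA' : ∀ i, A i = W := fun i => by rw [hA]
  have hB' : ∀ i, B i = ν + i * M := fun i => by rw [hB]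
  have hstd : Std k D₀ A B W := by
    refine ⟨fun i => by rw [hA']; exact hW, fun i => by rw [hB']; omega, hW,
      fun p hp hpD => hsmall p hp (hpD.trans (by omega)), fun i p _ => by rw [hA'], fun i => ?_,
      fun i j hij p hp hdvd => ?_⟩
    · by_contra hcop
      obtain ⟨q, hq, h1, h2⟩ := Nat.Prime.not_coprime_iff_dvd.1 hcop
      refine hrough i i.2 q hq h2 ?_
      refine Dvd.dvd.mul_right ?_ _
      rw [hB'] at h1
      exact_mod_cast h1
    · rw [hA', hA', hB', hB'] at hdvd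
      have e1 : (W : ℤ) * ((ν + j * M : ℕ) : ℤ) - (W : ℤ) * ((ν + i * M : ℕ) : ℤ)
          = W * (M * ((j : ℤ) - i)) := by push_cast; ring
      rw [e1] at hdvd
      rcases (Nat.prime_iff_prime_int.1 hp).dvd_mul.1 hdvd with h1 | h1
      · exact_mod_cast h1
      · rcases (Nat.prime_iff_prime_int.1 hp).dvd_mul.1 h1 with h2 | h2
        · exact (by exact_mod_cast h2 : p ∣ M).trans hMW
        · by_contra hpW
          have hpD : D < p := by
            by_contra hlt
            exact hpW (hsmall p hp (not_lt.1 hlt))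
          have hkp : k < p := by omega
          refine hij ?_
          have h3 : (j : ℤ) - i = 0 := by
            refine Int.eq_zero_of_abs_lt_dvd h2 ?_
            rw [abs_lt]
            have := i.2
            have := j.2
            constructor <;> omega
          exact Fin.ext (by omega)
  -- the forbidden classes
  obtain ⟨Cf, hCf⟩ : ∃ Cf : ℕ → Finset ℕ, Cf = fun p => if p.Prime ∧ ¬ p ∣ W then
    (univ : Finset (Fin k)).biUnion (fun i => {t ∈ range p |
      (p : ℤ) ∣ ((W : ℤ) * (t : ℕ) + (B i : ℕ)) * f.eval ((W : ℤ) * (t : ℕ) + (B i : ℕ))}) else ∅ :=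
    ⟨_, rfl⟩
  have hmemC : ∀ p t : ℕ, p.Prime → ¬ p ∣ W → (t ∈ Cf p ↔ t < p ∧ ∃ i : Fin k,
      (p : ℤ) ∣ ((W : ℤ) * t + (B i : ℕ)) * f.eval ((W : ℤ) * t + (B i : ℕ))) := by
    intro p t hp hpW
    rw [hCf]
    simp only
    rw [if_pos ⟨hp, hpW⟩]
    simp only [mem_biUnion, mem_univ, true_and, mem_filter, mem_range]
    constructor
    · rintro ⟨i, h1, h2⟩
      exact ⟨h1, i, h2⟩
    · rintro ⟨h1, i, h2⟩
      exact ⟨i, h1, h2⟩
  have hcardC : ∀ p, #(Cf p) ≤ k * (1 + f.natDegree) := by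
    intro p
    rw [hCf]
    simp only
    split_ifs with hp
    · refine card_biUnion_le.trans ?_
      refine (sum_le_sum fun i _ => card_roots_one f hp.1 hp.2 (hadm p hp.1)).trans ?_
      rw [sum_const, card_univ, Fintype.card_fin, smul_eq_mul]
    · simp
  obtain ⟨δ, hδ, hn⟩ := hmt A B W hstd (k * (1 + f.natDegree)) Cf
    (fun p hp c hc => by
      by_cases hpW : p ∣ W
      · rw [hCf] at hc
        simp only at hc
        rw [if_neg (fun hh => hh.2 hpW)] at hc
        exact absurd hc (notMem_empty _)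
      · exact ((hmemC p c hp hpW).1 hc).1)
    hcardC
    (fun p hp => by
      by_cases hpW : p ∣ W
      · rw [hCf]
        simp only
        rw [if_neg (fun hh => hh.2 hpW), card_empty]
        exact hp.pos
      · have hpD : D < p := by
          by_contra hlt
          exact hpW (hsmall p hp (not_lt.1 hlt))
        exact (hcardC p).trans_lt (by omega))
    (fun p hp hpW i => by
      have : Fact p.Prime := ⟨hp⟩
      have hW0 : (W : ZMod p) ≠ 0 := by
        rw [Ne, ZMod.natCast_eq_zero_iff]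
        exact hpW
      have hroot : p ∣ A i * (-(B i : ZMod p) / (W : ZMod p)).val + B i := by
        rw [← ZMod.natCast_eq_zero_iff, hA']
        push_cast
        rw [ZMod.natCast_zmod_val]
        field_simp
        ring
      refine ⟨(-(B i : ZMod p) / (W : ZMod p)).val, ?_, hroot⟩
      rw [hmemC p _ hp hpW]
      refine ⟨ZMod.val_lt _, i, Dvd.dvd.mul_right ?_ _⟩
      rw [hA'] at hroot
      exact_mod_cast hroot)
  have hkM : 1 ≤ k * M := Nat.mul_pos (by omega) hM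
  refine ⟨k * M - 1, ⌈2 / δ⌉₊ + 1, fun N => ?_⟩
  obtain ⟨n, hnN, hcount, hsift⟩ := hn (N + W + ν + k * M + 2)
  refine ⟨W * n + ν, ?_, ?_, ?_⟩
  · have : n ≤ W * n := Nat.le_mul_of_pos_left n hW
    show N ≤ W * n + ν
    omega
  · refine hcount.trans_le ?_
    refine card_le_card_of_injOn (fun i : Fin k => A i * n + B i) ?_ ?_
    · intro i hi
      rw [mem_coe, mem_filter] at hi
      rw [mem_coe, mem_filter, mem_Icc]
      refine ⟨⟨?_, ?_⟩, hi.2⟩
      · simp only [hA', hB']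
        omega
      · simp only [hA', hB']
        have h1 : (i : ℕ) * M < k * M := (Nat.mul_lt_mul_right hM).2 i.2
        omega
    · intro i _ j _ e
      simp only [hA', hB'] at e
      have h1 : (i : ℕ) * M = j * M := by omega
      exact Fin.ext (Nat.eq_of_mul_eq_mul_right hM h1)
  · intro p hp hpp q hq hqf
    rw [mem_Icc] at hp
    obtain ⟨h, hh⟩ : ∃ h, p = W * n + ν + h := ⟨p - (W * n + ν), by omega⟩
    have hhk : h < k * M := by omega
    have hMh : M ∣ h := by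
      by_contra hMh
      obtain ⟨q', hq', hqW, hqν⟩ := hkill h hhk hMh
      have h1 : q' ∣ p := by
        rw [hh, add_assoc]
        exact dvd_add (hqW.mul_right n) hqν
      have h2 := (Nat.prime_dvd_prime_iff_eq hq' hpp).1 h1
      have h3 := Nat.le_of_dvd hW hqW
      have h4 : W * 1 ≤ W * n := Nat.mul_le_mul_left W (by omega)
      omega
    obtain ⟨i, hi⟩ := hMh
    have hik : i < k := by
      rw [hi, mul_comm M i] at hhk
      exact lt_of_mul_lt_mul_right hhk (Nat.zero_le _)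
    have hpeq : p = W * n + (ν + i * M) := by rw [hh, hi]; ring
    have hpZ : (p : ℤ) = W * n + (ν + i * M : ℤ) := by rw [hpeq]; push_cast; ring
    have hqW : ¬ q ∣ W := by
      intro hqW
      refine hrough i hik q hq hqW (Dvd.dvd.mul_left ?_ _)
      have h1 : (q : ℤ) ∣ (p : ℤ) - ((ν : ℤ) + i * M) := by
        rw [hpZ, add_sub_cancel_right]
        exact (Int.natCast_dvd_natCast.2 hqW).mul_right _
      have h2 : (q : ℤ) ∣ f.eval (p : ℤ) - f.eval ((ν : ℤ) + i * M) :=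
        h1.trans (sub_dvd_eval_sub _ _ f)
      have h3 := dvd_sub hqf h2
      rwa [sub_sub_cancel] at h3
    have hqn : (n : ℝ) ^ δ < q := by
      by_contra hle
      push Not at hle
      refine hsift q hq hqW hle ?_
      rw [hmemC q _ hq hqW]
      refine ⟨Nat.mod_lt _ hq.pos, ⟨i, hik⟩, Dvd.dvd.mul_left ?_ _⟩
      have h1 : (q : ℤ) ∣ (p : ℤ) - ((W : ℤ) * ((n % q : ℕ) : ℤ) + (B ⟨i, hik⟩ : ℕ)) := by
        rw [hpZ, hB']
        have h2 : (q : ℤ) ∣ (n : ℤ) - ((n % q : ℕ) : ℤ) := by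
          rw [Int.natCast_mod]
          exact Int.dvd_self_sub_emod
        have h3 : (W : ℤ) * n + ((ν : ℤ) + i * M) - ((W : ℤ) * ((n % q : ℕ) : ℤ) +
            ((ν + i * M : ℕ) : ℤ)) = W * ((n : ℤ) - ((n % q : ℕ) : ℤ)) := by
          push_cast
          ring
        rw [h3]
        exact h2.mul_left _
      have h2 : (q : ℤ) ∣ f.eval (p : ℤ) -
          f.eval ((W : ℤ) * ((n % q : ℕ) : ℤ) + (B ⟨i, hik⟩ : ℕ)) :=
        h1.trans (sub_dvd_eval_sub _ _ f)
      have h3 := dvd_sub hqf h2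
      rwa [sub_sub_cancel] at h3
    -- size
    have hn2 : 2 ≤ n := by omega
    have hpn : p < n * n := by
      have h1 : p < W * n + ν + k * M := by omega
      have h2 : W * n + ν + k * M ≤ (W + ν + k * M) * n := by
        have h3 : ν ≤ ν * n := Nat.le_mul_of_pos_right _ (by omega)
        have h4 : k * M ≤ k * M * n := Nat.le_mul_of_pos_right _ (by omega)
        calc W * n + ν + k * M ≤ W * n + ν * n + k * M * n := by omega
          _ = _ := by ring
      have h3 : (W + ν + k * M) * n ≤ n * n := Nat.mul_le_mul_right n (by omega)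
      omega
    have hn1 : (1 : ℝ) ≤ n := by exact_mod_cast (by omega : 1 ≤ n)
    have hr2 : 2 ≤ δ * ((⌈2 / δ⌉₊ + 1 : ℕ) : ℝ) := by
      have h1 : 2 / δ ≤ ((⌈2 / δ⌉₊ + 1 : ℕ) : ℝ) := by
        push_cast
        exact (Nat.le_ceil _).trans (by linarith)
      rw [div_le_iff₀ hδ] at h1
      linarith
    have h5 : ((n * n : ℕ) : ℝ) ≤ ((q ^ (⌈2 / δ⌉₊ + 1) : ℕ) : ℝ) := by
      push_cast
      calc (n : ℝ) * n = (n : ℝ) ^ (2 : ℝ) := by
            rw [Real.rpow_two]; ring
        _ ≤ (n : ℝ) ^ (δ * ((⌈2 / δ⌉₊ + 1 : ℕ) : ℝ)) :=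
            Real.rpow_le_rpow_of_exponent_le hn1 hr2
        _ = ((n : ℝ) ^ δ) ^ (⌈2 / δ⌉₊ + 1) := by
            rw [Real.rpow_mul (by linarith), Real.rpow_natCast]
        _ ≤ (q : ℝ) ^ (⌈2 / δ⌉₊ + 1) :=
            pow_le_pow_left₀ (by positivity) hqn.le _
    have h6 : n * n ≤ q ^ (⌈2 / δ⌉₊ + 1) := by exact_mod_cast h5
    omega

/-- **Strings of consecutive primes with rough values of `f`.** -/
theorem nth_strings (f : ℤ[X]) (hf0 : ∀ e : ℤ, f.eval e ≠ 0)
    (hadm : ∀ p : ℕ, p.Prime → ∃ a : ℕ, ¬ (p : ℤ) ∣ (a : ℤ) * f.eval (a : ℤ)) (m : ℕ) :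
    ∃ C r : ℕ, ∀ J : ℕ, ∃ j ≥ J,
      Nat.nth Nat.Prime (j + m) ≤ Nat.nth Nat.Prime j + C ∧
      ∀ i ≤ m, ∀ q : ℕ, q.Prime → (q : ℤ) ∣ f.eval (Nat.nth Nat.Prime (j + i) : ℤ) →
        Nat.nth Nat.Prime (j + i) < q ^ r := by
  classical
  obtain ⟨C, r, hs⟩ := strings f hf0 hadm m
  refine ⟨C, r, fun J => ?_⟩
  have hinf := Nat.infinite_setOfPred_prime
  obtain ⟨x, hx, hcard, hrough⟩ := hs (Nat.nth Nat.Prime J)
  set j := Nat.count Nat.Prime x with hj
  have hjJ : J ≤ j := by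
    have h1 : Nat.count Nat.Prime (Nat.nth Nat.Prime J) = J := Nat.count_nth_of_infinite hinf J
    rw [← h1]
    exact Nat.count_monotone _ hx
  have hxj : x ≤ Nat.nth Nat.Prime j := Nat.le_nth_count hinf x
  have hcnt : j + m < Nat.count Nat.Prime (x + (C + 1)) := by
    rw [Nat.count_eq_card_filter_range] at hj ⊢
    have h1 : (range (x + (C + 1))).filter Nat.Prime
        = (range x).filter Nat.Prime ∪ (Icc x (x + C)).filter Nat.Prime := by
      ext p
      simp only [mem_filter, mem_range, mem_union, mem_Icc]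
      constructor
      · rintro ⟨h1, h2⟩
        by_cases h3 : p < x
        · exact Or.inl ⟨h3, h2⟩
        · exact Or.inr ⟨⟨by omega, by omega⟩, h2⟩
      · rintro (⟨h1, h2⟩ | ⟨h1, h2⟩)
        · exact ⟨by omega, h2⟩
        · exact ⟨by omega, h2⟩
    rw [h1, card_union_of_disjoint, hj]
    · exact Nat.add_lt_add_left hcard _
    · rw [disjoint_left]
      intro p hp hp'
      simp only [mem_filter, mem_range, mem_Icc] at hp hp'
      omega
  have hlast : Nat.nth Nat.Prime (j + m) < x + (C + 1) := Nat.nth_lt_of_lt_count hcnt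
  refine ⟨j, hjJ, by omega, ?_⟩
  intro i hi q hq hqf
  refine hrough _ ?_ (Nat.prime_nth_prime _) q hq hqf
  rw [mem_Icc]
  have h1 : Nat.nth Nat.Prime j ≤ Nat.nth Nat.Prime (j + i) :=
    (Nat.nth_le_nth hinf).2 (by omega)
  have h2 : Nat.nth Nat.Prime (j + i) ≤ Nat.nth Nat.Prime (j + m) :=
    (Nat.nth_le_nth hinf).2 (by omega)
  omega

end Pool.Agent.helper80.MTR
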