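import Pool.Agent.helper80.MTR.S2c

/-!
# The second sum: sieved lower bound over primes; comparison of the densities
-/

set_option autoImplicit false

namespace Pool.Agent.helper80.MTR

open Finset Real ArithmeticFunction Pool.Agent.helper39.MT Pool.Agent.Lib.BrunHooley

lemma final_three {C₂ : ℝ} (hC₂ : 0 < C₂) (c₁ : ℝ) (K : ℕ) : ∃ L₁ : ℝ, ∀ L : ℝ, L₁ ≤ L →
    c₁ / L ^ (K + 2) + Real.exp (-L / 8) + C₂ * Real.exp (-(9 / 50) * L) ≤ 1 / L ^ K := by
  obtain ⟨L₁, hL₁⟩ := final_two c₁ K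
  obtain ⟨L₂, hL₂⟩ := pow_le_exp_large (1 + C₂) 0 (δ := 1 / 40) (by norm_num)
  refine ⟨max 0 (max L₁ L₂), fun L hL => ?_⟩
  have h0 : 0 ≤ L := (le_max_left _ _).trans hL
  have h1 := hL₁ L (((le_max_left _ _).trans (le_max_right _ _)).trans hL)
  have h2 := hL₂ L (((le_max_right _ _).trans (le_max_right _ _)).trans hL)
  rw [pow_zero, mul_one] at h2
  have h3 : Real.exp (-(9 / 50) * L) ≤ Real.exp (-L / 8) := Real.exp_le_exp.2 (by linarith)
  have h4 : (1 + C₂) * Real.exp (-L / 8) ≤ Real.exp (-L / 10) := by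
    calc (1 + C₂) * Real.exp (-L / 8) ≤ Real.exp (1 / 40 * L) * Real.exp (-L / 8) :=
          mul_le_mul_of_nonneg_right h2 (Real.exp_pos _).le
      _ = Real.exp (-L / 10) := by rw [← Real.exp_add]; congr 1; ring
  have h5 := mul_le_mul_of_nonneg_left h3 hC₂.le
  linarith

/-- the sieved second sum -/
theorem S2_sieve (κ k : ℕ) (hκ : 1 ≤ κ) (K : ℕ) : ∃ B₀ C₀ : ℕ, ∀ {D₀ W : ℕ} {A B : Fin k → ℕ},
    Std k D₀ A B W → 4 * k + 4 ≤ D₀ → ∃ L₁ : ℝ, ∀ L : ℝ, L₁ ≤ L → Good C₀ L →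
    ∀ r : ℕ, (Z r : ℝ) ^ B₀ ≤ Real.exp (L / 240) → (Z r : ℝ) ≤ Real.exp (L / 240) →
    ∀ V : ℕ, W ∣ V → (∀ p : ℕ, p.Prime → p ≤ Z r → p ∣ V) → ∀ R : ℕ, 2 ≤ R →
      (R : ℝ) ≤ Real.exp (L / 200) →
      ∀ y : (PS V R → Option (Fin k)) → ℝ, (∀ σ, |y σ| ≤ 1) →
      (∀ σ, y σ ≠ 0 → dd (fun p : PS V R => (p : ℕ)) σ ≤ R) →
      ∀ C : ℕ → Finset ℕ, (∀ p, p.Prime → ∀ c ∈ C p, c < p) → (∀ p, #(C p) ≤ κ) →
        (∀ p, p.Prime → #(C p) < p) → (∀ p, p.Prime → p ∣ W → C p = ∅) →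
        (∀ p, p.Prime → ¬ p ∣ W → ∀ m, ∃ c ∈ C p, p ∣ A m * c + B m) → ∀ m : Fin k,
      (W : ℝ) / Nat.totient W * (L / 10) * Ex (fun p : PS V R => mu1 m (p : ℝ))
            (fun e => FF (fun p : PS V R => (p : ℕ)) y e ^ 2)
            * ∏ p ∈ Nat.primesLE (Z r), (1 - gm C (A m) (B m) p) - 1 / L ^ K
        ≤ ∑ n ∈ Ioc 0 (NN L 0) with (A m * n + B m).Prime,
          (wt L 0 n * Real.log (A m * n + B m) *
            FF (fun p : PS V R => (p : ℕ)) y (pat A B (PS V R) n) ^ 2)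
            * ∏ p ∈ Nat.primesLE (Z r), (1 - (if n % p ∈ C p then (1 : ℝ) else 0)) := by
  classical
  obtain ⟨B₀, C₀, hS⟩ := S2_sieveΛ κ k hκ K
  refine ⟨B₀, C₀, ?_⟩
  intro D₀ W A B h hD
  have h1 : ∀ m : Fin k, ∃ L₁ : ℝ, ∀ L : ℝ, L₁ ≤ L → Good C₀ L →
    ∀ r : ℕ, (Z r : ℝ) ^ B₀ ≤ Real.exp (L / 240) → (Z r : ℝ) ≤ Real.exp (L / 240) →
    ∀ V : ℕ, W ∣ V → (∀ p : ℕ, p.Prime → p ≤ Z r → p ∣ V) → ∀ R : ℕ, 2 ≤ R →
      (R : ℝ) ≤ Real.exp (L / 200) →
      ∀ y : (PS V R → Option (Fin k)) → ℝ, (∀ σ, |y σ| ≤ 1) →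
      (∀ σ, y σ ≠ 0 → dd (fun p : PS V R => (p : ℕ)) σ ≤ R) →
      ∀ C : ℕ → Finset ℕ, (∀ p, p.Prime → ∀ c ∈ C p, c < p) → (∀ p, #(C p) ≤ κ) →
        (∀ p, p.Prime → #(C p) < p) → (∀ p, p.Prime → p ∣ W → C p = ∅) →
        (∀ p, p.Prime → ¬ p ∣ W → ∀ m, ∃ c ∈ C p, p ∣ A m * c + B m) →
      (W : ℝ) / Nat.totient W * (L / 10) * Ex (fun p : PS V R => mu1 m (p : ℝ))
            (fun e => FF (fun p : PS V R => (p : ℕ)) y e ^ 2)
            * ∏ p ∈ Nat.primesLE (Z r), (1 - gm C (A m) (B m) p) - 1 / L ^ K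
        ≤ ∑ n ∈ Ioc 0 (NN L 0) with (A m * n + B m).Prime,
          (wt L 0 n * Real.log (A m * n + B m) *
            FF (fun p : PS V R => (p : ℕ)) y (pat A B (PS V R) n) ^ 2)
            * ∏ p ∈ Nat.primesLE (Z r), (1 - (if n % p ∈ C p then (1 : ℝ) else 0)) := by
    intro m
    obtain ⟨c₁, L₁, hL₁⟩ := hS h hD m
    obtain ⟨C₂, L₂, hC₂, hL₂⟩ := prime_powers (A m) (B m) (h.Apos m)
    obtain ⟨L₃, hL₃⟩ := final_three hC₂ c₁ K
    refine ⟨max 1 (max L₁ (max L₂ L₃)), ?_⟩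
    intro L hL hgood r hZ hZ1 V hWV hV R hR hRL y hy hyR C hC hCκ hCp hCW hCroot
    have hLr := (le_max_right _ _).trans hL
    have hLone : 1 ≤ L := (le_max_left _ _).trans hL
    have hLa : L₁ ≤ L := (le_max_left _ _).trans hLr
    have hLb : L₂ ≤ L := ((le_max_left _ _).trans (le_max_right _ _)).trans hLr
    have hLc := hL₃ L (((le_max_right _ _).trans (le_max_right _ _)).trans hLr)
    have hL0 : 0 < L := by linarith
    have hmain := hL₁ L hLa hgood r hZ hZ1 V hWV hV R hR hRL y hy hyR C hC hCκ hCp hCW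
      (fun p hp hpW => hCroot p hp hpW m)
    have hsmall : ∀ p : ℕ, p.Prime → p ≤ 4 * k + 4 → p ∣ V := fun p hp hle =>
      (h.small p hp (hle.trans hD)).trans hWV
    have hprod01 : ∀ n, 0 ≤ ∏ p ∈ Nat.primesLE (Z r),
        (1 - (if n % p ∈ Cm C (A m) (B m) p then (1 : ℝ) else 0)) ∧
        ∏ p ∈ Nat.primesLE (Z r),
        (1 - (if n % p ∈ Cm C (A m) (B m) p then (1 : ℝ) else 0)) ≤ 1 := by
      intro n
      constructor
      · exact prod_nonneg fun p _ => by split_ifs <;> norm_num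
      · exact prod_le_one (fun p _ => by split_ifs <;> norm_num)
          (fun p _ => by split_ifs <;> norm_num)
    have hsplit : ∑ n ∈ Ioc 0 (NN L 0),
          (wt L 0 n * vonMangoldt (A m * n + B m) *
            FF (fun p : PS V R => (p : ℕ)) y (pat A B (PS V R) n) ^ 2)
            * ∏ p ∈ Nat.primesLE (Z r),
              (1 - (if n % p ∈ Cm C (A m) (B m) p then (1 : ℝ) else 0))
        = (∑ n ∈ Ioc 0 (NN L 0) with (A m * n + B m).Prime,
          (wt L 0 n * Real.log (A m * n + B m) *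
            FF (fun p : PS V R => (p : ℕ)) y (pat A B (PS V R) n) ^ 2)
            * ∏ p ∈ Nat.primesLE (Z r), (1 - (if n % p ∈ C p then (1 : ℝ) else 0)))
          + ∑ n ∈ Ioc 0 (NN L 0) with ¬ (A m * n + B m).Prime,
          (wt L 0 n * vonMangoldt (A m * n + B m) *
            FF (fun p : PS V R => (p : ℕ)) y (pat A B (PS V R) n) ^ 2)
            * ∏ p ∈ Nat.primesLE (Z r),
              (1 - (if n % p ∈ Cm C (A m) (B m) p then (1 : ℝ) else 0)) := by
      rw [← sum_filter_add_sum_filter_not _ (fun n => (A m * n + B m).Prime)]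
      congr 1
      refine sum_congr rfl fun n hn => ?_
      rw [mem_filter, mem_Ioc] at hn
      have hΛ : vonMangoldt (A m * n + B m) = Real.log (A m * n + B m) := by
        rw [vonMangoldt_apply_prime hn.2]
        push_cast
        rfl
      rw [hΛ]
      by_cases hw : wt L 0 n = 0
      · rw [hw]; simp
      · obtain ⟨hn1, -⟩ := fi1_wt_support hL0 hn.1.1 hw
        have hzn : Z r < A m * n + B m := by
          have h2 : (Z r : ℝ) < n := by
            refine (hZ1.trans ?_).trans_lt hn1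
            exact Real.exp_le_exp.2 (by linarith)
          have h3 : Z r < n := by exact_mod_cast h2
          have h4 : n ≤ A m * n := Nat.le_mul_of_pos_left n (h.Apos m)
          omega
        congr 1
        refine prod_congr rfl fun p hp => ?_
        have hpp := Nat.mem_primesLE.1 hp
        have hnd : ¬ p ∣ A m * (n % p) + B m := by
          intro hd
          have h5 : A m * (n % p) + B m ≡ A m * n + B m [MOD p] :=
            Nat.ModEq.add_right _ (Nat.ModEq.mul_left _ (Nat.mod_modEq n p))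
          have h6 : p ∣ A m * n + B m := (Nat.ModEq.dvd_iff h5 dvd_rfl).1 hd
          have h7 := (Nat.prime_dvd_prime_iff_eq hpp.2 hn.2).1 h6
          omega
        have hiff : (n % p ∈ Cm C (A m) (B m) p) ↔ n % p ∈ C p := by
          rw [mem_Cm]
          exact ⟨fun hh => hh.1, fun hh => ⟨hh, hnd⟩⟩
        simp only [hiff]
    have hpp2 : ∑ n ∈ Ioc 0 (NN L 0) with ¬ (A m * n + B m).Prime,
          (wt L 0 n * vonMangoldt (A m * n + B m) *
            FF (fun p : PS V R => (p : ℕ)) y (pat A B (PS V R) n) ^ 2)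
            * ∏ p ∈ Nat.primesLE (Z r),
              (1 - (if n % p ∈ Cm C (A m) (B m) p then (1 : ℝ) else 0))
        ≤ C₂ * Real.exp (-(9 / 50) * L) := by
      calc _ ≤ ∑ n ∈ Ioc 0 (NN L 0) with ¬ (A m * n + B m).Prime,
            (R : ℝ) ^ 4 * (wt L 0 n * vonMangoldt (A m * n + B m)) := by
            refine sum_le_sum fun n _ => ?_
            have h2 : 0 ≤ wt L 0 n * vonMangoldt (A m * n + B m) :=
              mul_nonneg (wt_nonneg _ _ _) vonMangoldt_nonneg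
            have h3 := FF_crude k V R hsmall y hy hyR (pat A B (PS V R) n)
            refine (mul_le_of_le_one_right (mul_nonneg h2 (sq_nonneg _)) (hprod01 n).2).trans ?_
            rw [mul_comm ((R : ℝ) ^ 4)]
            exact mul_le_mul_of_nonneg_left h3 h2
        _ = (R : ℝ) ^ 4 * ∑ n ∈ Ioc 0 (NN L 0) with ¬ (A m * n + B m).Prime,
            wt L 0 n * vonMangoldt (A m * n + B m) := by rw [mul_sum]
        _ ≤ Real.exp (L / 200) ^ 4 * (C₂ * Real.exp (-L / 5)) := by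
            refine mul_le_mul (pow_le_pow_left₀ (Nat.cast_nonneg _) hRL 4) (hL₂ L hLb) ?_
              (by positivity)
            exact sum_nonneg fun n _ => mul_nonneg (wt_nonneg _ _ _) vonMangoldt_nonneg
        _ = C₂ * Real.exp (-(9 / 50) * L) := by
            rw [← Real.exp_nat_mul, mul_left_comm, ← Real.exp_add]
            congr 2
            push_cast
            ring
    rw [hsplit] at hmain
    linarith
  choose L₁ hL₁ using h1
  obtain ⟨M, hM⟩ := (Set.finite_range L₁).bddAbove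
  refine ⟨M, ?_⟩
  intro L hL hg r hZ hZ1 V hWV hV R hR hRL y hy hyR C hC hCκ hCp hCW hCroot m
  exact hL₁ m L ((hM ⟨m, rfl⟩).trans hL) hg r hZ hZ1 V hWV hV R hR hRL y hy hyR C hC hCκ hCp hCW
    hCroot

/-- comparison of the densities of the two sums -/
lemma dens_compare {W z : ℕ} (hW : 0 < W) (C : ℕ → Finset ℕ) (a b : ℕ)
    (hCp : ∀ p, p.Prime → #(C p) < p) (hCW : ∀ p, p.Prime → p ∣ W → C p = ∅)
    (hCroot : ∀ p, p.Prime → ¬ p ∣ W → ∃ c ∈ C p, p ∣ a * c + b) :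
    (((W * ∏ p ∈ Nat.primesLE z, p : ℕ) : ℝ) / Nat.totient (W * ∏ p ∈ Nat.primesLE z, p)) *
        ∏ p ∈ Nat.primesLE z, (1 - (#(C p) : ℝ) / p)
      ≤ (W : ℝ) / Nat.totient W * ∏ p ∈ Nat.primesLE z, (1 - gm C a b p) := by
  classical
  set T := Nat.primesLE z \ W.primeFactors with hT
  have hprime : ∀ p ∈ Nat.primesLE z, p.Prime := primesLE_prime z
  have hT' : ∀ p ∈ T, p.Prime ∧ ¬ p ∣ W := by
    intro p hp
    rw [hT, mem_sdiff, Nat.mem_primeFactors] at hp
    exact ⟨hprime p hp.1, fun hd => hp.2 ⟨hprime p hp.1, hd, hW.ne'⟩⟩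
  have hVpos : 0 < W * ∏ p ∈ Nat.primesLE z, p :=
    Nat.mul_pos hW (prod_pos fun p hp => (hprime p hp).pos)
  have hpf : (W * ∏ p ∈ Nat.primesLE z, p).primeFactors = W.primeFactors ∪ T := by
    rw [Nat.primeFactors_mul hW.ne' (prod_pos fun p hp => (hprime p hp).pos).ne',
      Nat.primeFactors_prod hprime, hT, union_sdiff_self_eq_union]
  have hdisj : Disjoint W.primeFactors T := by
    rw [hT]
    exact disjoint_sdiff
  have key : ∀ n : ℕ, 0 < n → (n : ℝ) / Nat.totient n = ∏ p ∈ n.primeFactors,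
      (1 - (p : ℝ)⁻¹)⁻¹ := by
    intro n hn
    have h1 := totient_prod hn
    have h2 : (0 : ℝ) < Nat.totient n := by exact_mod_cast Nat.totient_pos.2 hn
    have h3 : (0 : ℝ) < n := by exact_mod_cast hn
    obtain ⟨Q, hQ⟩ : ∃ Q : ℝ, Q = ∏ p ∈ n.primeFactors, (1 - (p : ℝ)⁻¹)⁻¹ := ⟨_, rfl⟩
    rw [← hQ] at h1 ⊢
    rw [div_mul_eq_mul_div, div_eq_iff h3.ne', one_mul] at h1
    rw [div_eq_iff h2.ne', ← h1, mul_comm]
  rw [key _ hVpos, key _ hW, hpf, prod_union hdisj, mul_assoc]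
  have h1 : ∏ p ∈ Nat.primesLE z, (1 - (#(C p) : ℝ) / p) = ∏ p ∈ T, (1 - (#(C p) : ℝ) / p) := by
    symm
    refine prod_subset (sdiff_subset) fun p hp hpT => ?_
    have hpW : p ∣ W := by
      by_contra hcon
      refine hpT ?_
      rw [hT, mem_sdiff, Nat.mem_primeFactors]
      exact ⟨hp, fun hh => hcon hh.2.1⟩
    rw [hCW p (hprime p hp) hpW]
    simp
  have h2 : ∏ p ∈ Nat.primesLE z, (1 - gm C a b p) = ∏ p ∈ T, (1 - gm C a b p) := by
    symm
    refine prod_subset (sdiff_subset) fun p hp hpT => ?_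
    have hpW : p ∣ W := by
      by_contra hcon
      refine hpT ?_
      rw [hT, mem_sdiff, Nat.mem_primeFactors]
      exact ⟨hp, fun hh => hcon hh.2.1⟩
    have h3 : Cm C a b p = ∅ := by
      rw [← card_eq_zero]
      have := card_Cm_le C a b p
      rw [hCW p (hprime p hp) hpW, card_empty] at this
      omega
    unfold gm
    rw [if_pos (hprime p hp), h3]
    simp
  rw [h1, h2, ← prod_mul_distrib]
  refine mul_le_mul_of_nonneg_left ?_ (prod_nonneg fun p hp => ?_)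
  · refine prod_le_prod (fun p hp => ?_) (fun p hp => ?_)
    · have hpp := (hT' p hp).1
      have hp1 : (1 : ℝ) < p := by exact_mod_cast hpp.one_lt
      have h5 : (#(C p) : ℝ) ≤ p := by exact_mod_cast (hCp p hpp).le
      refine mul_nonneg (inv_nonneg.2 ?_) ?_
      · rw [sub_nonneg]
        exact inv_le_one_of_one_le₀ hp1.le
      · rw [sub_nonneg, div_le_one (by linarith)]
        exact h5
    · obtain ⟨hpp, hpW⟩ := hT' p hp
      have hp1 : (1 : ℝ) < p := by exact_mod_cast hpp.one_lt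
      obtain ⟨c, hc, hcd⟩ := hCroot p hpp hpW
      have h6 : #(Cm C a b p) < #(C p) := by
        refine card_lt_card ⟨filter_subset _ _, fun hsub => ?_⟩
        exact (mem_Cm.1 (hsub hc)).2 hcd
      have h7 : (#(Cm C a b p) : ℝ) + 1 ≤ #(C p) := by exact_mod_cast h6
      unfold gm
      rw [if_pos hpp]
      have h8 : (1 - (p : ℝ)⁻¹)⁻¹ = p / (p - 1) := by
        have : (p : ℝ) ≠ 0 := by linarith
        have h9 : (p : ℝ) - 1 ≠ 0 := by linarith
        field_simp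
      have h10 : (p : ℝ) / (p - 1) * (1 - (#(C p) : ℝ) / p) = (p - #(C p)) / (p - 1) := by
        have : (p : ℝ) ≠ 0 := by linarith
        field_simp
      have h11 : 1 - (#(Cm C a b p) : ℝ) / ((p : ℝ) - 1)
          = (p - 1 - #(Cm C a b p)) / (p - 1) := by
        have h9 : (p : ℝ) - 1 ≠ 0 := by linarith
        field_simp
      rw [h8, h10, h11]
      exact div_le_div_of_nonneg_right (by linarith) (by linarith)
  · have hpp := Nat.prime_of_mem_primeFactors hp
    have hp1 : (1 : ℝ) < p := by exact_mod_cast hpp.one_lt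
    rw [inv_nonneg, sub_nonneg]
    exact inv_le_one_of_one_le₀ hp1.le

end Pool.Agent.helper80.MTR
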