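import Pool.Agent.helper80.MTR.Model
import Pool.Agent.helper80.MTR.S2d

/-!
# Maynard-Tao with forbidden residue classes
-/

set_option autoImplicit false

namespace Pool.Agent.helper80.MTR

open Finset Real ArithmeticFunction Pool.Agent.helper39.MT Pool.Agent.Lib.BrunHooley

lemma exists_level {B' : ℕ} (hB : 1 ≤ B') {x : ℝ} (hx : (2 : ℝ) ^ B' ≤ x) :
    ∃ ρ : ℕ, (Z ρ : ℝ) ^ B' ≤ x ∧ x < (Z (ρ + 1) : ℝ) ^ B' := by
  classical
  have hex : ∃ ρ : ℕ, x < (Z (ρ + 1) : ℝ) ^ B' := by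
    obtain ⟨n, hn⟩ := exists_nat_gt x
    refine ⟨n, hn.trans_le ?_⟩
    have h1 : n ≤ Z (n + 1) := by
      unfold Z
      have h2 : n < 2 ^ n := Nat.lt_two_pow_self
      have h3 : 2 ^ n ≤ 2 ^ 2 ^ (n + 1) := by
        refine Nat.pow_le_pow_right (by norm_num) ?_
        have h4 : n + 1 < 2 ^ (n + 1) := Nat.lt_two_pow_self
        omega
      omega
    have h2 : (n : ℝ) ≤ Z (n + 1) := by exact_mod_cast h1
    have h3 : (1 : ℝ) ≤ Z (n + 1) := by exact_mod_cast Z_pos (n + 1)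
    exact h2.trans (le_self_pow₀ h3 (by omega))
  refine ⟨Nat.find hex, ?_, Nat.find_spec hex⟩
  rcases Nat.eq_zero_or_pos (Nat.find hex) with h0 | h0
  · rw [h0]
    have : Z 0 = 2 := by norm_num [Z]
    rw [this]
    exact_mod_cast hx
  · have h1 := Nat.find_min hex (Nat.sub_lt h0 one_pos)
    have h2 : Nat.find hex - 1 + 1 = Nat.find hex := by omega
    rw [not_lt, h2] at h1
    exact h1

/-- the crude lower bound for the density -/
lemma dens_lower {c0 L V0 : ℝ} {κ ρ : ℕ} (hc0 : 0 < c0) (hL : 1 ≤ L)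
    (hZ : (Z ρ : ℝ) ≤ Real.exp (L / 240))
    (h : c0 * Real.exp (-(4 * κ * (ρ + 1))) ≤ V0) : c0 / L ^ (8 * κ) ≤ V0 := by
  refine le_trans ?_ h
  have hL0 : 0 < L := by linarith
  have h2 : (2 : ℝ) ^ ρ * Real.log 2 ≤ L / 240 := by
    have h3 := Real.log_le_log (by exact_mod_cast Z_pos ρ) hZ
    rw [Real.log_exp] at h3
    unfold Z at h3
    push_cast at h3
    rw [Real.log_pow] at h3
    push_cast at h3
    exact h3
  have h3 := Real.log_two_gt_d9
  have h4 : (2 : ℝ) ^ (ρ + 1) ≤ L := by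
    rw [pow_succ]
    have h5 : (0 : ℝ) < 2 ^ ρ := by positivity
    nlinarith
  have h5 : Real.exp ((ρ : ℝ) + 1) ≤ L ^ 2 := by
    have h6 : Real.exp 1 ≤ 4 := by
      have := Real.exp_one_lt_d9
      linarith
    calc Real.exp ((ρ : ℝ) + 1) = Real.exp 1 ^ (ρ + 1) := by
          rw [← Real.exp_nat_mul]; congr 1; push_cast; ring
      _ ≤ 4 ^ (ρ + 1) := pow_le_pow_left₀ (Real.exp_pos _).le h6 _
      _ = (2 ^ (ρ + 1)) ^ 2 := by rw [← pow_mul, mul_comm, pow_mul]; norm_num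
      _ ≤ L ^ 2 := pow_le_pow_left₀ (by positivity) h4 2
  have h6 : Real.exp (4 * κ * (ρ + 1)) ≤ L ^ (8 * κ) := by
    calc Real.exp (4 * κ * (ρ + 1)) = Real.exp ((ρ : ℝ) + 1) ^ (4 * κ) := by
          rw [← Real.exp_nat_mul]; congr 1; push_cast; ring
      _ ≤ (L ^ 2) ^ (4 * κ) := pow_le_pow_left₀ (Real.exp_pos _).le h5 _
      _ = L ^ (8 * κ) := by rw [← pow_mul]; congr 1; ring
  rw [Real.exp_neg, div_eq_mul_inv]
  exact mul_le_mul_of_nonneg_left (inv_anti₀ (Real.exp_pos _) h6) hc0.le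

lemma final_contra {L V0 E0 Q U c0 k r : ℝ} {K : ℕ} (hL : 1 ≤ L)
    (hV0 : 0 ≤ V0) (hE0 : 0 ≤ E0)
    (hlow : L / 10 * V0 * Q - k / L ^ K ≤ U)
    (hup : U ≤ 2 * r * L * (2 * (L * E0) * V0 + Real.exp (-L / 4)))
    (hQ1 : 80 * (r + 1) * L * E0 ≤ Q) (hQ2 : 1 / 4 ≤ Q) (hV : c0 / L ^ K ≤ V0)
    (hlarge : 2 * r * L ^ (K + 1) * Real.exp (-L / 4) + k < c0 * L / 80) : False := by
  have hL0 : 0 < L := by linarith
  have hLK : 0 < L ^ K := by positivity
  have h1 : L / 20 * V0 * (80 * (r + 1) * L * E0) ≤ L / 20 * V0 * Q :=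
    mul_le_mul_of_nonneg_left hQ1 (by positivity)
  have h2 : L / 20 * V0 * (1 / 4) ≤ L / 20 * V0 * Q :=
    mul_le_mul_of_nonneg_left hQ2 (by positivity)
  have h3 : 0 ≤ L * E0 * V0 * L := by positivity
  have h4 : L / 80 * V0 ≤ 2 * r * L * Real.exp (-L / 4) + k / L ^ K := by
    nlinarith
  have h5 : L / 80 * (c0 / L ^ K) ≤ L / 80 * V0 := mul_le_mul_of_nonneg_left hV (by positivity)
  have h6 : L / 80 * (c0 / L ^ K) * L ^ K
      ≤ (2 * r * L * Real.exp (-L / 4) + k / L ^ K) * L ^ K :=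
    mul_le_mul_of_nonneg_right (h5.trans h4) hLK.le
  have h7 : L / 80 * (c0 / L ^ K) * L ^ K = c0 * L / 80 := by field_simp
  have h8 : (2 * r * L * Real.exp (-L / 4) + k / L ^ K) * L ^ K
      = 2 * r * L ^ (K + 1) * Real.exp (-L / 4) + k := by
    rw [pow_succ]; field_simp
  linarith

/-- **Maynard-Tao with forbidden residue classes**, from the existence of good scales. -/
theorem mt_forbidden_of (good_scales : ∀ C₀ : ℕ, ∀ N : ℕ, ∃ L : ℕ, N ≤ L ∧ Good C₀ L) (r : ℕ) :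
    ∃ k D₀ : ℕ, 2 ≤ k ∧ ∀ (A B : Fin k → ℕ) (W : ℕ), Std k D₀ A B W →
    ∀ (κ : ℕ) (C : ℕ → Finset ℕ), (∀ p, p.Prime → ∀ c ∈ C p, c < p) → (∀ p, #(C p) ≤ κ) →
      (∀ p, p.Prime → #(C p) < p) →
      (∀ p, p.Prime → ¬ p ∣ W → ∀ m, ∃ c ∈ C p, p ∣ A m * c + B m) →
    ∃ δ : ℝ, 0 < δ ∧ ∀ N : ℕ, ∃ n ≥ N, r < #{i : Fin k | (A i * n + B i).Prime} ∧
      ∀ p : ℕ, p.Prime → ¬ p ∣ W → (p : ℝ) ≤ (n : ℝ) ^ δ → n % p ∉ C p := by
  classical
  obtain ⟨k, D₁, c, hc, hk, hmodel⟩ := model_unif (24000 * (r + 1))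
  refine ⟨k, max D₁ (4 * k + 4), hk, fun A B W h κ₀ Cf hC hCκ hCp hCroot => ?_⟩
  have hD : 4 * k + 4 ≤ max D₁ (4 * k + 4) := le_max_right _ _
  obtain ⟨κ, hκdef⟩ : ∃ κ, κ = max κ₀ 1 := ⟨_, rfl⟩
  have hκ : 1 ≤ κ := hκdef ▸ le_max_right _ _
  -- the residue classes
  obtain ⟨C, hCdef⟩ : ∃ C : ℕ → Finset ℕ, C = fun p => if p ∣ W then ∅ else Cf p := ⟨_, rfl⟩
  have hCW : ∀ p, p ∣ W → C p = ∅ := fun p hp => by rw [hCdef]; simp [hp]
  have hCnW : ∀ p, ¬ p ∣ W → C p = Cf p := fun p hp => by rw [hCdef]; simp [hp]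
  have hCsub : ∀ p, C p ⊆ Cf p := by
    intro p
    by_cases hp : p ∣ W
    · rw [hCW p hp]; exact empty_subset _
    · rw [hCnW p hp]
  have hC' : ∀ p, p.Prime → ∀ c ∈ C p, c < p := fun p hp c hc => hC p hp c (hCsub p hc)
  have hCκ' : ∀ p, #(C p) ≤ κ := fun p =>
    (card_le_card (hCsub p)).trans ((hCκ p).trans (hκdef ▸ le_max_left _ _))
  have hCp' : ∀ p, p.Prime → #(C p) < p := fun p hp =>
    (card_le_card (hCsub p)).trans_lt (hCp p hp)
  have hCroot' : ∀ p, p.Prime → ¬ p ∣ W → ∀ m, ∃ c ∈ C p, p ∣ A m * c + B m := by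
    intro p hp hpW m
    rw [hCnW p hpW]
    exact hCroot p hp hpW m
  obtain ⟨B1, L₁, hS1⟩ := S1_sieve κ k
  obtain ⟨B2, C₀, hS2⟩ := S2_sieve κ k hκ (8 * κ)
  obtain ⟨L₂, hS2⟩ := hS2 h hD
  obtain ⟨c0, hc0, hlow⟩ := prod_lower κ
  obtain ⟨L₃, hL₃⟩ := pow_le_exp_large (2 * r) (8 * κ + 1) (δ := 1 / 4) (by norm_num)
  obtain ⟨B', hB'⟩ : ∃ B' : ℕ, B' = max B1 B2 + ⌈4 / c⌉₊ + 1 := ⟨_, rfl⟩
  have hB'1 : 1 ≤ B' := by omega
  have hB'0 : (0 : ℝ) < B' := by exact_mod_cast hB'1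
  have hBc : 4 ≤ c * B' := by
    have h1 : 4 / c ≤ B' := by
      refine (Nat.le_ceil _).trans ?_
      exact_mod_cast (by omega : ⌈4 / c⌉₊ ≤ B')
    rw [div_le_iff₀ hc] at h1
    linarith
  refine ⟨1 / (480 * B'), by positivity, fun N => ?_⟩
  by_contra hcon
  push Not at hcon
  -- choice of the scale
  set AB : ℕ := ∑ i, (A i + B i) with hAB
  obtain ⟨T, hT⟩ : ∃ T : ℝ, T = |L₁| + |L₂| + |L₃| + 500 / c * (1 + Real.log W) +
      240 * B' + 2 * Real.log (N + 1) + Real.log (AB + 1) + 1000 + 80 * (k + 2) / c0 := ⟨_, rfl⟩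
  obtain ⟨L', hL'N, hgood⟩ := good_scales C₀ ⌈T⌉₊
  obtain ⟨L, hLdef⟩ : ∃ L : ℝ, L = (L' : ℝ) := ⟨_, rfl⟩
  rw [← hLdef] at hgood
  have hTL : T ≤ L := (Nat.le_ceil T).trans (by rw [hLdef]; exact_mod_cast hL'N)
  have e1 := abs_nonneg L₁
  have e2 := abs_nonneg L₂
  have e2' := abs_nonneg L₃
  have hW1 : (1 : ℝ) ≤ W := by exact_mod_cast h.Wpos
  have e3 : 0 ≤ 500 / c * (1 + Real.log W) := by
    have := Real.log_nonneg hW1
    positivity
  have e4 : 0 ≤ Real.log ((N : ℝ) + 1) := Real.log_nonneg (by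
    have : (0 : ℝ) ≤ N := Nat.cast_nonneg _
    linarith)
  have e5 : 0 ≤ Real.log ((AB : ℝ) + 1) := Real.log_nonneg (by
    have : (0 : ℝ) ≤ AB := Nat.cast_nonneg _
    linarith)
  have e6 : (0 : ℝ) ≤ k := Nat.cast_nonneg _
  have e7 : 0 ≤ 80 * ((k : ℝ) + 2) / c0 := by positivity
  have hL1 : L₁ ≤ L := by linarith [le_abs_self L₁]
  have hL2 : L₂ ≤ L := by linarith [le_abs_self L₂]
  have hL3 := hL₃ L (by linarith [le_abs_self L₃])
  have hL1000 : 1000 ≤ L := by linarith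
  have hLpos : 0 < L := by linarith
  -- the parameter R
  set R : ℕ := ⌊Real.exp (L / 200)⌋₊ with hRdef
  have hRle : (R : ℝ) ≤ Real.exp (L / 200) := Nat.floor_le (Real.exp_pos _).le
  have hR2 : 2 ≤ R := by
    refine Nat.le_floor ?_
    have := Real.add_one_le_exp (L / 200)
    push_cast
    linarith
  have hlogR : L / 300 ≤ Real.log R := by
    have h1 : Real.exp (L / 200) / 2 ≤ R := by
      have h2 := Nat.lt_floor_add_one (Real.exp (L / 200))
      have h3 : (2 : ℝ) ≤ R := by exact_mod_cast hR2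
      have h4 : Real.exp (L / 200) < (R : ℝ) + 1 := h2
      linarith
    have h2 := Real.log_le_log (by positivity) h1
    rw [Real.log_div (Real.exp_pos _).ne' two_ne_zero, Real.log_exp] at h2
    have h3 := Real.log_two_lt_d9
    linarith
  -- the level
  obtain ⟨ρ, hρ1, hρ2⟩ := exists_level (x := Real.exp (L / 240)) hB'1 (by
    have h1 : (2 : ℝ) ≤ Real.exp 1 := by
      have := Real.add_one_le_exp 1
      linarith
    calc (2 : ℝ) ^ B' ≤ Real.exp 1 ^ B' := pow_le_pow_left₀ (by norm_num) h1 _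
      _ = Real.exp B' := by rw [← Real.exp_nat_mul, mul_one]
      _ ≤ Real.exp (L / 240) := Real.exp_le_exp.2 (by linarith))
  have hZ1 : (1 : ℝ) ≤ Z ρ := by exact_mod_cast Z_pos ρ
  have hZa : (Z ρ : ℝ) ^ B1 ≤ Real.exp (L / 240) :=
    (pow_le_pow_right₀ hZ1 (by omega)).trans hρ1
  have hZb : (Z ρ : ℝ) ^ B2 ≤ Real.exp (L / 240) :=
    (pow_le_pow_right₀ hZ1 (by omega)).trans hρ1
  have hZc : (Z ρ : ℝ) ≤ Real.exp (L / 240) :=
    (le_self_pow₀ hZ1 (by omega)).trans hρ1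
  have hlogZ : B' * Real.log (Z ρ) ≤ L / 240 := by
    have h1 := Real.log_le_log (by positivity) hρ1
    rwa [Real.log_pow, Real.log_exp] at h1
  have hlogZ0 : 0 ≤ Real.log (Z ρ) := Real.log_nonneg hZ1
  -- the modulus
  set V : ℕ := W * ∏ p ∈ Nat.primesLE (Z ρ), p with hV
  have hVpos : 0 < V := Nat.mul_pos h.Wpos (prod_pos fun p hp => (primesLE_prime _ p hp).pos)
  have hWV : W ∣ V := Dvd.intro _ rfl
  have hVz : ∀ p : ℕ, p.Prime → p ≤ Z ρ → p ∣ V := fun p hp hle =>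
    (dvd_prod_of_mem (fun p => p) (Nat.mem_primesLE.2 ⟨hle, hp⟩)).mul_left W
  have hVY : ∀ p : ℕ, p.Prime → p ∣ V → p ≤ W * Z ρ := by
    intro p hp hpV
    rcases (Nat.Prime.dvd_mul hp).1 hpV with h1 | h1
    · exact (Nat.le_of_dvd h.Wpos h1).trans (Nat.le_mul_of_pos_right _ (Z_pos ρ))
    · obtain ⟨q, hq, hpq⟩ := (Prime.dvd_finsetProd_iff hp.prime _).1 h1
      have h2 := Nat.mem_primesLE.1 hq
      have h3 : p = q := (Nat.prime_dvd_prime_iff_eq hp h2.2).1 hpq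
      rw [h3]
      exact h2.1.trans (Nat.le_mul_of_pos_left _ h.Wpos)
  have hcond : 1 + Real.log ((W * Z ρ : ℕ) : ℝ) ≤ c * Real.log R := by
    push_cast
    rw [Real.log_mul (by linarith) (by linarith)]
    have h1 : c * (L / 300) ≤ c * Real.log R := mul_le_mul_of_nonneg_left hlogR hc.le
    have h2 : 4 * Real.log (Z ρ) ≤ c * (L / 240) := by
      calc 4 * Real.log (Z ρ) ≤ (c * B') * Real.log (Z ρ) :=
            mul_le_mul_of_nonneg_right hBc hlogZ0
        _ = c * (B' * Real.log (Z ρ)) := by ring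
        _ ≤ c * (L / 240) := mul_le_mul_of_nonneg_left hlogZ hc.le
    have h3 : 1 + Real.log W ≤ c * (L / 500) := by
      have h4 : 500 / c * (1 + Real.log W) ≤ L := by linarith
      rw [div_mul_eq_mul_div, div_le_iff₀ hc] at h4
      linarith
    have h5 : 0 < c * L := mul_pos hc hLpos
    linarith only [h1, h2, h3, h5]
  obtain ⟨y, hy1, hy2, hE1, hE01⟩ := hmodel V (W * Z ρ) hVpos (Nat.mul_pos h.Wpos (Z_pos ρ))
    (fun p hp hpd => (h.small p hp (hpd.trans (le_max_left _ _))).trans hWV) hVY R hcond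
  have hE0 := fi1_Ex_nonneg (R := R) (W := V) hD
    (fun p hp hpd => (h.small p hp hpd).trans hWV) y
  obtain ⟨E0, hE0def⟩ : ∃ E0, E0 = Ex (fun p : PS V R => mu0 (p : ℝ))
    (fun e => FF (fun p : PS V R => (p : ℕ)) y e ^ 2) := ⟨_, rfl⟩
  obtain ⟨E1f, hE1f⟩ : ∃ E1f : Fin k → ℝ, E1f = fun m => Ex (fun p : PS V R => mu1 m (p : ℝ))
    (fun e => FF (fun p : PS V R => (p : ℕ)) y e ^ 2) := ⟨_, rfl⟩
  have hE1f' : ∀ m, Ex (fun p : PS V R => mu1 m (p : ℝ))
    (fun e => FF (fun p : PS V R => (p : ℕ)) y e ^ 2) = E1f m := fun m => by rw [hE1f]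
  simp only [hE1f', ← hE0def] at hE1 hE01 hE0
  have hs1 := hS1 L hL1 h hD ρ hZa V hWV hVz R hR2 hRle y hy1 hy2 C hC' hCκ' hCp'
  have hs2 := hS2 L hL2 hgood ρ hZb hZc V hWV hVz R hR2 hRle y hy1 hy2 C hC' hCκ' hCp'
    (fun p _ hp => hCW p hp) hCroot'
  simp only [hE1f'] at hs2
  rw [← hE0def] at hs1
  obtain ⟨V0, hV0⟩ : ∃ V0 : ℝ, V0 = ∏ p ∈ Nat.primesLE (Z ρ), (1 - (#(C p) : ℝ) / p) := ⟨_, rfl⟩
  rw [← hV0] at hs1
  have hV0pos : 0 ≤ V0 := by
    rw [hV0]
    refine prod_nonneg fun p hp => ?_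
    have hpp := primesLE_prime _ p hp
    rw [sub_nonneg, div_le_one (by exact_mod_cast hpp.pos)]
    exact_mod_cast (hCp' p hpp).le
  have hV0low : c0 / L ^ (8 * κ) ≤ V0 := by
    have h1 := hlow ρ (fun p => #(C p)) hCκ' hCp'
    rw [← hV0] at h1
    exact dens_lower hc0 (by linarith) hZc h1
  obtain ⟨F, hF⟩ : ∃ F : ℕ → ℝ, F = fun n => FF (fun p : PS V R => (p : ℕ)) y
    (pat A B (PS V R) n) ^ 2 := ⟨_, rfl⟩
  have hF' : ∀ n, FF (fun p : PS V R => (p : ℕ)) y (pat A B (PS V R) n) ^ 2 = F n :=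
    fun n => by rw [hF]
  have hF0 : ∀ n, 0 ≤ F n := fun n => by rw [hF]; exact sq_nonneg _
  simp only [hF'] at hs1 hs2
  obtain ⟨Sv, hSv⟩ : ∃ Sv : ℕ → ℝ, Sv = fun n => ∏ p ∈ Nat.primesLE (Z ρ),
    (1 - (if n % p ∈ C p then (1 : ℝ) else 0)) := ⟨_, rfl⟩
  have hSv' : ∀ n, ∏ p ∈ Nat.primesLE (Z ρ), (1 - (if n % p ∈ C p then (1 : ℝ) else 0)) = Sv n :=
    fun n => by rw [hSv]
  have hSv0 : ∀ n, 0 ≤ Sv n := fun n => by
    rw [hSv]
    exact prod_nonneg fun p _ => by split_ifs <;> norm_num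
  simp only [hSv'] at hs1 hs2
  -- upper bound for the sum of the S2
  have hup : ∑ m : Fin k, ∑ n ∈ Ioc 0 (NN L 0) with (A m * n + B m).Prime,
      wt L 0 n * Real.log (A m * n + B m) * F n * Sv n
        ≤ 2 * r * L * ∑ n ∈ Ioc 0 (NN L 0), wt L 0 n * F n * Sv n := by
    clear hs1 hs2 hS1 hS2 hmodel hE1 hE01 hE0 hlow good_scales hgood hcond hV0low hV0pos hVz hVY
      hlogR hE1f' hE0def hE1f hF' hSv' hZa hZb hZc hlogZ hL₃ hL3 hR2 hRle hBc hCroot hCroot'
      hy1 hy2 hV0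
    simp_rw [sum_filter]
    rw [sum_comm, mul_sum]
    refine sum_le_sum fun n hn => ?_
    rw [mem_Ioc] at hn
    rcases eq_or_ne (wt L 0 n) 0 with h0 | h0
    · simp [h0]
    rcases eq_or_ne (Sv n) 0 with h0' | h0'
    · simp [h0']
    obtain ⟨hn1, hn2⟩ := fi1_wt_support hLpos hn.1 h0
    have hNn : N ≤ n := by
      have h1 : (N : ℝ) + 1 ≤ Real.exp (L / 2) := by
        rw [← Real.exp_log (show (0 : ℝ) < (N : ℝ) + 1 by positivity)]
        exact Real.exp_le_exp.2 (by linarith)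
      have h2 : (N : ℝ) < n := by linarith
      exact_mod_cast h2.le
    have hsift : ∀ p : ℕ, p.Prime → ¬ p ∣ W → (p : ℝ) ≤ (n : ℝ) ^ (1 / (480 * (B' : ℝ))) →
        n % p ∉ Cf p := by
      intro p hp hpW hpn hmem
      have h1 : (n : ℝ) ^ (1 / (480 * (B' : ℝ))) ≤ Z ρ := by
        have h2 : (n : ℝ) ^ (1 / (480 * (B' : ℝ))) ≤ Real.exp L ^ (1 / (480 * (B' : ℝ))) :=
          Real.rpow_le_rpow (Nat.cast_nonneg _) hn2.le (by positivity)
        refine h2.trans ?_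
        rw [← Real.exp_mul]
        have h3 : Real.exp (L / 240) < (Z ρ : ℝ) ^ (2 * B') := by
          have h4 := hρ2
          rw [Z_succ] at h4
          push_cast at h4
          rw [two_mul, pow_add, ← mul_pow]
          exact h4
        have h4 : (Real.exp (L * (1 / (480 * (B' : ℝ))))) ^ (2 * B') = Real.exp (L / 240) := by
          rw [← Real.exp_nat_mul]
          congr 1
          push_cast
          field_simp
          norm_num
        rw [← h4] at h3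
        exact (lt_of_pow_lt_pow_left₀ _ (by positivity) h3).le
      have h2 : p ≤ Z ρ := by exact_mod_cast hpn.trans h1
      refine h0' ?_
      rw [hSv]
      refine prod_eq_zero (Nat.mem_primesLE.2 ⟨h2, hp⟩) ?_
      rw [if_pos (by rw [hCnW p hpW]; exact hmem)]
      norm_num
    have hcard : #{i : Fin k | (A i * n + B i).Prime} ≤ r := by
      by_contra hlt
      push Not at hlt
      obtain ⟨p, hp, hpW, hpn, hmem⟩ := hcon n hNn hlt
      exact hsift p hp hpW hpn hmem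
    have hlog : ∀ m : Fin k, Real.log ((A m : ℝ) * n + B m) ≤ 2 * L := by
      intro m
      have hn1' : (1 : ℝ) ≤ n := by exact_mod_cast hn.1
      have hA : (0 : ℝ) < A m := by exact_mod_cast h.Apos m
      have hB : (0 : ℝ) < B m := by exact_mod_cast h.Bpos m
      have h1 : ((A m : ℝ) * n + B m) ≤ (AB + 1) * Real.exp L := by
        have h2 : (A m : ℝ) + B m ≤ AB := by
          rw [hAB]
          push_cast
          exact single_le_sum (f := fun i => (A i : ℝ) + B i) (fun i _ => by positivity) (mem_univ m)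
        have h3 : (B m : ℝ) ≤ B m * n := le_mul_of_one_le_right hB.le hn1'
        calc (A m : ℝ) * n + B m ≤ A m * n + B m * n := by linarith
          _ = (A m + B m) * n := by ring
          _ ≤ (AB + 1) * Real.exp L := by
            have : (0 : ℝ) ≤ AB := Nat.cast_nonneg _
            exact mul_le_mul (by linarith) hn2.le (by linarith) (by linarith)
      calc Real.log ((A m : ℝ) * n + B m) ≤ Real.log ((AB + 1) * Real.exp L) :=
            Real.log_le_log (by positivity) h1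
        _ = Real.log (AB + 1) + L := by
            rw [Real.log_mul (by positivity) (Real.exp_pos _).ne', Real.log_exp]
        _ ≤ 2 * L := by linarith
    have hw : 0 ≤ wt L 0 n := wt_nonneg _ _ _
    have hFn := hF0 n
    have hSvn := hSv0 n
    calc ∑ m : Fin k, (if (A m * n + B m).Prime then
          wt L 0 n * Real.log (A m * n + B m) * F n * Sv n else 0)
        ≤ ∑ m : Fin k, (if (A m * n + B m).Prime then wt L 0 n * (2 * L) * F n * Sv n else 0) := by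
          refine sum_le_sum fun m _ => ?_
          split_ifs
          · have := hlog m
            gcongr
          · exact le_rfl
      _ = #{i : Fin k | (A i * n + B i).Prime} * (wt L 0 n * (2 * L) * F n * Sv n) := by
          rw [← sum_filter, sum_const, nsmul_eq_mul]
      _ ≤ r * (wt L 0 n * (2 * L) * F n * Sv n) := by
          have h5 : ((#{i : Fin k | (A i * n + B i).Prime} : ℕ) : ℝ) ≤ r := by exact_mod_cast hcard
          gcongr
      _ = 2 * r * L * (wt L 0 n * F n * Sv n) := by ring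
  -- lower bound
  clear hcon hρ2 hSv0 hF0 hS1 hS2 hmodel hlow hgood hBc hR2 hRle
  have hφ : 0 < (Nat.totient V : ℝ) := by exact_mod_cast Nat.totient_pos.2 hVpos
  have hV0' : 0 < (V : ℝ) := by exact_mod_cast hVpos
  have hWφ : 1 ≤ (V : ℝ) / Nat.totient V := by
    rw [le_div_iff₀ hφ, one_mul]
    exact_mod_cast Nat.totient_le V
  have hE1fpos : ∀ m, 0 ≤ E1f m := by
    intro m
    rw [← hE1f' m]
    refine TR11b.Ex_nonneg (fun p e => ?_) (fun e => sq_nonneg _)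
    have hpr : 4 * k + 4 ≤ (p : ℕ) := by
      by_contra hcon'
      exact (mem_PS.1 p.2).2.2 ((h.small p (mem_PS.1 p.2).2.1 (by omega)).trans hWV)
    have h1 : ((4 * k + 4 : ℕ) : ℝ) ≤ ((p : ℕ) : ℝ) := by exact_mod_cast hpr
    push_cast at h1
    exact TR11b.mu1_nonneg m (by linarith) (by linarith) e
  have hlow2 : L / 10 * V0 * ((V : ℝ) / Nat.totient V * ∑ m, E1f m) - k / L ^ (8 * κ) ≤
      ∑ m : Fin k, ∑ n ∈ Ioc 0 (NN L 0) with (A m * n + B m).Prime,
      wt L 0 n * Real.log (A m * n + B m) * F n * Sv n := by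
    have h1 : ∀ m : Fin k, L / 10 * V0 * ((V : ℝ) / Nat.totient V * E1f m) - 1 / L ^ (8 * κ) ≤
        ∑ n ∈ Ioc 0 (NN L 0) with (A m * n + B m).Prime,
        wt L 0 n * Real.log (A m * n + B m) * F n * Sv n := by
      intro m
      refine le_trans (sub_le_sub_right ?_ _) (hs2 m)
      have h2 := dens_compare (z := Z ρ) h.Wpos C (A m) (B m) hCp' (fun p _ hp => hCW p hp)
        (fun p hp hpW => hCroot' p hp hpW m)
      rw [← hV0, ← hV] at h2
      have h3 := hE1fpos m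
      calc L / 10 * V0 * ((V : ℝ) / Nat.totient V * E1f m)
          = L / 10 * E1f m * ((V : ℝ) / Nat.totient V * V0) := by ring
        _ ≤ L / 10 * E1f m * ((W : ℝ) / Nat.totient W *
            ∏ p ∈ Nat.primesLE (Z ρ), (1 - gm C (A m) (B m) p)) :=
            mul_le_mul_of_nonneg_left h2 (by positivity)
        _ = _ := by ring
    refine le_trans (le_of_eq ?_) (sum_le_sum fun m _ => h1 m)
    rw [sum_sub_distrib, ← mul_sum, ← mul_sum, sum_const, card_univ, Fintype.card_fin, nsmul_eq_mul]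
    ring
  have hr0 : (0 : ℝ) ≤ r := Nat.cast_nonneg _
  have hQ1 : 80 * (r + 1) * L * E0 ≤ (V : ℝ) / Nat.totient V * ∑ m, E1f m := by
    have h2 : 24000 * ((r : ℝ) + 1) * Real.log R * E0 ≤ (V : ℝ) / Nat.totient V * ∑ m, E1f m := by
      calc 24000 * ((r : ℝ) + 1) * Real.log R * E0
          = (V : ℝ) / Nat.totient V *
            (24000 * ((r : ℝ) + 1) * Real.log R * ((Nat.totient V : ℝ) / V) * E0) := by
            field_simp
        _ ≤ _ := by gcongr
    refine le_trans ?_ h2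
    have : 24000 * ((r : ℝ) + 1) * (L / 300) * E0 ≤ 24000 * ((r : ℝ) + 1) * Real.log R * E0 := by
      gcongr
    linarith
  have hQ2 : 1 / 4 ≤ (V : ℝ) / Nat.totient V * ∑ m, E1f m := by
    have : ∑ m, E1f m ≤ (V : ℝ) / Nat.totient V * ∑ m, E1f m :=
      le_mul_of_one_le_left (by linarith) hWφ
    linarith
  have hup' : ∑ m : Fin k, ∑ n ∈ Ioc 0 (NN L 0) with (A m * n + B m).Prime,
      wt L 0 n * Real.log (A m * n + B m) * F n * Sv n
      ≤ 2 * r * L * (2 * (L * E0) * V0 + Real.exp (-L / 4)) :=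
    hup.trans (mul_le_mul_of_nonneg_left hs1 (by positivity))
  have hlarge : 2 * r * L ^ (8 * κ + 1) * Real.exp (-L / 4) + k < c0 * L / 80 := by
    have h1 : 2 * r * L ^ (8 * κ + 1) * Real.exp (-L / 4) ≤ 1 := by
      calc 2 * r * L ^ (8 * κ + 1) * Real.exp (-L / 4)
          ≤ Real.exp (1 / 4 * L) * Real.exp (-L / 4) :=
            mul_le_mul_of_nonneg_right hL3 (Real.exp_pos _).le
        _ = 1 := by rw [← Real.exp_add]; simp; ring
    have h2 : 80 * ((k : ℝ) + 2) / c0 ≤ L := by linarith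
    rw [div_le_iff₀ hc0] at h2
    linarith
  exact final_contra (by linarith) hV0pos hE0 hlow2 hup' hQ1 hQ2 hV0low hlarge

end Pool.Agent.helper80.MTR
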