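import Pool.Agent.helper14.MT.SAB
import Pool.Agent.helper22.MT.SC
import Pool.Agent.helper22.MT.GJ
import Pool.Agent.helper22.MT.SC3
import Pool.Agent.helper22.MT.SD2
import Pool.Agent.helper44.MT.SD1

/-!
# The model inequality of the Maynard-Tao sieve, uniform in the modulus

The proofs follow Pool.Agent.helper14.MT.Model and Pool.Agent.helper22.MT.SC; the only change is that
the threshold depends only on the largest prime factor of the modulus.
-/

set_option autoImplicit false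

namespace Pool.Agent.helper80.MTR

open Finset Pool.Agent.helper39.MT Pool.Agent

/-- the upper bound for `HP`, uniform in the modulus. -/
theorem HP_upperU {W Y : ℕ} (hW : 0 < W) (hY : 0 < Y) (hWY : ∀ p : ℕ, p.Prime → p ∣ W → p ≤ Y)
    {x : ℝ} (hx : 1 + Real.log Y ≤ x) (R : ℕ) :
    HP (PS W R) x ≤ CHP * ((Nat.totient W : ℝ) / W) * x := by
  classical
  set N := ⌊Real.exp x⌋₊ with hN
  have hW1 : (1 : ℝ) ≤ Y := by exact_mod_cast hY
  have hlW : 0 ≤ Real.log Y := Real.log_nonneg hW1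
  have hexp : 2 * (Y : ℝ) ≤ Real.exp x := by
    calc 2 * (Y : ℝ) ≤ Real.exp 1 * Y := by
          have := Real.add_one_le_exp 1
          nlinarith
      _ = Real.exp (1 + Real.log Y) := by rw [Real.exp_add, Real.exp_log (by linarith)]
      _ ≤ Real.exp x := Real.exp_le_exp.2 hx
  have hNW : 2 * Y ≤ N := by
    rw [hN]
    exact Nat.le_floor (by push_cast; exact hexp)
  have hN2 : 2 ≤ N := by omega
  have hlogN : Real.log N ≤ x := by
    rw [Real.log_le_iff_le_exp (by exact_mod_cast (by omega : 0 < N))]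
    exact Nat.floor_le (Real.exp_pos x).le
  -- step 1
  have h1 : HP (PS W R) x ≤ ∏ p ∈ PS W N, (1 + 1 / ((p : ℝ) - 1)) := by
    rw [prod_one_add, HP]
    refine sum_le_sum_of_subset_of_nonneg ?_ ?_
    · intro S hS
      rw [mem_filter, mem_powerset] at hS
      rw [mem_powerset]
      intro p hp
      have hpR := mem_PS.1 (hS.1 hp)
      rw [mem_PS]
      refine ⟨?_, hpR.2⟩
      have h2 : Real.log (p : ℝ) ≤ x := by
        refine le_trans ?_ hS.2
        refine single_le_sum (f := fun q : ℕ => Real.log (q : ℝ)) (fun q hq => ?_) hp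
        exact Real.log_nonneg (by exact_mod_cast (mem_PS.1 (hS.1 hq)).2.1.one_le)
      rw [hN]
      refine Nat.le_floor ?_
      rwa [← Real.log_le_iff_le_exp (by exact_mod_cast hpR.2.1.pos)]
    · intro S hS _
      exact qprod_nonneg PS_prime (mem_powerset.1 hS)
  -- step 2
  set Q := ∏ p ∈ W.primeFactors, (1 - (p : ℝ)⁻¹)⁻¹ with hQ
  have hQ0 : 0 < Q := by
    refine prod_pos fun p hp => ?_
    have hpp := Nat.prime_of_mem_primeFactors hp
    rw [inv_pos, sub_pos]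
    exact inv_lt_one_of_one_lt₀ (by exact_mod_cast hpp.one_lt)
  have h2 : (∏ p ∈ PS W N, (1 + 1 / ((p : ℝ) - 1))) * Q
      = ∏ p ∈ Nat.primesLE N, (1 + 1 / ((p : ℝ) - 1)) := by
    have hQ' : Q = ∏ p ∈ W.primeFactors, (1 + 1 / ((p : ℝ) - 1)) := by
      refine prod_congr rfl fun p hp => ?_
      have hpp := Nat.prime_of_mem_primeFactors hp
      have h1 : (1 : ℝ) < p := by exact_mod_cast hpp.one_lt
      have h0 : (p : ℝ) ≠ 0 := by linarith
      have h2 : (p : ℝ) - 1 ≠ 0 := by linarith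
      rw [inv_eq_one_div, inv_eq_one_div]
      rw [show (1 : ℝ) - 1 / p = (p - 1) / p by field_simp]
      field_simp
      ring
    rw [hQ', ← prod_union]
    · refine prod_congr ?_ fun _ _ => rfl
      ext p
      rw [mem_union, mem_PS, Nat.mem_primeFactors, Nat.mem_primesLE]
      constructor
      · rintro (⟨h1, h2, _⟩ | ⟨h1, h2, _⟩)
        · exact ⟨h1, h2⟩
        · have := hWY p h1 h2
          exact ⟨by omega, h1⟩
      · rintro ⟨h1, h2⟩
        by_cases hd : p ∣ W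
        · right; exact ⟨h2, hd, hW.ne'⟩
        · left; exact ⟨h1, h2, hd⟩
    · rw [disjoint_left]
      intro p hp hp'
      exact (mem_PS.1 hp).2.2 (Nat.dvd_of_mem_primeFactors hp')
  have h3 := euler_upper N hN2
  have h4 : HP (PS W R) x * Q ≤ CHP * x := by
    calc HP (PS W R) x * Q ≤ (∏ p ∈ PS W N, (1 + 1 / ((p : ℝ) - 1))) * Q :=
          mul_le_mul_of_nonneg_right h1 hQ0.le
      _ ≤ CHP * Real.log N := by rw [h2]; exact h3
      _ ≤ CHP * x := mul_le_mul_of_nonneg_left hlogN (zero_le_one.trans one_le_CHP)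
  have h5 := totient_prod hW
  rw [← hQ] at h5
  calc HP (PS W R) x = ((Nat.totient W : ℝ) / W) * (HP (PS W R) x * Q) := by
        linear_combination (-HP (PS W R) x) * h5
    _ ≤ ((Nat.totient W : ℝ) / W) * (CHP * x) := mul_le_mul_of_nonneg_left h4 (by positivity)
    _ = _ := by ring

/-- the dyadic sums, with explicit threshold -/
theorem dyadic_sumsU {C₁ : ℝ} (hC₁ : 1 ≤ C₁) {W : ℕ} (hW : 0 < W) {x₀ : ℝ}
    (hup : ∀ x : ℝ, x₀ ≤ x → ∀ R : ℕ, HP (PS W R) x ≤ C₁ * ((Nat.totient W : ℝ) / W) * x) (J : ℕ) :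
    ∀ θ : ℝ, max x₀ 1 ≤ θ → ∀ R : ℕ, 2 ^ J * θ ≤ Real.log R →
      ((Nat.totient W : ℝ) / W) * θ * (J + 2) / 2 ≤ SS (qP (P := PS W R)) (gP J θ) ∧
      3 / 4 * (((Nat.totient W : ℝ) / W) * θ)
        ≤ SS (qP (P := PS W R)) (fun S => gP J θ S ^ 2) ∧
      SS (qP (P := PS W R)) (fun S => gP J θ S ^ 2) ≤ 2 * C₁ * (((Nat.totient W : ℝ) / W) * θ) ∧
      SS (qP (P := PS W R)) (fun S => gP J θ S ^ 2 * ∑ p ∈ S, lP p)
        ≤ (J + 1) * C₁ * (((Nat.totient W : ℝ) / W) * θ ^ 2) := by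
  intro θ hθ' R hR
  have hθ : x₀ ≤ θ := (le_max_left _ _).trans hθ'
  have hθ1 : 1 ≤ θ := (le_max_right _ _).trans hθ'
  have hθ0 : 0 ≤ θ := by linarith
  have hκ : 0 ≤ (Nat.totient W : ℝ) / W := by positivity
  have hC0 : 0 ≤ C₁ := zero_le_one.trans hC₁
  have hscale : ∀ j ∈ range (J + 1), x₀ ≤ 2 ^ j * θ ∧ 0 ≤ 2 ^ j * θ
      ∧ 2 ^ j * θ ≤ Real.log R := by
    intro j hj
    rw [mem_range] at hj
    have h1 : (1 : ℝ) ≤ 2 ^ j := one_le_pow₀ (by norm_num)
    have h2 : (2 : ℝ) ^ j ≤ 2 ^ J := pow_le_pow_right₀ (by norm_num) (by omega)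
    refine ⟨?_, by positivity, ?_⟩ <;> nlinarith
  have hlow : ∀ j ∈ range (J + 1), (Nat.totient W : ℝ) / W * (2 ^ j * θ) ≤ HP (PS W R) (2 ^ j * θ) :=
    fun j hj => HP_lower hW (hscale j hj).2.1 (hscale j hj).2.2
  have hupp : ∀ j ∈ range (J + 1),
      HP (PS W R) (2 ^ j * θ) ≤ C₁ * ((Nat.totient W : ℝ) / W) * (2 ^ j * θ) :=
    fun j hj => hup _ (hscale j hj).1 R
  refine ⟨?_, ?_, ?_, ?_⟩
  · rw [alpha_eq, mul_div_assoc, ← sum_cJ_two, mul_sum]
    refine sum_le_sum fun j hj => ?_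
    calc (Nat.totient W : ℝ) / W * θ * (cJ J j * 2 ^ j)
        = cJ J j * ((Nat.totient W : ℝ) / W * (2 ^ j * θ)) := by ring
      _ ≤ _ := mul_le_mul_of_nonneg_left (hlow j hj) (cJ_nonneg J j)
  · rw [beta_eq J hθ0]
    have h0 : (0 : ℕ) ∈ range (J + 1) := by simp
    have h1 : cJ' J 0 * HP (PS W R) (2 ^ 0 * θ)
        ≤ ∑ j ∈ range (J + 1), cJ' J j * HP (PS W R) (2 ^ j * θ) :=
      single_le_sum (f := fun j => cJ' J j * HP (PS W R) (2 ^ j * θ))
        (fun j _ => mul_nonneg (cJ'_nonneg J j) (HP_nonneg PS_prime _)) h0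
    refine le_trans ?_ h1
    have h2 : 3 / 4 ≤ cJ' J 0 := by
      rw [cJ']; split_ifs with h
      · norm_num
      · have : J = 0 := by omega
        rw [this]; norm_num
    have h3 := hlow 0 h0
    rw [pow_zero, one_mul] at h3 ⊢
    have h4 : 0 ≤ (Nat.totient W : ℝ) / W * θ := by positivity
    exact mul_le_mul h2 h3 h4 (cJ'_nonneg J 0)
  · rw [beta_eq J hθ0]
    calc ∑ j ∈ range (J + 1), cJ' J j * HP (PS W R) (2 ^ j * θ)
        ≤ ∑ j ∈ range (J + 1), (C₁ * ((Nat.totient W : ℝ) / W * θ)) * (cJ' J j * 2 ^ j) := by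
          refine sum_le_sum fun j hj => ?_
          calc cJ' J j * HP (PS W R) (2 ^ j * θ)
              ≤ cJ' J j * (C₁ * ((Nat.totient W : ℝ) / W) * (2 ^ j * θ)) :=
                mul_le_mul_of_nonneg_left (hupp j hj) (cJ'_nonneg J j)
            _ = _ := by ring
      _ = (C₁ * ((Nat.totient W : ℝ) / W * θ)) * ∑ j ∈ range (J + 1), cJ' J j * 2 ^ j := by
          rw [mul_sum]
      _ ≤ (C₁ * ((Nat.totient W : ℝ) / W * θ)) * 2 :=
          mul_le_mul_of_nonneg_left (sum_cJ'_two J) (by positivity)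
      _ = _ := by ring
  · have h1 : ∀ S : Finset (PS W R), (gP J θ S ^ 2 * ∑ p ∈ S, lP p) * ∏ p ∈ S, qP p
        ≤ (∑ j ∈ range (J + 1), if ∑ p ∈ S, lP p ≤ 2 ^ j * θ then cJ' J j * (2 ^ j * θ) else 0)
          * ∏ p ∈ S, qP p := by
      intro S
      refine mul_le_mul_of_nonneg_right ?_ (prod_nonneg fun p _ => qP_nonneg p)
      rw [gP, gJ_sq J hθ0, sum_mul]
      refine sum_le_sum fun j _ => ?_
      split_ifs with h
      · exact mul_le_mul_of_nonneg_left h (cJ'_nonneg J j)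
      · rw [zero_mul]
    have h2 : SS (qP (P := PS W R)) (fun S => gP J θ S ^ 2 * ∑ p ∈ S, lP p)
        ≤ SS (qP (P := PS W R)) (fun S => ∑ j ∈ range (J + 1),
          if ∑ p ∈ S, lP p ≤ 2 ^ j * θ then cJ' J j * (2 ^ j * θ) else 0) :=
      sum_le_sum fun S _ => h1 S
    refine h2.trans ?_
    rw [sum_step (J + 1) (fun j => cJ' J j * (2 ^ j * θ)) (fun j => 2 ^ j * θ)]
    calc ∑ j ∈ range (J + 1), cJ' J j * (2 ^ j * θ) * HP (PS W R) (2 ^ j * θ)
        ≤ ∑ j ∈ range (J + 1), (C₁ * ((Nat.totient W : ℝ) / W * θ ^ 2)) * (cJ' J j * 4 ^ j) := by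
          refine sum_le_sum fun j hj => ?_
          calc cJ' J j * (2 ^ j * θ) * HP (PS W R) (2 ^ j * θ)
              ≤ cJ' J j * (2 ^ j * θ) * (C₁ * ((Nat.totient W : ℝ) / W) * (2 ^ j * θ)) :=
                mul_le_mul_of_nonneg_left (hupp j hj)
                  (mul_nonneg (cJ'_nonneg J j) (hscale j hj).2.1)
            _ = _ := by
                have : (4 : ℝ) ^ j = 2 ^ j * 2 ^ j := by rw [← mul_pow]; norm_num
                rw [this]; ring
      _ = (C₁ * ((Nat.totient W : ℝ) / W * θ ^ 2)) * ∑ j ∈ range (J + 1), cJ' J j * 4 ^ j := by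
          rw [mul_sum]
      _ ≤ (C₁ * ((Nat.totient W : ℝ) / W * θ ^ 2)) * (J + 1) :=
          mul_le_mul_of_nonneg_left (sum_cJ'_four J) (by positivity)
      _ = _ := by ring

/-! ### the sum of `1/(p-1)^2` -/

private theorem sum_sq_Ioc {D R : ℕ} (hD : 2 ≤ D) (hR : D ≤ R) :
    ∑ n ∈ Ioc D R, (1 / ((n : ℝ) - 1)) ^ 2 ≤ 1 / ((D : ℝ) - 1) - 1 / ((R : ℝ) - 1) := by
  induction R, hR using Nat.le_induction with
  | base => simp
  | succ R hR ih =>
    rw [← Finset.insert_Ioc_right_eq_Ioc_add_one (by omega), sum_insert (by simp)]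
    have hR2 : (2 : ℝ) ≤ R := by exact_mod_cast hD.trans hR
    have h1 : (1 / (((R + 1 : ℕ) : ℝ) - 1)) ^ 2 ≤ 1 / ((R : ℝ) - 1) - 1 / (((R + 1 : ℕ) : ℝ) - 1) := by
      push_cast
      rw [add_sub_cancel_right, div_sub_div _ _ (by linarith) (by linarith), one_div, inv_pow,
        ← one_div, div_le_div_iff₀ (by positivity) (by nlinarith)]
      nlinarith
    linarith

private theorem SF_eta_le {W R D : ℕ} (hD : 2 ≤ D) (hW : ∀ p : ℕ, p.Prime → p ≤ D → p ∣ W) :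
    ∑ p : PS W R, (qP p) ^ 2 ≤ 2 / D := by
  have h1 : ∑ p : PS W R, (qP p) ^ 2 = ∑ p ∈ PS W R, (1 / ((p : ℝ) - 1)) ^ 2 := by
    rw [← Finset.sum_coe_sort (PS W R) (fun p : ℕ => (1 / ((p : ℝ) - 1)) ^ 2)]
    rfl
  rw [h1]
  have hD2 : (2 : ℝ) ≤ D := by exact_mod_cast hD
  rcases le_or_gt D R with hR | hR
  · have hsub : PS W R ⊆ Ioc D R := by
      intro p hp
      rw [mem_PS] at hp
      rw [mem_Ioc]
      refine ⟨?_, hp.1⟩
      by_contra hcon
      exact hp.2.2 (hW p hp.2.1 (not_lt.1 hcon))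
    have hR2 : (2 : ℝ) ≤ R := by exact_mod_cast hD.trans hR
    have h2 := (sum_le_sum_of_subset_of_nonneg hsub
      (fun (i : ℕ) _ _ => sq_nonneg (1 / ((i : ℝ) - 1)))).trans (sum_sq_Ioc hD hR)
    have h3 : 0 ≤ 1 / ((R : ℝ) - 1) := by
      apply div_nonneg zero_le_one; linarith
    have h4 : 1 / ((D : ℝ) - 1) ≤ 2 / D := by
      rw [div_le_div_iff₀ (by linarith) (by linarith)]
      linarith
    linarith
  · have hemp : PS W R = ∅ := by
      rw [eq_empty_iff_forall_notMem]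
      intro p hp
      rw [mem_PS] at hp
      exact hp.2.2 (hW p hp.2.1 (by omega))
    rw [hemp, sum_empty]
    positivity

/-! ### properties of the weights -/

private theorem supp_dd {P : Finset ℕ} (hP : ∀ p ∈ P, p.Prime) {k : ℕ} (σ : P → Option (Fin k))
    {R : ℕ} (hR : 0 < R) (h : ∑ p ∈ supp σ, lP p ≤ Real.log R) :
    dd (fun p : P => (p : ℕ)) σ ≤ R := by
  have h1 : (0 : ℝ) < dd (fun p : P => (p : ℕ)) σ := by
    rw [dd]
    exact_mod_cast prod_pos fun p _ => by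
      split_ifs
      · exact one_pos
      · exact (hP p p.2).pos
  have h2 : Real.log (dd (fun p : P => (p : ℕ)) σ) = ∑ p ∈ supp σ, lP p := by
    rw [dd, Nat.cast_prod, Real.log_prod]
    · rw [supp, sum_filter]
      refine sum_congr rfl fun p _ => ?_
      by_cases hp : σ p = none
      · simp [hp]
      · simp [hp, lP]
    · intro p _
      split_ifs
      · simp
      · exact_mod_cast (hP p p.2).ne_zero
  rw [← h2, Real.log_le_log_iff h1 (by exact_mod_cast hR)] at h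
  exact_mod_cast h

private theorem SF_lP_nonneg {P : Finset ℕ} (p : P) : 0 ≤ lP p := Real.log_natCast_nonneg _

private theorem SF_gP_nonneg {P : Finset ℕ} {J : ℕ} {θ : ℝ} (S : Finset P) : 0 ≤ gP J θ S := gJ_nonneg _

private theorem SF_gP_le_one {P : Finset ℕ} {J : ℕ} {θ : ℝ} (S : Finset P) : gP J θ S ≤ 1 :=
  gJ_le_one _

private theorem SF_gP_anti {P : Finset ℕ} {J : ℕ} {θ : ℝ} (S : Finset P) (p : P) (hp : p ∉ S) :
    gP J θ (insert p S) ≤ gP J θ S := by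
  apply gJ_anti
  rw [sum_insert hp]
  linarith [SF_lP_nonneg p]

private theorem SF_gP_sq_anti {P : Finset ℕ} {J : ℕ} {θ : ℝ} (S : Finset P) (p : P) (hp : p ∉ S) :
    gP J θ (insert p S) ^ 2 ≤ gP J θ S ^ 2 :=
  pow_le_pow_left₀ (SF_gP_nonneg _) (SF_gP_anti S p hp) 2

private theorem SF_one_le_SS {ι : Type*} [Fintype ι] [DecidableEq ι] {w : ι → ℝ} (hw : ∀ p, 0 ≤ w p)
    {f : Finset ι → ℝ} (hf : ∀ S, 0 ≤ f S) (hf0 : f ∅ = 1) : 1 ≤ SS w f := by
  have h := single_le_sum (f := fun S : Finset ι => f S * ∏ p ∈ S, w p)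
    (fun S _ => mul_nonneg (hf S) (prod_nonneg fun p _ => hw p)) (mem_univ ∅)
  simpa [SS, hf0] using h

private theorem SF_SS_mono {ι : Type*} [Fintype ι] [DecidableEq ι] {w w' : ι → ℝ}
    (hw : ∀ p, 0 ≤ w p) (hww : ∀ p, w p ≤ w' p)
    {f : Finset ι → ℝ} (hf : ∀ S, 0 ≤ f S) : SS w f ≤ SS w' f := by
  refine sum_le_sum fun S _ => mul_le_mul_of_nonneg_left ?_ (hf S)
  exact prod_le_prod (fun p _ => hw p) (fun p _ => hww p)

private theorem SF_prod_one_sub {ι : Type*} (s : Finset ι) {x : ι → ℝ} (h0 : ∀ p ∈ s, 0 ≤ x p)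
    (h1 : ∀ p ∈ s, x p ≤ 1) : 1 - ∑ p ∈ s, x p ≤ ∏ p ∈ s, (1 - x p) := by
  classical
  induction s using Finset.induction_on with
  | empty => simp
  | insert a s ha ih =>
    rw [sum_insert ha, prod_insert ha]
    have h2 := ih (fun p hp => h0 p (mem_insert_of_mem hp)) (fun p hp => h1 p (mem_insert_of_mem hp))
    have h3 : 0 ≤ ∑ p ∈ s, x p := sum_nonneg fun p hp => h0 p (mem_insert_of_mem hp)
    have h4 := h0 a (mem_insert_self a s)
    have h5 := h1 a (mem_insert_self a s)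
    nlinarith

/-! ### the upper bound for `Ex mu0` -/

private theorem Ex_mu0_nonneg {P : Finset ℕ} {k : ℕ} (hP : ∀ p ∈ P, (k : ℝ) ≤ p ∧ 0 < p)
    (y : (P → Option (Fin k)) → ℝ) :
    0 ≤ Ex (fun p : P => mu0 (p : ℝ)) (fun e => FF (fun p : P => (p : ℕ)) y e ^ 2) := by
  refine sum_nonneg fun e _ => mul_nonneg (prod_nonneg fun p _ => ?_) (sq_nonneg _)
  have h := hP p p.2
  have h0 : (0 : ℝ) < (p : ℕ) := by exact_mod_cast h.2
  cases e p with
  | none =>
    simp only [mu0]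
    rw [sub_nonneg, div_le_one h0]
    exact h.1
  | some i =>
    simp only [mu0]
    positivity

private theorem upper_final {P : Finset ℕ} {k : ℕ} (hP : ∀ p ∈ P, 2 * (k : ℝ) + 2 ≤ p) (J : ℕ)
    (θ Λ : ℝ) :
    Ex (fun p : P => mu0 (p : ℝ)) (fun e => FF (fun p : P => (p : ℕ))
        (yy (k := k) lP Λ (gP J θ)) e ^ 2)
      ≤ (Real.exp (∑ p : P, qP p ^ 2) * SS (qP (P := P)) (fun S => gP J θ S ^ 2)) ^ k := by
  have hk0 : (0 : ℝ) ≤ k := Nat.cast_nonneg k
  have hq : ∀ p : P, 0 ≤ qP p := by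
    intro p
    have := hP p p.2
    unfold qP
    exact div_nonneg zero_le_one (by linarith)
  have hg2 : ∀ S : Finset P, 0 ≤ gP J θ S ^ 2 := fun S => sq_nonneg _
  refine (form_upper (fun p : P => (p : ℕ)) (fun p => hP p p.2) _).trans ?_
  have hb : ∀ p : P, ((p : ℕ) : ℝ) / (((p : ℕ) : ℝ) - 1) ^ 2 = qP p * (1 + qP p) := by
    intro p
    have := hP p p.2
    have h1 : ((p : ℕ) : ℝ) - 1 ≠ 0 := by linarith
    unfold qP
    field_simp
    ring
  have hb0 : ∀ p : P, 0 ≤ qP p * (1 + qP p) := fun p => mul_nonneg (hq p) (by linarith [hq p])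
  calc ∑ σ : P → Option (Fin k),
          (∏ p, (if σ p = none then 1 else ((p : ℕ) : ℝ) / (((p : ℕ) : ℝ) - 1) ^ 2))
            * yy lP Λ (gP J θ) σ ^ 2
      ≤ ∑ σ : P → Option (Fin k), (∏ p, (if σ p = none then 1 else qP p * (1 + qP p)))
          * ∏ i, gP J θ (cls σ i) ^ 2 := by
        refine sum_le_sum fun σ _ => ?_
        have h1 : (∏ p, (if σ p = none then 1 else ((p : ℕ) : ℝ) / (((p : ℕ) : ℝ) - 1) ^ 2))
            = ∏ p, (if σ p = none then 1 else qP p * (1 + qP p)) :=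
          prod_congr rfl fun p _ => by rw [hb]
        rw [h1]
        refine mul_le_mul_of_nonneg_left ?_ (prod_nonneg fun p _ => by
          split_ifs
          · exact zero_le_one
          · exact hb0 p)
        rw [yy, prod_pow, mul_pow]
        refine mul_le_of_le_one_right (sq_nonneg _) ?_
        split_ifs <;> norm_num
    _ ≤ SS (fun p : P => qP p * (1 + qP p)) (fun S => gP J θ S ^ 2) ^ k :=
        sum_labels_le hb0 hg2
    _ ≤ _ := by
        refine pow_le_pow_left₀ ?_ (SS_one_add_le hq hg2 SF_gP_sq_anti) k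
        exact sum_nonneg fun S _ => mul_nonneg (hg2 S) (prod_nonneg fun p _ => hb0 p)

/-! ### the lower bound for `Ex mu1` -/

private theorem lower_final {P : Finset ℕ} {k : ℕ} (hk : 2 ≤ k)
    (hP : ∀ p ∈ P, 2 * (k : ℝ) + 2 ≤ p) (m : Fin k) (J : ℕ)
    {θ Λ : ℝ} (hθ : 0 ≤ θ) (hΛ : 2 ^ J * θ < Λ) (hη : k * ∑ p : P, qP p ^ 2 ≤ 1 / 2)
    {X : ℝ} (hX : X ≤ SS (qP (P := P)) (gP J θ) ^ 2
        * ((1 - ((k : ℝ) ^ 2 + 2 * k) * ∑ p : P, qP p ^ 2)
          * SS (fun p : P => qP p * (1 - 2 * k * qP p)) (fun S => gP J θ S ^ 2) ^ (k - 1)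
        - k * SS (fun p : P => qP p * (1 - 2 * k * qP p)) (fun S => gP J θ S ^ 2) ^ (k - 2)
          * SS (fun p : P => qP p * (1 - 2 * k * qP p)) (fun S => gP J θ S ^ 2 * ∑ p ∈ S, lP p)
            / (Λ - 2 ^ J * θ))) (hX0 : 0 ≤ X) :
    1 / 2 * X ≤ Ex (fun p : P => mu1 m (p : ℝ)) (fun e => FF (fun p : P => (p : ℕ))
        (yy (k := k) lP Λ (gP J θ)) e ^ 2) := by
  have hk0 : (0 : ℝ) ≤ k := Nat.cast_nonneg k
  have hk2 : (2 : ℝ) ≤ k := by exact_mod_cast hk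
  have hp1 : ∀ p : P, 2 * (k : ℝ) + 1 ≤ ((p : ℕ) : ℝ) - 1 := fun p => by
    have := hP p p.2
    linarith
  have hq : ∀ p : P, 0 ≤ qP p := fun p => by
    unfold qP
    exact div_nonneg zero_le_one (by linarith [hp1 p])
  have hkq : ∀ p : P, 2 * k * qP p ≤ 1 := fun p => by
    unfold qP
    rw [mul_one_div, div_le_one (by linarith [hp1 p])]
    linarith [hp1 p]
  have ha : ∀ p : P, 0 ≤ qP p * (1 - 2 * k * qP p) := fun p =>
    mul_nonneg (hq p) (by linarith [hkq p])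
  have haq : ∀ p : P, qP p * (1 - 2 * k * qP p) ≤ qP p := fun p => by
    refine mul_le_of_le_one_right (hq p) ?_
    have : 0 ≤ 2 * k * qP p := mul_nonneg (by positivity) (hq p)
    linarith
  have hF := form_ge hk m ha haq SF_lP_nonneg (g := gP J θ) SF_gP_nonneg SF_gP_anti hΛ
    (fun S hS => gJ_eq_zero hθ hS)
  have hG := form_lower (by omega : 1 ≤ k) (fun p : P => (p : ℕ)) (fun p => hP p p.2) m
    (yy (k := k) lP Λ (gP J θ))
  refine le_trans ?_ hG
  have hc : ∀ p : P, 0 ≤ 1 - k * qP p ^ 2 := fun p => by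
    have h1 : k * qP p ^ 2 = (k * qP p) * qP p := by ring
    have h2 : k * qP p ≤ 1 := by
      have : 0 ≤ k * qP p := mul_nonneg hk0 (hq p)
      linarith [hkq p]
    have h3 : qP p ≤ 1 := by
      have h4 : 0 ≤ k * qP p := mul_nonneg hk0 (hq p)
      have h5 : 0 ≤ (k - 2) * qP p := mul_nonneg (by linarith only [hk2]) (hq p)
      have h6 := hkq p
      have h7 := hq p
      linarith only [h5, h6, h7]
    rw [h1]
    have h4 : k * qP p * qP p ≤ 1 * 1 := mul_le_mul h2 h3 (hq p) zero_le_one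
    linarith only [h4]
  have hc1 : ∀ p : P, k * qP p ^ 2 ≤ 1 := fun p => by linarith [hc p]
  have hprod : (1 : ℝ) / 2 ≤ ∏ p : P, (1 - k * qP p ^ 2) := by
    refine le_trans ?_ (SF_prod_one_sub univ (fun p _ => mul_nonneg hk0 (sq_nonneg (qP p)))
      (fun p _ => hc1 p))
    rw [← mul_sum]
    linarith
  have hX2 : X ≤ ∑ t : P → Option (Fin k), (∏ p, Hl m 1 (qP p * (1 - 2 * k * qP p)) (t p))
      * zz m qP (yy (k := k) lP Λ (gP J θ)) t ^ 2 := hX.trans hF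
  have hfac : ∀ t : P → Option (Fin k),
      (∏ p : P, Hl m (1 - k / (((p : ℕ) : ℝ) - 1) ^ 2)
          (1 / (((p : ℕ) : ℝ) - 1) * (1 - 2 * k / (((p : ℕ) : ℝ) - 1))) (t p))
        = (∏ p : P, (1 - k * qP p ^ 2)) * ∏ p, Hl m 1 (qP p * (1 - 2 * k * qP p)) (t p) := by
    intro t
    rw [← prod_mul_distrib]
    refine prod_congr rfl fun p _ => ?_
    have e1 : (k : ℝ) / (((p : ℕ) : ℝ) - 1) ^ 2 = k * qP p ^ 2 := by
      unfold qP; rw [div_pow, one_pow, mul_one_div]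
    have e2 : 1 / (((p : ℕ) : ℝ) - 1) * (1 - 2 * k / (((p : ℕ) : ℝ) - 1))
        = qP p * (1 - 2 * k * qP p) := by
      unfold qP; rw [mul_one_div]
    rw [e1, e2]
    cases t p with
    | none => simp [Hl]
    | some i =>
      simp only [Hl]
      split_ifs
      · simp
      · ring
  have hzz : (fun p : P => 1 / (((p : ℕ) : ℝ) - 1)) = qP := rfl
  calc 1 / 2 * X ≤ (∏ p : P, (1 - k * qP p ^ 2)) * X := mul_le_mul_of_nonneg_right hprod hX0
    _ ≤ (∏ p : P, (1 - k * qP p ^ 2)) * ∑ t : P → Option (Fin k),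
          (∏ p, Hl m 1 (qP p * (1 - 2 * k * qP p)) (t p))
            * zz m qP (yy (k := k) lP Λ (gP J θ)) t ^ 2 :=
        mul_le_mul_of_nonneg_left hX2 (prod_nonneg fun p _ => hc p)
    _ = _ := by
        rw [mul_sum]
        refine sum_congr rfl fun t _ => ?_
        rw [hfac t, hzz, mul_assoc]

/-! ### the numbers -/

/-- the numerical inequalities -/
private theorem SF_numbers {C₁ κ θ L α β βa βe mom η u : ℝ} {J k : ℕ} (hk : 2 ≤ k) (hC : 1 ≤ C₁)
    (hu : u = 1 / (16 * C₁ * (J + 1))) (hκ : 0 < κ) (hL : 0 < L) (hθ : θ = u * L / k)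
    (hη0 : 0 ≤ η) (hη : ((k : ℝ) ^ 2 + 2 * k) * η ≤ 1 / 8)
    (hΛ : 2 ^ J * θ ≤ L / 2) (hα1 : 1 ≤ α) (hα : κ * θ * (J + 2) / 2 ≤ α)
    (hβ1 : 3 / 4 * (κ * θ) ≤ β) (hβ2 : β ≤ 2 * C₁ * (κ * θ)) (hβa1 : 1 ≤ βa)
    (hβa : (1 - 2 * k * η) * β ≤ βa) (hβe0 : 0 ≤ βe) (hβe : βe ≤ Real.exp η * β)
    (hmom : mom ≤ (J + 1) * C₁ * (κ * θ ^ 2)) :
    (1 / 2 * (α ^ 2 * βa ^ (k - 1)) ≤ α ^ 2 * ((1 - ((k : ℝ) ^ 2 + 2 * k) * η) * βa ^ (k - 1)
      - k * βa ^ (k - 2) * mom / (L - 2 ^ J * θ))) ∧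
    1 ≤ α ^ 2 * βa ^ (k - 1) ∧
    (J + 1) / (2048 * C₁ ^ 2) * L * κ * βe ^ k ≤ k * (1 / 4 * (α ^ 2 * βa ^ (k - 1))) := by
  have hk2 : (2 : ℝ) ≤ k := by exact_mod_cast hk
  have hJ0 : (0 : ℝ) ≤ J := Nat.cast_nonneg J
  have hC0 : 0 < C₁ := by linarith
  have hu0 : 0 < u := by rw [hu]; positivity
  have hθ0 : 0 < θ := by rw [hθ]; positivity
  have hβ0 : 0 < β := lt_of_lt_of_le (by positivity) hβ1
  have hβa0 : 0 < βa := by linarith
  have hkη0 : 0 ≤ (k : ℝ) ^ 2 * η := mul_nonneg (sq_nonneg _) hη0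
  have hkη1 : 0 ≤ (k : ℝ) * η := mul_nonneg (Nat.cast_nonneg _) hη0
  have hkη : (k : ℝ) * η ≤ 1 / 16 := by linarith only [hη, hkη0]
  have hkη2 : 2 * (k : ℝ) ^ 2 * η ≤ 1 / 4 := by linarith only [hη, hkη1]
  have hkθ : (k : ℝ) * θ = u * L := by rw [hθ]; field_simp
  have hpow1 : βa ^ (k - 1) = βa ^ (k - 2) * βa := by
    rw [← pow_succ]; congr 1; omega
  refine ⟨?_, ?_, ?_⟩
  · have h1 : k * βa ^ (k - 2) * mom / (L - 2 ^ J * θ) ≤ 1 / 4 * βa ^ (k - 1) := by
      rw [div_le_iff₀ (by linarith), hpow1]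
      have h2 : (k : ℝ) * mom ≤ 1 / 4 * βa * (L - 2 ^ J * θ) := by
        have h3 : (k : ℝ) * mom ≤ (J + 1) * C₁ * κ * θ * (u * L) := by
          rw [← hkθ]
          calc (k : ℝ) * mom ≤ k * ((J + 1) * C₁ * (κ * θ ^ 2)) :=
                mul_le_mul_of_nonneg_left hmom (by positivity)
            _ = _ := by ring
        have h4 : (J + 1) * C₁ * κ * θ * (u * L) = κ * θ * L / 16 := by
          rw [hu]; field_simp
        have h5 : κ * θ / 2 ≤ βa := by
          have h6 : (3 / 4 : ℝ) * β ≤ (1 - 2 * k * η) * β :=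
            mul_le_mul_of_nonneg_right (by linarith) hβ0.le
          have h7 : 0 < κ * θ := mul_pos hκ hθ0
          linarith only [h6, h7, hβa, hβ1]
        have h8 : κ * θ / 2 * (L / 2) ≤ βa * (L - 2 ^ J * θ) :=
          mul_le_mul h5 (by linarith only [hΛ]) (by linarith only [hL]) hβa0.le
        linarith only [h3, h4, h8]
      calc k * βa ^ (k - 2) * mom = βa ^ (k - 2) * (k * mom) := by ring
        _ ≤ βa ^ (k - 2) * (1 / 4 * βa * (L - 2 ^ J * θ)) :=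
            mul_le_mul_of_nonneg_left h2 (by positivity)
        _ = _ := by ring
    have h2 : (7 / 8 : ℝ) * βa ^ (k - 1) ≤ (1 - ((k : ℝ) ^ 2 + 2 * k) * η) * βa ^ (k - 1) :=
      mul_le_mul_of_nonneg_right (by linarith) (by positivity)
    have h3 : 1 / 2 * βa ^ (k - 1) ≤ (1 - ((k : ℝ) ^ 2 + 2 * k) * η) * βa ^ (k - 1)
      - k * βa ^ (k - 2) * mom / (L - 2 ^ J * θ) := by
      have : 0 < βa ^ (k - 1) := by positivity
      linarith
    calc 1 / 2 * (α ^ 2 * βa ^ (k - 1)) = α ^ 2 * (1 / 2 * βa ^ (k - 1)) := by ring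
      _ ≤ _ := mul_le_mul_of_nonneg_left h3 (sq_nonneg α)
  · exact one_le_mul_of_one_le_of_one_le (one_le_pow₀ hα1) (one_le_pow₀ hβa1)
  · -- the powers
    have hb1 : βe ^ k ≤ 2 * β ^ k := by
      calc βe ^ k ≤ (Real.exp η * β) ^ k := pow_le_pow_left₀ hβe0 hβe k
        _ = Real.exp (k * η) * β ^ k := by rw [mul_pow, ← Real.exp_nat_mul]
        _ ≤ 2 * β ^ k := by
            refine mul_le_mul_of_nonneg_right ?_ (by positivity)
            have h1 := Real.one_sub_le_exp_neg (k * η)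
            rw [Real.exp_neg] at h1
            have h2 : 0 < Real.exp (k * η) := Real.exp_pos _
            have h3 : (1 - k * η) * Real.exp (k * η) ≤ 1 := by
              calc (1 - k * η) * Real.exp (k * η) ≤ (Real.exp (k * η))⁻¹ * Real.exp (k * η) :=
                    mul_le_mul_of_nonneg_right h1 h2.le
                _ = 1 := inv_mul_cancel₀ h2.ne'
            have h4 : k * η * Real.exp (k * η) ≤ 1 / 16 * Real.exp (k * η) :=
              mul_le_mul_of_nonneg_right hkη h2.le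
            linarith only [h2, h3, h4]
    have hb2 : 1 / 2 * β ^ (k - 1) ≤ βa ^ (k - 1) := by
      have h1 : ((1 - 2 * k * η) * β) ^ (k - 1) ≤ βa ^ (k - 1) :=
        pow_le_pow_left₀ (mul_nonneg (by linarith) hβ0.le) hβa _
      have h2 := one_add_mul_le_pow (a := -(2 * k * η)) (by linarith) (k - 1)
      have h3 : ((k - 1 : ℕ) : ℝ) ≤ k := by exact_mod_cast Nat.sub_le k 1
      have h4 : (1 : ℝ) / 2 ≤ (1 + -(2 * k * η)) ^ (k - 1) := by
        refine le_trans ?_ h2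
        have h5 : ((k - 1 : ℕ) : ℝ) * (2 * k * η) ≤ k * (2 * k * η) :=
          mul_le_mul_of_nonneg_right h3 (by positivity)
        linarith only [h5, hkη2]
      calc 1 / 2 * β ^ (k - 1) ≤ (1 + -(2 * k * η)) ^ (k - 1) * β ^ (k - 1) :=
            mul_le_mul_of_nonneg_right h4 (by positivity)
        _ = ((1 - 2 * k * η) * β) ^ (k - 1) := by rw [mul_pow, ← sub_eq_add_neg]
        _ ≤ _ := h1
    have hpow2 : β ^ k = β ^ (k - 1) * β := by
      rw [← pow_succ]; congr 1; omega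
    -- the main comparison
    have hm : (J + 1) / (2048 * C₁ ^ 2) * L * κ * (2 * β) ≤ k * (1 / 8 * α ^ 2) := by
      have h1 : (J + 1) / (2048 * C₁ ^ 2) * L * κ * (2 * β)
          ≤ (J + 1) / (2048 * C₁ ^ 2) * L * κ * (2 * (2 * C₁ * (κ * θ))) := by
        have h9 : 0 ≤ (J + 1) / (2048 * C₁ ^ 2) * L * κ := by positivity
        exact mul_le_mul_of_nonneg_left (by linarith) h9
      have h2 : (κ * θ * (J + 2) / 2) ^ 2 ≤ α ^ 2 := pow_le_pow_left₀ (by positivity) hα 2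
      have h3 : (k : ℝ) * (1 / 8 * (κ * θ * (J + 2) / 2) ^ 2) ≤ k * (1 / 8 * α ^ 2) :=
        mul_le_mul_of_nonneg_left (by linarith) (by positivity)
      have h4 : (k : ℝ) * (1 / 8 * (κ * θ * (J + 2) / 2) ^ 2)
          = κ ^ 2 * θ * (J + 2) ^ 2 / 32 * (k * θ) := by ring
      have h5 : (J + 1) / (2048 * C₁ ^ 2) * L * κ * (2 * (2 * C₁ * (κ * θ)))
          = κ ^ 2 * θ * (J + 1) ^ 2 / 32 * (u * L) := by
        rw [hu]; field_simp; ring
      have h6 : κ ^ 2 * θ * (J + 1) ^ 2 / 32 * (u * L) ≤ κ ^ 2 * θ * (J + 2) ^ 2 / 32 * (u * L) := by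
        have h10 : ((J : ℝ) + 1) ^ 2 ≤ (J + 2) ^ 2 := by linarith only [hJ0]
        have h11 : 0 ≤ κ ^ 2 * θ := by positivity
        have h12 : 0 ≤ u * L := by positivity
        have h13 := mul_le_mul_of_nonneg_right (mul_le_mul_of_nonneg_left h10 h11) h12
        linarith only [h13]
      rw [hkθ] at h4
      linarith
    calc (J + 1) / (2048 * C₁ ^ 2) * L * κ * βe ^ k
        ≤ (J + 1) / (2048 * C₁ ^ 2) * L * κ * (2 * β ^ k) :=
          mul_le_mul_of_nonneg_left hb1 (by positivity)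
      _ = (J + 1) / (2048 * C₁ ^ 2) * L * κ * (2 * β) * β ^ (k - 1) := by rw [hpow2]; ring
      _ ≤ k * (1 / 8 * α ^ 2) * β ^ (k - 1) := mul_le_mul_of_nonneg_right hm (by positivity)
      _ = k * (1 / 4 * (α ^ 2 * (1 / 2 * β ^ (k - 1)))) := by ring
      _ ≤ _ := by
          refine mul_le_mul_of_nonneg_left ?_ (by positivity)
          refine mul_le_mul_of_nonneg_left ?_ (by norm_num)
          exact mul_le_mul_of_nonneg_left hb2 (sq_nonneg α)

/-- the model inequality, uniform in the modulus -/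
theorem model_unif (M : ℝ) : ∃ k D₀ : ℕ, ∃ c : ℝ, 0 < c ∧ 2 ≤ k ∧
    ∀ W Y : ℕ, 0 < W → 0 < Y → (∀ p : ℕ, p.Prime → p ≤ D₀ → p ∣ W) →
    (∀ p : ℕ, p.Prime → p ∣ W → p ≤ Y) →
    ∀ R : ℕ, 1 + Real.log Y ≤ c * Real.log R → ∃ y : (PS W R → Option (Fin k)) → ℝ,
      (∀ σ, |y σ| ≤ 1) ∧
      (∀ σ, y σ ≠ 0 → dd (fun p : PS W R => (p : ℕ)) σ ≤ R) ∧
      1 / 4 ≤ ∑ m : Fin k, Ex (fun p : PS W R => mu1 m (p : ℝ))
          (fun e => FF (fun p : PS W R => (p : ℕ)) y e ^ 2) ∧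
      M * Real.log R * ((Nat.totient W : ℝ) / W)
          * Ex (fun p : PS W R => mu0 (p : ℝ)) (fun e => FF (fun p : PS W R => (p : ℕ)) y e ^ 2)
        ≤ ∑ m : Fin k, Ex (fun p : PS W R => mu1 m (p : ℝ))
            (fun e => FF (fun p : PS W R => (p : ℕ)) y e ^ 2) := by
  obtain ⟨C₁, hC₁, hup⟩ : ∃ C₁ : ℝ, 1 ≤ C₁ ∧ ∀ {W Y : ℕ}, 0 < W → 0 < Y →
      (∀ p : ℕ, p.Prime → p ∣ W → p ≤ Y) → ∀ {x : ℝ}, 1 + Real.log Y ≤ x → ∀ R : ℕ,
      HP (PS W R) x ≤ C₁ * ((Nat.totient W : ℝ) / W) * x :=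
    ⟨CHP, one_le_CHP, fun h1 h2 h3 _ h4 R => HP_upperU h1 h2 h3 h4 R⟩
  have hC0 : 0 < C₁ := by linarith
  obtain ⟨J, hJ⟩ := exists_nat_ge (M * (2048 * C₁ ^ 2))
  have hJ0 : (0 : ℝ) ≤ J := Nat.cast_nonneg J
  set k : ℕ := 2 ^ (J + 1) with hkdef
  have hk : 2 ≤ k := by
    rw [hkdef, pow_succ]
    have : 1 ≤ 2 ^ J := Nat.one_le_two_pow
    omega
  have hk2 : (2 : ℝ) ≤ k := by exact_mod_cast hk
  have hk0 : (0 : ℝ) < k := by linarith
  set D : ℕ := 16 * (k ^ 2 + 2 * k) with hD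
  have hD2 : 2 ≤ D := by rw [hD]; nlinarith
  set u : ℝ := 1 / (16 * C₁ * (J + 1)) with hu
  have hu0 : 0 < u := by positivity
  refine ⟨k, D, u / k, by positivity, hk, ?_⟩
  intro W Y hW hY hWD hWY R hR
  have hκ : 0 < (Nat.totient W : ℝ) / W := by
    have h1 : 0 < Nat.totient W := Nat.totient_pos.2 hW
    positivity
  set κ : ℝ := (Nat.totient W : ℝ) / W with hκdef
  have hY1 : (1 : ℝ) ≤ Y := by exact_mod_cast hY
  have hlY : 0 ≤ Real.log Y := Real.log_nonneg hY1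
  obtain ⟨θ₀, hθ₀def⟩ : ∃ θ₀ : ℝ, θ₀ = max (1 + Real.log (Y : ℝ)) 1 := ⟨_, rfl⟩
  have hθ₀e : θ₀ = 1 + Real.log (Y : ℝ) := by rw [hθ₀def, max_eq_left]; linarith
  have hθ₀ : 0 < θ₀ := by rw [hθ₀e]; linarith
  have hdy := dyadic_sumsU hC₁ hW (x₀ := 1 + Real.log (Y : ℝ)) (fun x hx R => hup hW hY hWY hx R) J
  rw [← hθ₀def] at hdy
  have hL : θ₀ * k / u ≤ Real.log R := by
    rw [div_le_iff₀ hu0, hθ₀e]
    have h1 : (1 + Real.log (Y : ℝ)) * k ≤ u / k * Real.log R * k :=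
      mul_le_mul_of_nonneg_right hR hk0.le
    have h2 : u / k * Real.log R * k = Real.log R * u := by field_simp
    linarith
  have hRpos : (0 : ℝ) < R := by
    rcases Nat.eq_zero_or_pos R with h | h
    · exfalso
      rw [h] at hL
      have : 0 < θ₀ * k / u := by positivity
      simp at hL
      linarith
    · exact_mod_cast h
  set L : ℝ := Real.log R with hLdef
  have hL0 : 0 < L := lt_of_lt_of_le (by positivity) hL
  set θ : ℝ := u * L / k with hθ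
  have hθθ : θ₀ ≤ θ := by
    rw [div_le_iff₀ hu0] at hL
    rw [hθ, le_div_iff₀ hk0]
    linarith
  have hθ0 : 0 < θ := by linarith
  have hu16 : u ≤ 1 := by
    rw [hu, div_le_one (by positivity)]
    have h1 : 0 ≤ C₁ * J := mul_nonneg (by linarith only [hC₁]) hJ0
    linarith only [h1, hC₁]
  have hΛ : 2 ^ J * θ ≤ L / 2 := by
    have h1 : (k : ℝ) = 2 * 2 ^ J := by rw [hkdef]; push_cast; ring
    have h2 : 2 ^ J * θ = u * L / 2 := by
      rw [hθ, h1]
      have : (2 : ℝ) ^ J ≠ 0 := by positivity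
      field_simp
    rw [h2]
    have h3 : u * L ≤ 1 * L := mul_le_mul_of_nonneg_right hu16 hL0.le
    linarith only [h3]
  obtain ⟨hα, hβ1, hβ2, hmom⟩ := hdy θ hθθ R (by linarith)
  -- eta
  set η : ℝ := ∑ p : PS W R, qP p ^ 2 with hη
  have hη0 : 0 ≤ η := sum_nonneg fun p _ => sq_nonneg _
  have hη1 : ((k : ℝ) ^ 2 + 2 * k) * η ≤ 1 / 8 := by
    have h1 := SF_eta_le hD2 hWD (R := R)
    have h2 : (D : ℝ) = 16 * ((k : ℝ) ^ 2 + 2 * k) := by rw [hD]; push_cast; ring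
    rw [h2] at h1
    have h3 : 0 < (k : ℝ) ^ 2 + 2 * k := by positivity
    calc ((k : ℝ) ^ 2 + 2 * k) * η ≤ ((k : ℝ) ^ 2 + 2 * k) * (2 / (16 * ((k : ℝ) ^ 2 + 2 * k))) :=
          mul_le_mul_of_nonneg_left h1 h3.le
      _ = 1 / 8 := by field_simp; norm_num
  have hprime : ∀ p ∈ PS W R, p.Prime := fun p hp => (mem_PS.1 hp).2.1
  have hbig : ∀ p ∈ PS W R, 2 * (k : ℝ) + 2 ≤ p := by
    intro p hp
    have h1 : D < p := by
      by_contra hcon
      exact (mem_PS.1 hp).2.2 (hWD p (hprime p hp) (not_lt.1 hcon))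
    have h2 : 2 * k + 2 ≤ p := by
      have : 2 * k + 2 ≤ D := by rw [hD]; nlinarith
      omega
    exact_mod_cast h2
  have hq : ∀ p : PS W R, 0 ≤ qP p := by
    intro p
    have := hbig p p.2
    unfold qP
    exact div_nonneg zero_le_one (by linarith)
  have hkq : ∀ p : PS W R, 2 * k * qP p ≤ 1 := fun p => by
    have := hbig p p.2
    unfold qP
    rw [mul_one_div, div_le_one (by linarith)]
    linarith
  have ha : ∀ p : PS W R, 0 ≤ qP p * (1 - 2 * k * qP p) := fun p =>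
    mul_nonneg (hq p) (by linarith [hkq p])
  have haq : ∀ p : PS W R, qP p * (1 - 2 * k * qP p) ≤ qP p := fun p => by
    refine mul_le_of_le_one_right (hq p) ?_
    have : 0 ≤ 2 * k * qP p := mul_nonneg (by positivity) (hq p)
    linarith
  have hg0 : gP J θ (∅ : Finset (PS W R)) = 1 := by
    unfold gP
    rw [sum_empty]
    exact gJ_zero hθ0.le
  have hα1 : 1 ≤ SS (qP (P := PS W R)) (gP J θ) := SF_one_le_SS hq SF_gP_nonneg hg0
  have hβa1 : 1 ≤ SS (fun p : PS W R => qP p * (1 - 2 * k * qP p)) (fun S => gP J θ S ^ 2) :=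
    SF_one_le_SS ha (fun S => sq_nonneg _) (by rw [hg0, one_pow])
  have hβa := SS_one_sub_ge hq (f := fun S : Finset (PS W R) => gP J θ S ^ 2)
    (fun S => sq_nonneg _) SF_gP_sq_anti (c := 2 * k) (by positivity) hkq
  rw [← hη] at hβa
  have hmoma : SS (fun p : PS W R => qP p * (1 - 2 * k * qP p))
      (fun S => gP J θ S ^ 2 * ∑ p ∈ S, lP p) ≤ (J + 1) * C₁ * (κ * θ ^ 2) :=
    (SF_SS_mono ha haq fun S => mul_nonneg (sq_nonneg _) (sum_nonneg fun p _ => SF_lP_nonneg p)).trans hmom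
  have hβe0 : 0 ≤ Real.exp η * SS (qP (P := PS W R)) (fun S => gP J θ S ^ 2) :=
    mul_nonneg (Real.exp_pos _).le
      (sum_nonneg fun S _ => mul_nonneg (sq_nonneg _) (prod_nonneg fun p _ => hq p))
  obtain ⟨n1, n2, n3⟩ := SF_numbers (L := L) (α := SS (qP (P := PS W R)) (gP J θ)) hk hC₁ hu hκ hL0 hθ
    hη0 hη1 hΛ hα1 hα hβ1 hβ2 hβa1 hβa hβe0 le_rfl hmoma
  have hX0 : 0 ≤ 1 / 2 * (SS (qP (P := PS W R)) (gP J θ) ^ 2
      * SS (fun p : PS W R => qP p * (1 - 2 * k * qP p)) (fun S => gP J θ S ^ 2) ^ (k - 1)) := by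
    linarith
  have hlow : ∀ m : Fin k, 1 / 4 * (SS (qP (P := PS W R)) (gP J θ) ^ 2
      * SS (fun p : PS W R => qP p * (1 - 2 * k * qP p)) (fun S => gP J θ S ^ 2) ^ (k - 1))
      ≤ Ex (fun p : PS W R => mu1 m (p : ℝ)) (fun e => FF (fun p : PS W R => (p : ℕ))
        (yy (k := k) lP L (gP J θ)) e ^ 2) := by
    intro m
    have h1 := lower_final hk hbig m J hθ0.le (Λ := L) (by linarith only [hΛ, hL0])
      (by
        have h9 : 0 ≤ (k : ℝ) ^ 2 * η := mul_nonneg (sq_nonneg _) hη0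
        have h10 : 0 ≤ (k : ℝ) * η := mul_nonneg (Nat.cast_nonneg _) hη0
        linarith only [hη1, h9, h10]) n1 hX0
    linarith only [h1]
  have hsum : (k : ℝ) * (1 / 4 * (SS (qP (P := PS W R)) (gP J θ) ^ 2
      * SS (fun p : PS W R => qP p * (1 - 2 * k * qP p)) (fun S => gP J θ S ^ 2) ^ (k - 1)))
      ≤ ∑ m : Fin k, Ex (fun p : PS W R => mu1 m (p : ℝ)) (fun e => FF (fun p : PS W R => (p : ℕ))
        (yy (k := k) lP L (gP J θ)) e ^ 2) := by
    have h1 := Finset.card_nsmul_le_sum (univ : Finset (Fin k)) _ _ (fun m _ => hlow m)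
    rwa [Finset.card_univ, Fintype.card_fin, nsmul_eq_mul] at h1
  refine ⟨yy lP L (gP J θ), ?_, ?_, ?_, ?_⟩
  · intro σ
    have h1 : 0 ≤ ∏ i, gP J θ (cls σ i) := prod_nonneg fun i _ => SF_gP_nonneg _
    have h2 : ∏ i, gP J θ (cls σ i) ≤ 1 := prod_le_one (fun i _ => SF_gP_nonneg _) fun i _ => SF_gP_le_one _
    rw [yy]
    split_ifs
    · rw [mul_one, abs_of_nonneg h1]
      exact h2
    · simp
  · intro σ hσ
    refine supp_dd hprime σ (by exact_mod_cast hRpos) ?_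
    by_contra hcon
    exact hσ (by rw [yy, if_neg hcon, mul_zero])
  · refine le_trans ?_ hsum
    have h1 : 1 * (1 / 4) ≤ (k : ℝ) * (1 / 4 * (SS (qP (P := PS W R)) (gP J θ) ^ 2
      * SS (fun p : PS W R => qP p * (1 - 2 * k * qP p)) (fun S => gP J θ S ^ 2) ^ (k - 1))) :=
      mul_le_mul (by linarith only [hk2]) (by linarith only [n2]) (by norm_num) hk0.le
    linarith only [h1]
  · refine le_trans ?_ hsum
    have hU := upper_final (k := k) hbig J θ L
    rw [← hη] at hU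
    have hE0 : 0 ≤ Ex (fun p : PS W R => mu0 (p : ℝ)) (fun e => FF (fun p : PS W R => (p : ℕ))
        (yy (k := k) lP L (gP J θ)) e ^ 2) :=
      Ex_mu0_nonneg (fun p hp => ⟨by linarith [hbig p hp], (hprime p hp).pos⟩) _
    have hM : M ≤ (J + 1) / (2048 * C₁ ^ 2) := by
      rw [le_div_iff₀ (by positivity)]
      linarith only [hJ]
    calc M * L * κ * Ex (fun p : PS W R => mu0 (p : ℝ)) (fun e => FF (fun p : PS W R => (p : ℕ))
            (yy (k := k) lP L (gP J θ)) e ^ 2)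
        ≤ (J + 1) / (2048 * C₁ ^ 2) * L * κ * Ex (fun p : PS W R => mu0 (p : ℝ))
            (fun e => FF (fun p : PS W R => (p : ℕ)) (yy (k := k) lP L (gP J θ)) e ^ 2) := by
          refine mul_le_mul_of_nonneg_right ?_ hE0
          exact mul_le_mul_of_nonneg_right (mul_le_mul_of_nonneg_right hM hL0.le) hκ.le
      _ ≤ (J + 1) / (2048 * C₁ ^ 2) * L * κ
            * (Real.exp η * SS (qP (P := PS W R)) (fun S => gP J θ S ^ 2)) ^ k :=
          mul_le_mul_of_nonneg_left hU (by positivity)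
      _ ≤ _ := n3

end Pool.Agent.helper80.MTR
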