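import Pool.Agent.helper80.MTR.CR
import Pool.Agent.helper80.MTR.BHX
import Pool.Agent.helper17.MT.TR10a
import Pool.Agent.helper13.MT.TR1
import Pool.Agent.helper13.MT.TR3
import Pool.Agent.helper13.MT.TR10b
import Pool.Agent.helper85.MT.TR56
import Pool.Agent.Lib.SieveInterval

/-!
# The first sum with sieving primes
-/

set_option autoImplicit false

namespace Pool.Agent.helper80.MTR

open Finset Real ArithmeticFunction Pool.Agent.helper39.MT

lemma pow_le_exp_large (K : ℝ) (n : ℕ) {δ : ℝ} (hδ : 0 < δ) :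
    ∃ L₁ : ℝ, ∀ L : ℝ, L₁ ≤ L → K * L ^ n ≤ Real.exp (δ * L) := by
  refine ⟨max 0 (K * (Nat.factorial (n + 1)) / δ ^ (n + 1)), fun L hL => ?_⟩
  have h0 : 0 ≤ L := (le_max_left _ _).trans hL
  have h1 : K * (Nat.factorial (n + 1)) / δ ^ (n + 1) ≤ L := (le_max_right _ _).trans hL
  have hf : (0 : ℝ) < Nat.factorial (n + 1) := by exact_mod_cast Nat.factorial_pos _
  have h2 := Real.pow_div_factorial_le_exp (δ * L) (by positivity) (n + 1)
  refine le_trans ?_ h2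
  rw [div_le_iff₀ (by positivity)] at h1
  rw [le_div_iff₀ hf, mul_pow, pow_succ L n]
  calc K * L ^ n * (Nat.factorial (n + 1)) = (K * (Nat.factorial (n + 1))) * L ^ n := by ring
    _ ≤ (L * δ ^ (n + 1)) * L ^ n := mul_le_mul_of_nonneg_right h1 (by positivity)
    _ = δ ^ (n + 1) * (L ^ n * L) := by ring

lemma dd_le_mul {ι : Type*} [Fintype ι] [DecidableEq ι] {k : ℕ} (pr : ι → ℕ)
    (hpr : ∀ p, 1 ≤ pr p) (τ σ σ' : ι → Option (Fin k))
    (h : ∀ p, τ p ≠ none → σ p ≠ none ∨ σ' p ≠ none) : dd pr τ ≤ dd pr σ * dd pr σ' := by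
  unfold dd
  rw [← prod_mul_distrib]
  refine prod_le_prod' fun p _ => ?_
  have hp := hpr p
  by_cases h1 : τ p = none
  · rw [if_pos h1]
    split_ifs <;> nlinarith
  · rw [if_neg h1]
    rcases h p h1 with h2 | h2
    · rw [if_neg h2]
      split_ifs <;> nlinarith
    · rw [if_neg h2]
      split_ifs <;> nlinarith

/-- the sum of the coefficients of the labels -/
lemma coeff_sum (k : ℕ) : ∃ C : ℝ, 0 < C ∧ ∀ L : ℝ, 1 ≤ L → ∀ V R : ℕ, 2 ≤ R →
    (R : ℝ) ≤ Real.exp (L / 200) → (∀ p : ℕ, p.Prime → p ≤ 4 * k + 4 → p ∣ V) →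
    ∀ y : (PS V R → Option (Fin k)) → ℝ,
      (∀ σ, y σ ≠ 0 → dd (fun p : PS V R => (p : ℕ)) σ ≤ R) →
    ∀ c : (PS V R → Option (Fin k)) → ℝ,
      (∀ τ, |c τ| ≤ (∏ p : PS V R, (1 + (k : ℝ) / (((p : ℕ) : ℝ) - 1)) ^ 2) *
        6 ^ (#{p | τ p ≠ none})) →
      (∀ τ, c τ ≠ 0 → ∃ σ σ', y σ ≠ 0 ∧ y σ' ≠ 0 ∧ ∀ p, τ p ≠ none → σ p ≠ none ∨ σ' p ≠ none) →
      ∑ τ, |c τ| ≤ C * L ^ (2 * k) * Real.exp (L / 50) := by
  classical
  obtain ⟨C1, hC1, hprod⟩ := prod_small k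
  obtain ⟨C2, hC2, homega⟩ := pow_omega_le (6 * k)
  refine ⟨C1 * C2, by positivity, ?_⟩
  intro L hL V R hR hRL hsmall y hyR c hc2 hc3
  have hprime : ∀ p : PS V R, (p : ℕ).Prime := fun p => (mem_PS.1 p.2).2.1
  set P : ℝ := ∏ p : PS V R, (1 + (k : ℝ) / (((p : ℕ) : ℝ) - 1)) ^ 2 with hP
  have hP0 : 0 ≤ P := prod_nonneg fun p _ => sq_nonneg _
  have h1 : ∑ τ, |c τ| = ∑ τ : PS V R → Option (Fin k) with
      dd (fun p : PS V R => (p : ℕ)) τ ≤ R ^ 2, |c τ| := by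
    symm
    apply sum_filter_of_ne
    intro τ _ hτ
    have hτ' : c τ ≠ 0 := fun h0 => hτ (by rw [h0, abs_zero])
    obtain ⟨σ, σ', hσ, hσ', hsub⟩ := hc3 τ hτ'
    calc dd (fun p : PS V R => (p : ℕ)) τ
        ≤ dd (fun p : PS V R => (p : ℕ)) σ * dd (fun p : PS V R => (p : ℕ)) σ' :=
          dd_le_mul _ (fun p => (hprime p).one_le) τ σ σ' hsub
      _ ≤ R * R := Nat.mul_le_mul (hyR σ hσ) (hyR σ' hσ')
      _ = R ^ 2 := (sq R).symm
  have h2 := sum_labels k V R (fun _ => 1) (fun _ => zero_le_one) 6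
  simp only [mul_one] at h2
  have h3 : ∑ D ∈ Icc 1 (R ^ 2) with Squarefree D ∧ Nat.Coprime D V,
      ((6 * k : ℕ) : ℝ) ^ D.primeFactors.card ≤ C2 * Real.exp (L / 50) := by
    have hR0 : (0 : ℝ) ≤ R := Nat.cast_nonneg R
    calc ∑ D ∈ Icc 1 (R ^ 2) with Squarefree D ∧ Nat.Coprime D V,
          ((6 * k : ℕ) : ℝ) ^ D.primeFactors.card
        ≤ ∑ D ∈ Icc 1 (R ^ 2), ((6 * k : ℕ) : ℝ) ^ D.primeFactors.card :=
          sum_le_sum_of_subset_of_nonneg (filter_subset _ _) fun _ _ _ => by positivity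
      _ ≤ ∑ _D ∈ Icc 1 (R ^ 2), C2 * (R : ℝ) ^ 2 := by
          refine sum_le_sum fun D hD' => ?_
          rw [mem_Icc] at hD'
          refine (homega D (by omega)).trans (mul_le_mul_of_nonneg_left ?_ hC2.le)
          have hD1 : (1 : ℝ) ≤ D := by exact_mod_cast hD'.1
          calc (D : ℝ) ^ (1 / 4 : ℝ) ≤ (D : ℝ) ^ (1 : ℝ) :=
                Real.rpow_le_rpow_of_exponent_le hD1 (by norm_num)
            _ = D := Real.rpow_one _
            _ ≤ (R : ℝ) ^ 2 := by exact_mod_cast hD'.2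
      _ = C2 * (R : ℝ) ^ 4 := by
          rw [sum_const, Nat.card_Icc, nsmul_eq_mul, Nat.add_sub_cancel]
          push_cast
          ring
      _ ≤ C2 * (Real.exp (L / 200)) ^ 4 :=
          mul_le_mul_of_nonneg_left (pow_le_pow_left₀ hR0 hRL 4) hC2.le
      _ = C2 * Real.exp (L / 50) := by
          rw [← Real.exp_nat_mul]
          congr 2
          push_cast
          ring
  have hPle : P ≤ C1 * L ^ (2 * k) := by
    refine (hprod V R hR hsmall).trans (mul_le_mul_of_nonneg_left ?_ hC1.le)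
    have hR1 : (1 : ℝ) < R := by exact_mod_cast (by omega : 1 < R)
    have h1 : Real.log R ≤ L / 200 := by
      rw [Real.log_le_iff_le_exp (by linarith)]
      exact hRL
    exact pow_le_pow_left₀ (Real.log_nonneg hR1.le) (by linarith) _
  rw [h1]
  calc ∑ τ : PS V R → Option (Fin k) with dd (fun p : PS V R => (p : ℕ)) τ ≤ R ^ 2, |c τ|
      ≤ ∑ τ : PS V R → Option (Fin k) with dd (fun p : PS V R => (p : ℕ)) τ ≤ R ^ 2,
          P * ((6 : ℕ) : ℝ) ^ (#{p | τ p ≠ none}) := by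
        refine sum_le_sum fun τ _ => ?_
        have := hc2 τ
        exact_mod_cast this
    _ = P * ∑ τ : PS V R → Option (Fin k) with dd (fun p : PS V R => (p : ℕ)) τ ≤ R ^ 2,
          ((6 : ℕ) : ℝ) ^ (#{p | τ p ≠ none}) := by rw [mul_sum]
    _ ≤ P * (C2 * Real.exp (L / 50)) := mul_le_mul_of_nonneg_left (h2.trans h3) hP0
    _ ≤ (C1 * L ^ (2 * k)) * (C2 * Real.exp (L / 50)) :=
        mul_le_mul_of_nonneg_right hPle (by positivity)
    _ = _ := by ring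

lemma alg_11 (w c : ℝ) : w * (c * 1) * 1 = c * w := by ring

lemma alg_10 (w c : ℝ) : w * (c * 1) * 0 = 0 := by ring

lemma alg_01 (w c : ℝ) : w * (c * 0) * 1 = 0 := by ring

lemma alg_00 (w c : ℝ) : w * (c * 0) * 0 = 0 := by ring

lemma final_one {C1 C3 L K T : ℝ} {k : ℕ} (hC3 : 0 < C3) (hK : 0 ≤ K) (hL : 0 ≤ L)
    (hT : T ≤ C1 * L ^ (2 * k) * Real.exp (L / 50))
    (hLL : C1 * C3 * L ^ (2 * k) ≤ Real.exp (1 / 10 * L)) :
    T * (K * (C3 * Real.exp (-L / 2))) ≤ K * Real.exp (-L / 3) := by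
  have h0 : 0 ≤ K * (C3 * Real.exp (-L / 2)) := by positivity
  have h1 : 0 ≤ Real.exp (L / 50) * Real.exp (-L / 2) := by positivity
  calc T * (K * (C3 * Real.exp (-L / 2)))
      ≤ (C1 * L ^ (2 * k) * Real.exp (L / 50)) * (K * (C3 * Real.exp (-L / 2))) :=
        mul_le_mul_of_nonneg_right hT h0
    _ = K * ((C1 * C3 * L ^ (2 * k)) * (Real.exp (L / 50) * Real.exp (-L / 2))) := by ring
    _ ≤ K * (Real.exp (1 / 10 * L) * (Real.exp (L / 50) * Real.exp (-L / 2))) :=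
        mul_le_mul_of_nonneg_left (mul_le_mul_of_nonneg_right hLL h1) hK
    _ ≤ K * Real.exp (-L / 3) := by
        refine mul_le_mul_of_nonneg_left ?_ hK
        rw [← Real.exp_add, ← Real.exp_add]
        exact Real.exp_le_exp.2 (by linarith)

lemma alg_one (S c d K P : ℝ) (hd : d ≠ 0) (hP : P ≠ 0) :
    (S * (c * (1 / d))) * (K / P) = c * (K * (S / (d * P))) := by
  field_simp

/-- the first sum, for one set of sieving primes -/
theorem S1_D (k : ℕ) : ∃ L₁ : ℝ, ∀ L : ℝ, L₁ ≤ L → ∀ {D₀ W : ℕ} {A B : Fin k → ℕ},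
    Std k D₀ A B W → 4 * k + 4 ≤ D₀ → ∀ V : ℕ, W ∣ V → ∀ R : ℕ, 2 ≤ R →
      (R : ℝ) ≤ Real.exp (L / 200) →
      ∀ y : (PS V R → Option (Fin k)) → ℝ, (∀ σ, |y σ| ≤ 1) →
      (∀ σ, y σ ≠ 0 → dd (fun p : PS V R => (p : ℕ)) σ ≤ R) →
      ∀ (D : Finset ℕ) (C : ℕ → Finset ℕ), (∀ p ∈ D, p.Prime ∧ p ∣ V) →
        (∀ p ∈ D, ∀ c ∈ C p, c < p) →
      |∑ n ∈ Ioc 0 (NN L 0),
          (wt L 0 n * FF (fun p : PS V R => (p : ℕ)) y (pat A B (PS V R) n) ^ 2)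
            * ∏ p ∈ D, (if n % p ∈ C p then (1 : ℝ) else 0)
        - ((∑ n ∈ Ioc 0 (NN L 0), wt L 0 n) * Ex (fun p : PS V R => mu0 (p : ℝ))
            (fun e => FF (fun p : PS V R => (p : ℕ)) y e ^ 2)) * ∏ p ∈ D, ((#(C p) : ℝ) / p)|
        ≤ (∏ p ∈ D, (#(C p) : ℝ)) * Real.exp (-L / 3) := by
  classical
  obtain ⟨C1, hC1, hcoef⟩ := coeff_sum k
  obtain ⟨C3, hC3, hequi⟩ := wt_equi
  obtain ⟨L₁, hL₁⟩ := pow_le_exp_large (C1 * C3) (2 * k) (δ := 1 / 10) (by norm_num)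
  refine ⟨max 2 L₁, ?_⟩
  intro L hL D₀ W A B h hD V hWV R hR hRL y hy hyR D C hDV hC
  have hL2 : 2 ≤ L := (le_max_left _ _).trans hL
  have hLL := hL₁ L ((le_max_right _ _).trans hL)
  have hprime : ∀ p : PS V R, (p : ℕ).Prime := fun p => (mem_PS.1 p.2).2.1
  have hsmall : ∀ p : ℕ, p.Prime → p ≤ 4 * k + 4 → p ∣ V := fun p hp hle =>
    (h.small p hp (hle.trans hD)).trans hWV
  have hP : ∀ p ∈ PS V R, p.Prime ∧ ¬ p ∣ W := fun p hp =>
    ⟨(mem_PS.1 hp).2.1, fun hd => (mem_PS.1 hp).2.2 (hd.trans hWV)⟩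
  have hlarge : ∀ p : PS V R, 4 * k + 4 ≤ (p : ℕ) := by
    intro p
    by_contra hlt
    exact (mem_PS.1 p.2).2.2 (hsmall p (hprime p) (by omega))
  obtain ⟨c, hc1, hc2, hc3⟩ := FF_expand (fun p : PS V R => (p : ℕ)) hlarge y hy
  choose ν hν1 hν2 hν3 using fun τ : PS V R → Option (Fin k) => ind_patP h hP τ
  have hcs := hcoef L (by linarith) V R hR hRL hsmall y hyR c hc2 hc3
  obtain ⟨S, hS⟩ : ∃ S : ℝ, S = ∑ n ∈ Ioc 0 (NN L 0), wt L 0 n := ⟨_, rfl⟩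
  obtain ⟨G, hG⟩ : ∃ G : ℝ, G = ∏ p ∈ D, ((#(C p) : ℝ) / p) := ⟨_, rfl⟩
  obtain ⟨K, hK⟩ : ∃ K : ℝ, K = ∏ p ∈ D, (#(C p) : ℝ) := ⟨_, rfl⟩
  rw [← hS, ← hG, ← hK]
  have hK0 : 0 ≤ K := hK ▸ prod_nonneg fun p _ => Nat.cast_nonneg _
  -- expansion of the expectation
  have hEx : Ex (fun p : PS V R => mu0 (p : ℝ))
      (fun e => FF (fun p : PS V R => (p : ℕ)) y e ^ 2) =
      ∑ τ, c τ * (1 / (dd (fun p : PS V R => (p : ℕ)) τ : ℝ)) := by
    have h1 : Ex (fun p : PS V R => mu0 (p : ℝ))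
        (fun e => FF (fun p : PS V R => (p : ℕ)) y e ^ 2) =
        ∑ τ, c τ * Ex (fun p : PS V R => mu0 (k := k) (((p : ℕ)) : ℝ)) (ind τ) := by
      unfold Ex
      simp only [hc1, mul_sum]
      rw [sum_comm]
      refine sum_congr rfl fun τ _ => sum_congr rfl fun e _ => ?_
      ring
    rw [h1]
    refine sum_congr rfl fun τ _ => ?_
    rw [Ex_mu0_ind (fun p : PS V R => (p : ℕ)) τ]
  -- expansion of the sum
  have hsum : ∑ n ∈ Ioc 0 (NN L 0),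
      (wt L 0 n * FF (fun p : PS V R => (p : ℕ)) y (pat A B (PS V R) n) ^ 2)
        * ∏ p ∈ D, (if n % p ∈ C p then (1 : ℝ) else 0) =
      ∑ τ, c τ * ∑ n ∈ Ioc 0 (NN L 0) with
        (n ≡ ν τ [MOD dd (fun p : PS V R => (p : ℕ)) τ] ∧ ∀ p ∈ D, n % p ∈ C p), wt L 0 n := by
    simp only [hc1, mul_sum, sum_mul]
    rw [sum_comm]
    refine sum_congr rfl fun τ _ => ?_
    rw [sum_filter]
    refine sum_congr rfl fun n _ => ?_
    rw [hν2 τ n, prod_indicator, ite_and]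
    split_ifs
    all_goals first
      | exact alg_11 _ _
      | exact alg_10 _ _
      | exact alg_01 _ _
      | exact alg_00 _ _
  have hDprime : ∀ p ∈ D, p.Prime := fun p hp => (hDV p hp).1
  have hDpos : 0 < ∏ p ∈ D, p := prod_pos fun p hp => (hDprime p hp).pos
  -- the error of one label
  have hone : ∀ τ : PS V R → Option (Fin k), |c τ * ∑ n ∈ Ioc 0 (NN L 0) with
        (n ≡ ν τ [MOD dd (fun p : PS V R => (p : ℕ)) τ] ∧ ∀ p ∈ D, n % p ∈ C p), wt L 0 n -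
      (S * (c τ * (1 / (dd (fun p : PS V R => (p : ℕ)) τ : ℝ)))) * G| ≤
        |c τ| * (K * (C3 * Real.exp (-L / 2))) := by
    intro τ
    have hd : 0 < dd (fun p : PS V R => (p : ℕ)) τ := (Nat.zero_le _).trans_lt (hν1 τ)
    have hcopV : Nat.Coprime (dd (fun p : PS V R => (p : ℕ)) τ) V := TR10b.dd_coprime τ
    have hcop : ∀ p ∈ D, Nat.Coprime (dd (fun p : PS V R => (p : ℕ)) τ) p := fun p hp =>
      Nat.Coprime.coprime_dvd_right (hDV p hp).2 hcopV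
    set d := dd (fun p : PS V R => (p : ℕ)) τ with hdef
    rw [sum_classes d (ν τ) D C hd hDprime (Ioc 0 (NN L 0)) (wt L 0)]
    have hcard : (#(cls' d (ν τ) D C) : ℝ) = K := by
      rw [cls', card_classes C D hDprime hC d (ν τ) hd hcop, hK]
      push_cast
      rfl
    have hd0 : (d : ℝ) ≠ 0 := by exact_mod_cast hd.ne'
    have hmain : (S * (c τ * (1 / (d : ℝ)))) * G
        = c τ * ∑ _b ∈ cls' d (ν τ) D C, S / ((d * ∏ p ∈ D, p : ℕ) : ℝ) := by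
      rw [sum_const, nsmul_eq_mul, hcard, hG, prod_div_distrib, ← hK]
      have h1 : ((∏ p ∈ D, p : ℕ) : ℝ) ≠ 0 := by exact_mod_cast hDpos.ne'
      rw [Nat.cast_mul, Nat.cast_prod]
      rw [Nat.cast_prod] at h1
      exact alg_one _ _ _ _ _ hd0 h1
    rw [hmain, ← mul_sub, abs_mul, ← sum_sub_distrib]
    refine mul_le_mul_of_nonneg_left ?_ (abs_nonneg _)
    refine (abs_sum_le_sum_abs _ _).trans ?_
    refine (sum_le_sum fun b _ => (?_ : _ ≤ C3 * Real.exp (-L / 2))).trans ?_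
    · have := hequi L hL2 (d * ∏ p ∈ D, p) b (Nat.mul_pos hd hDpos)
      rw [← hS] at this
      exact this
    · rw [sum_const, nsmul_eq_mul, hcard]
  rw [hsum, hEx, mul_sum, sum_mul, ← sum_sub_distrib]
  refine (abs_sum_le_sum_abs _ _).trans ((sum_le_sum fun τ _ => hone τ).trans ?_)
  rw [← sum_mul]
  exact final_one hC3 hK0 (by linarith) hcs hLL

end Pool.Agent.helper80.MTR
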