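import Pool.Agent.helper80.MTR.S1
import Pool.Agent.helper35.MT.TR7
import Pool.Agent.helper39.MT.FI1

/-!
# The first sum: sieved upper bound
-/

set_option autoImplicit false

namespace Pool.Agent.helper80.MTR

open Finset Real ArithmeticFunction Pool.Agent.helper39.MT Pool.Agent.Lib.BrunHooley

/-- sets of primes are determined by their product -/
lemma prod_primes_inj {D D' : Finset ℕ} (h : ∀ p ∈ D, p.Prime) (h' : ∀ p ∈ D', p.Prime)
    (e : ∏ p ∈ D, p = ∏ p ∈ D', p) : D = D' := by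
  rw [← Nat.primeFactors_prod h, ← Nat.primeFactors_prod h', e]

/-- sums over sets of primes with small product -/
lemma sum_sets_le (κ : ℕ) : ∃ C : ℝ, 0 < C ∧ ∀ (P : Finset ℕ), (∀ p ∈ P, p.Prime) → ∀ M : ℕ,
    ∑ D ∈ P.powerset with ∏ p ∈ D, p ≤ M, (κ : ℝ) ^ #D ≤ C * (M : ℝ) ^ 2 := by
  classical
  obtain ⟨C, hC, homega⟩ := pow_omega_le κ
  refine ⟨C, hC, fun P hP M => ?_⟩
  have hinj : ∀ D ∈ P.powerset.filter (fun D => ∏ p ∈ D, p ≤ M),
      ∀ D' ∈ P.powerset.filter (fun D => ∏ p ∈ D, p ≤ M),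
      ∏ p ∈ D, p = ∏ p ∈ D', p → D = D' := by
    intro D hD D' hD' e
    rw [mem_filter, mem_powerset] at hD hD'
    exact prod_primes_inj (fun p hp => hP p (hD.1 hp)) (fun p hp => hP p (hD'.1 hp)) e
  have h1 : ∑ D ∈ P.powerset with ∏ p ∈ D, p ≤ M, (κ : ℝ) ^ #D
      = ∑ d ∈ (P.powerset.filter (fun D => ∏ p ∈ D, p ≤ M)).image (fun D => ∏ p ∈ D, p),
        (κ : ℝ) ^ d.primeFactors.card := by
    rw [sum_image hinj]
    refine sum_congr rfl fun D hD => ?_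
    rw [mem_filter, mem_powerset] at hD
    rw [Nat.primeFactors_prod fun p hp => hP p (hD.1 hp)]
  rw [h1]
  have hsub : (P.powerset.filter (fun D => ∏ p ∈ D, p ≤ M)).image (fun D => ∏ p ∈ D, p)
      ⊆ Icc 1 M := by
    intro d hd
    rw [mem_image] at hd
    obtain ⟨D, hD, rfl⟩ := hd
    rw [mem_filter, mem_powerset] at hD
    rw [mem_Icc]
    exact ⟨prod_pos fun p hp => (hP p (hD.1 hp)).pos, hD.2⟩
  refine (sum_le_sum_of_subset_of_nonneg hsub fun _ _ _ => by positivity).trans ?_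
  calc ∑ d ∈ Icc 1 M, (κ : ℝ) ^ d.primeFactors.card ≤ ∑ _d ∈ Icc 1 M, C * (M : ℝ) := by
        refine sum_le_sum fun d hd => ?_
        rw [mem_Icc] at hd
        refine (homega d (by omega)).trans (mul_le_mul_of_nonneg_left ?_ hC.le)
        have hd1 : (1 : ℝ) ≤ d := by exact_mod_cast hd.1
        calc (d : ℝ) ^ (1 / 4 : ℝ) ≤ (d : ℝ) ^ (1 : ℝ) :=
              Real.rpow_le_rpow_of_exponent_le hd1 (by norm_num)
          _ = d := Real.rpow_one _
          _ ≤ M := by exact_mod_cast hd.2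
    _ = C * (M : ℝ) ^ 2 := by
        rw [sum_const, Nat.card_Icc, nsmul_eq_mul, Nat.add_sub_cancel]
        ring

lemma primesLE_prime (z : ℕ) : ∀ p ∈ Nat.primesLE z, p.Prime := fun _ hp =>
  (Nat.mem_primesLE.1 hp).2

/-- the sieved first sum -/
theorem S1_sieve (κ k : ℕ) : ∃ B₀ : ℕ, ∃ L₁ : ℝ, ∀ L : ℝ, L₁ ≤ L →
    ∀ {D₀ W : ℕ} {A B : Fin k → ℕ}, Std k D₀ A B W → 4 * k + 4 ≤ D₀ →
    ∀ r : ℕ, (Z r : ℝ) ^ B₀ ≤ Real.exp (L / 240) →
    ∀ V : ℕ, W ∣ V → (∀ p : ℕ, p.Prime → p ≤ Z r → p ∣ V) → ∀ R : ℕ, 2 ≤ R →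
      (R : ℝ) ≤ Real.exp (L / 200) →
      ∀ y : (PS V R → Option (Fin k)) → ℝ, (∀ σ, |y σ| ≤ 1) →
      (∀ σ, y σ ≠ 0 → dd (fun p : PS V R => (p : ℕ)) σ ≤ R) →
      ∀ C : ℕ → Finset ℕ, (∀ p, p.Prime → ∀ c ∈ C p, c < p) → (∀ p, #(C p) ≤ κ) →
        (∀ p, p.Prime → #(C p) < p) →
      ∑ n ∈ Ioc 0 (NN L 0),
          (wt L 0 n * FF (fun p : PS V R => (p : ℕ)) y (pat A B (PS V R) n) ^ 2)
            * ∏ p ∈ Nat.primesLE (Z r), (1 - (if n % p ∈ C p then (1 : ℝ) else 0))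
        ≤ 2 * (L * Ex (fun p : PS V R => mu0 (p : ℝ))
            (fun e => FF (fun p : PS V R => (p : ℕ)) y e ^ 2))
            * ∏ p ∈ Nat.primesLE (Z r), (1 - (#(C p) : ℝ) / p) + Real.exp (-L / 4) := by
  classical
  obtain ⟨B₀, hB₀⟩ := bh_avg κ
  obtain ⟨L₁, hL₁⟩ := S1_D k
  obtain ⟨C4, hC4, hsets⟩ := sum_sets_le κ
  obtain ⟨L₂, hL₂⟩ := pow_le_exp_large C4 0 (δ := 1 / 20) (by norm_num)
  refine ⟨B₀, max 2 (max L₁ L₂), ?_⟩
  intro L hL D₀ W A B h hD r hZ V hWV hV R hR hRL y hy hyR C hC hCκ hCp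
  have hL2 : 2 ≤ L := (le_max_left _ _).trans hL
  have hL1 : L₁ ≤ L := ((le_max_left _ _).trans (le_max_right _ _)).trans hL
  have hLL := hL₂ L (((le_max_right _ _).trans (le_max_right _ _)).trans hL)
  have hE0 := fi1_Ex_nonneg (k := k) (R := R) (W := V) (D₀ := D₀) hD
    (fun p hp hpd => (h.small p hp hpd).trans hWV) y
  obtain ⟨E0, hE0def⟩ : ∃ E0 : ℝ, E0 = Ex (fun p : PS V R => mu0 (p : ℝ))
    (fun e => FF (fun p : PS V R => (p : ℕ)) y e ^ 2) := ⟨_, rfl⟩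
  obtain ⟨S, hS⟩ : ∃ S : ℝ, S = ∑ n ∈ Ioc 0 (NN L 0), wt L 0 n := ⟨_, rfl⟩
  have hS0 : 0 ≤ S := hS ▸ sum_nonneg fun n _ => wt_nonneg _ _ _
  have hSL : S ≤ L := hS ▸ wt_sum_le L hL2
  have hmain := (hB₀ r (Ioc 0 (NN L 0))
    (fun n => wt L 0 n * FF (fun p : PS V R => (p : ℕ)) y (pat A B (PS V R) n) ^ 2)
    (fun p n => if n % p ∈ C p then (1 : ℝ) else 0) (S * E0) (fun p => (#(C p) : ℝ) / p)
    (fun D => (κ : ℝ) ^ #D * Real.exp (-L / 3))
    (fun n _ => mul_nonneg (wt_nonneg _ _ _) (sq_nonneg _))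
    (fun p n _ => by split_ifs <;> norm_num) (fun p n _ => by split_ifs <;> norm_num)
    (mul_nonneg hS0 (hE0def ▸ hE0)) (fun p => by positivity)
    (fun p => ?_) (fun p hp => ?_) (fun D => by positivity) (fun D hD _ => ?_)).2
  · refine hmain.trans (add_le_add ?_ ?_)
    · have hprod : 0 ≤ ∏ p ∈ Nat.primesLE (Z r), (1 - (#(C p) : ℝ) / p) := by
        refine prod_nonneg fun p hp => ?_
        have hpp := primesLE_prime _ p hp
        rw [sub_nonneg, div_le_one (by exact_mod_cast hpp.pos)]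
        exact_mod_cast (hCp p hpp).le
      have h1 : S * E0 ≤ L * E0 := mul_le_mul_of_nonneg_right hSL (hE0def ▸ hE0)
      rw [← hE0def]
      exact mul_le_mul_of_nonneg_right (by linarith) hprod
    · rw [← sum_mul]
      have h1 := hsets (Nat.primesLE (Z r)) (primesLE_prime _) (Z r ^ B₀)
      have h2 : (((Z r ^ B₀ : ℕ) : ℝ)) ^ 2 ≤ Real.exp (L / 120) := by
        push_cast
        calc ((Z r : ℝ) ^ B₀) ^ 2 ≤ Real.exp (L / 240) ^ 2 :=
              pow_le_pow_left₀ (by positivity) hZ 2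
          _ = Real.exp (L / 120) := by rw [← Real.exp_nat_mul]; congr 1; push_cast; ring
      rw [pow_zero, mul_one] at hLL
      calc (∑ D ∈ (Nat.primesLE (Z r)).powerset with ∏ p ∈ D, p ≤ Z r ^ B₀, (κ : ℝ) ^ #D)
            * Real.exp (-L / 3)
          ≤ (Real.exp (1 / 20 * L) * Real.exp (L / 120)) * Real.exp (-L / 3) := by
            refine mul_le_mul_of_nonneg_right (h1.trans ?_) (Real.exp_pos _).le
            exact mul_le_mul hLL h2 (by positivity) (Real.exp_pos _).le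
        _ ≤ Real.exp (-L / 4) := by
            rw [← Real.exp_add, ← Real.exp_add]
            exact Real.exp_le_exp.2 (by linarith)
  · rcases Nat.eq_zero_or_pos p with h0 | h0
    · rw [h0]; simp
    · have : (p : ℝ) ≠ 0 := by exact_mod_cast h0.ne'
      rw [div_mul_cancel₀ _ this]
      exact_mod_cast hCκ p
  · rw [div_lt_one (by exact_mod_cast hp.pos)]
    exact_mod_cast hCp p hp
  · have hDp : ∀ p ∈ D, p.Prime ∧ p ∣ V := fun p hp => by
      have := Nat.mem_primesLE.1 (hD hp)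
      exact ⟨this.2, hV p this.2 this.1⟩
    have h1 := hL₁ L hL1 h ‹4 * k + 4 ≤ D₀› V hWV R hR hRL y hy hyR D C hDp
      (fun p hp => hC p (hDp p hp).1)
    rw [← hS, ← hE0def] at h1
    refine h1.trans (mul_le_mul_of_nonneg_right ?_ (Real.exp_pos _).le)
    rw [← prod_const]
    exact prod_le_prod (fun p _ => Nat.cast_nonneg _) fun p _ => by exact_mod_cast hCκ p

end Pool.Agent.helper80.MTR
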