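import Pool.Agent.helper80.MTR.S1b
import Pool.Agent.helper53.MT.TR11b
import Pool.Agent.helper83.MT.TR9

/-!
# The second sum with sieving primes
-/

set_option autoImplicit false

namespace Pool.Agent.helper80.MTR

open Finset Real ArithmeticFunction Pool.Agent.helper39.MT

section one

variable {k D₀ W V R : ℕ} {A B : Fin k → ℕ}

lemma dd_prime_of_dvd {P : Finset ℕ} (hP : ∀ p ∈ P, p.Prime) (τ : P → Option (Fin k)) {q : ℕ}
    (hq : q.Prime) (hqD : q ∣ dd (fun p : P => (p : ℕ)) τ) :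
    ∃ p : P, τ p ≠ none ∧ q = (p : ℕ) := by
  unfold dd at hqD
  obtain ⟨p, _, hp⟩ := (Prime.dvd_finsetProd_iff hq.prime _).1 hqD
  refine ⟨p, ?_, ?_⟩
  · intro h0
    rw [if_pos h0] at hp
    exact hq.one_lt.ne' (Nat.dvd_one.1 hp)
  · split_ifs at hp with h0
    · exact absurd (Nat.dvd_one.1 hp) hq.one_lt.ne'
    · exact (Nat.prime_dvd_prime_iff_eq hq (hP p p.2)).1 hp

lemma dvd_dd {P : Finset ℕ} (τ : P → Option (Fin k)) (p : P) (hp : τ p ≠ none) :
    (p : ℕ) ∣ dd (fun p : P => (p : ℕ)) τ := by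
  unfold dd
  have := dvd_prod_of_mem (fun p : P => if τ p = none then 1 else (p : ℕ)) (mem_univ p)
  simpa [hp] using this

/-- the classes are coprime to the modulus -/
lemma class_coprime (h : Std k D₀ A B W) (m : Fin k) {P : Finset ℕ}
    (hP : ∀ p ∈ P, p.Prime ∧ ¬ p ∣ W) (τ : P → Option (Fin k)) (hm : ¬ ∃ p, τ p = some m)
    {ν : ℕ} (hdiv : ∀ p i, τ p = some i → (p : ℕ) ∣ A i * ν + B i)
    {D : Finset ℕ} {Cs : ℕ → Finset ℕ} (hD : ∀ p ∈ D, p.Prime)
    (hCs : ∀ p ∈ D, ∀ c ∈ Cs p, ¬ p ∣ A m * c + B m) {b : ℕ}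
    (hb : b ∈ cls' (dd (fun p : P => (p : ℕ)) τ) ν D Cs) :
    Nat.Coprime (A m * b + B m) (A m * (dd (fun p : P => (p : ℕ)) τ * ∏ p ∈ D, p)) := by
  rw [mem_cls'] at hb
  obtain ⟨-, hb1, hb2⟩ := hb
  by_contra hcop
  obtain ⟨q, hq, h1, h2⟩ := Nat.Prime.not_coprime_iff_dvd.1 hcop
  rcases (Nat.Prime.dvd_mul hq).1 h2 with hqA | h3
  · have h4 : q ∣ B m := (Nat.dvd_add_right (hqA.mul_right b)).1 h1
    have h5 : q ∣ W := (h.dvdA m q hq).1 hqA
    have h6 := Nat.dvd_gcd h4 h5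
    rw [(h.cop m : Nat.gcd _ _ = 1)] at h6
    exact hq.one_lt.ne' (Nat.dvd_one.1 h6)
  rcases (Nat.Prime.dvd_mul hq).1 h3 with hqD | hqD
  · obtain ⟨p, hp0, rfl⟩ := dd_prime_of_dvd (fun p hp => (hP p hp).1) τ hq hqD
    obtain ⟨i, hi⟩ := Option.ne_none_iff_exists'.1 hp0
    have him : i ≠ m := fun h' => hm ⟨p, by rw [hi, h']⟩
    have h2 : (p : ℕ) ∣ A i * b + B i := by
      have h2 : b ≡ ν [MOD (p : ℕ)] := hb1.of_dvd (dvd_dd τ p hp0)
      have h3 : A i * b + B i ≡ A i * ν + B i [MOD (p : ℕ)] :=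
        Nat.ModEq.add_right _ (Nat.ModEq.mul_left _ h2)
      exact (Nat.ModEq.dvd_iff h3 dvd_rfl).2 (hdiv p i hi)
    have h3 : ((p : ℕ) : ℤ) ∣ (A i : ℤ) * B m - (A m : ℤ) * B i := by
      have h4 : ((p : ℕ) : ℤ) ∣ (A i : ℤ) * ((A m : ℤ) * b + B m) := by
        refine Dvd.dvd.mul_left ?_ _
        exact_mod_cast h1
      have h5 : ((p : ℕ) : ℤ) ∣ (A m : ℤ) * ((A i : ℤ) * b + B i) := by
        refine Dvd.dvd.mul_left ?_ _
        exact_mod_cast h2
      have h6 := dvd_sub h4 h5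
      have h7 : (A i : ℤ) * ((A m : ℤ) * b + B m) - (A m : ℤ) * ((A i : ℤ) * b + B i) =
          (A i : ℤ) * B m - (A m : ℤ) * B i := by ring
      rwa [h7] at h6
    exact (hP p p.2).2 (h.det i m him p hq h3)
  · obtain ⟨p, hp, hqp⟩ := (Prime.dvd_finsetProd_iff hq.prime _).1 hqD
    have hqp' : q = p := (Nat.prime_dvd_prime_iff_eq hq (hD p hp)).1 hqp
    subst hqp'
    refine hCs q hp (b % q) (hb2 q hp) ?_
    have h4 : A m * (b % q) + B m ≡ A m * b + B m [MOD q] :=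
      Nat.ModEq.add_right _ (Nat.ModEq.mul_left _ (Nat.mod_modEq b q))
    exact (Nat.ModEq.dvd_iff h4 dvd_rfl).2 h1

end one

/-- one residue class -/
lemma S2_class {A B : ℕ} (hA : 0 < A) : ∃ C L₁ : ℝ, 0 < C ∧ ∀ L : ℝ, L₁ ≤ L → ∀ d b : ℕ,
    |∑ n ∈ Ioc 0 (NN L 0) with n ≡ b [MOD d], wt L 0 n * vonMangoldt (A * n + B)
      - A * ((∑ N ∈ Ioc 0 (NN L (Real.log A)), vonMangoldt N * wt L (Real.log A) N)
        / (Nat.totient (A * d) : ℝ))| ≤ A * EE A L d (A * b + B) + C * Real.exp (-L / 5) := by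
  obtain ⟨C₂, L₂, hC₂, H₂⟩ := wt_shift A B hA
  obtain ⟨C₃, hC₃, H₃⟩ := TR9.shift_error (A := A) (B := B) hA hC₂
  refine ⟨C₃, max L₂ (max 1 (2 * (B : ℝ))), hC₃, ?_⟩
  intro L hL d b
  have hL2 : L₂ ≤ L := (le_max_left _ _).trans hL
  have hL3 : 1 ≤ L := (le_max_left _ _).trans ((le_max_right _ _).trans hL)
  have hL4 : 2 * (B : ℝ) ≤ L := (le_max_right _ _).trans ((le_max_right _ _).trans hL)
  have hL0 : 0 < L := by linarith
  have hA0' : (0 : ℝ) < A := by exact_mod_cast hA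
  have hBL : (B : ℝ) < Real.exp (L / 2) := by
    have := Real.add_one_le_exp (L / 2)
    linarith
  obtain ⟨S, hS⟩ : ∃ S : ℝ, S = ∑ N ∈ Ioc 0 (NN L (Real.log A)), vonMangoldt N *
    wt L (Real.log A) N := ⟨_, rfl⟩
  obtain ⟨Sb, hSb⟩ : ∃ Sb : ℝ, Sb = ∑ N ∈ Ioc 0 (NN L (Real.log A)) with
    N ≡ A * b + B [MOD A * d], vonMangoldt N * wt L (Real.log A) N := ⟨_, rfl⟩
  have hEEdef : EE A L d (A * b + B) = |Sb - S / (Nat.totient (A * d) : ℝ)| := by
    rw [hSb, hS]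
    rfl
  have hre := TR9.sum_reindex (A := A) (B := B) (D := d) (ν := b) hA hL0 hBL
    (fun N => vonMangoldt N)
  have hdiff : |∑ n ∈ Ioc 0 (NN L 0) with n ≡ b [MOD d],
      wt L 0 n * vonMangoldt (A * n + B) - A * Sb| ≤ C₃ * Real.exp (-L / 5) := by
    rw [hSb, ← hre, mul_sum, ← sum_sub_distrib]
    refine (abs_sum_le_sum_abs _ _).trans ?_
    refine le_trans ?_ (H₃ L hL3 (NN L 0) ?_)
    · refine (sum_le_sum_of_subset_of_nonneg (filter_subset _ _)
        fun _ _ _ => abs_nonneg _).trans ?_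
      refine sum_le_sum fun n hn => ?_
      have h1 := H₂ L hL2 n (mem_Ioc.1 hn).1
      have hΛ : 0 ≤ vonMangoldt (A * n + B) := vonMangoldt_nonneg
      have h2 : wt L 0 n * vonMangoldt (A * n + B) -
          A * (vonMangoldt (A * n + B) * wt L (Real.log A) (A * n + B)) =
          vonMangoldt (A * n + B) *
            (wt L 0 n - A * wt L (Real.log A) (A * n + B)) := by ring
      rw [h2, abs_mul, abs_of_nonneg hΛ]
      exact mul_le_mul_of_nonneg_left h1 hΛ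
    · unfold NN
      rw [add_zero]
      exact Nat.floor_le (Real.exp_pos _).le
  rw [← hS, hEEdef]
  have hfin := abs_sub_le (∑ n ∈ Ioc 0 (NN L 0) with n ≡ b [MOD d],
    wt L 0 n * vonMangoldt (A * n + B)) (A * Sb) (A * (S / (Nat.totient (A * d) : ℝ)))
  have habs : |A * Sb - A * (S / (Nat.totient (A * d) : ℝ))| =
      A * |Sb - S / (Nat.totient (A * d) : ℝ)| := by
    rw [← mul_sub, abs_mul, abs_of_pos hA0']
  rw [habs] at hfin
  linarith

lemma alg_S2 {X S a ta td tP N K P : ℝ} (hX : a / ta = X) (hta : ta ≠ 0) (htd : td ≠ 0) (hP : P ≠ 0)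
    (hN : N = K) (htP : tP = ta * (td * P)) :
    X * S * (1 / td) * (K / P) = N * (a * (S / tP)) := by
  rw [← hX, hN, htP]
  field_simp

/-- the sum over `n` for one label and one set of sieving primes, form `m` prime -/
theorem S2_one {k D₀ W : ℕ} {A B : Fin k → ℕ} (h : Std k D₀ A B W) (m : Fin k) {κ : ℕ}
    (hκ : 1 ≤ κ) :
    ∃ C L₁ : ℝ, 0 < C ∧ ∀ L : ℝ, L₁ ≤ L → ∀ V : ℕ, W ∣ V → ∀ R : ℕ,
      (R : ℝ) ≤ Real.exp (L / 200) →
      ∀ τ : PS V R → Option (Fin k), dd (fun p : PS V R => (p : ℕ)) τ ≤ R ^ 2 →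
      ∀ (D : Finset ℕ) (Cs : ℕ → Finset ℕ), (∀ p ∈ D, p.Prime ∧ p ∣ V ∧ ¬ p ∣ W) →
        (∀ p ∈ D, ∀ c ∈ Cs p, c < p ∧ ¬ p ∣ A m * c + B m) → (∀ p ∈ D, #(Cs p) ≤ κ) →
      ∀ E : ℝ, 0 ≤ E →
        (∀ b, Nat.Coprime b (A m * (dd (fun p : PS V R => (p : ℕ)) τ * ∏ p ∈ D, p)) →
          EE (A m) L (dd (fun p : PS V R => (p : ℕ)) τ * ∏ p ∈ D, p) b ≤ E) →
      |∑ n ∈ Ioc 0 (NN L 0), wt L 0 n * vonMangoldt (A m * n + B m) *
          ind τ (pat A B (PS V R) n) * ∏ p ∈ D, (if n % p ∈ Cs p then (1 : ℝ) else 0)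
        - (W : ℝ) / Nat.totient W * (∑ N ∈ Ioc 0 (NN L (Real.log (A m))), vonMangoldt N *
            wt L (Real.log (A m)) N) *
            Ex (fun p : PS V R => mu1 m (p : ℝ)) (ind τ) * ∏ p ∈ D, ((#(Cs p) : ℝ) / (p - 1))|
      ≤ (κ : ℝ) ^ #D * (A m * E + C * Real.exp (-L / 5)) := by
  classical
  obtain ⟨C₁, L₁, hC₁, H₁⟩ := prime_powers (A m) (B m) (h.Apos m)
  obtain ⟨C₂, L₂, hC₂, H₂⟩ := S2_class (A := A m) (B := B m) (h.Apos m)
  refine ⟨C₁ + C₂, max (max L₁ L₂) (max 1 (2 * (B m : ℝ))), by positivity, ?_⟩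
  intro L hL V hWV R hR τ hτ D Cs hD hCs hCκ E hE hEE
  have hL1 : L₁ ≤ L := (le_max_left _ _).trans ((le_max_left _ _).trans hL)
  have hL2 : L₂ ≤ L := (le_max_right _ _).trans ((le_max_left _ _).trans hL)
  have hL3 : 1 ≤ L := (le_max_left _ _).trans ((le_max_right _ _).trans hL)
  have hL0 : 0 < L := by linarith
  have hA0 : 0 < A m := h.Apos m
  have hA0' : (0 : ℝ) < A m := by exact_mod_cast hA0
  have hexp : 0 < Real.exp (-L / 5) := Real.exp_pos _
  have hP : ∀ p ∈ PS V R, p.Prime ∧ ¬ p ∣ W := fun p hp =>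
    ⟨(mem_PS.1 hp).2.1, fun hd => (mem_PS.1 hp).2.2 (hd.trans hWV)⟩
  obtain ⟨ν, hν, hind, hdiv⟩ := ind_patP h hP τ
  have hpr : ∀ p : PS V R, ((fun p : PS V R => (p : ℕ)) p).Prime := fun p => (mem_PS.1 p.2).2.1
  have hinj : Function.Injective (fun p : PS V R => (p : ℕ)) := fun _ _ h => Subtype.ext h
  have hEx := TR9.Ex_mu1 m (fun p : PS V R => (p : ℕ)) hpr hinj τ
  have hκ1 : (1 : ℝ) ≤ κ := by exact_mod_cast hκ
  have hκp : (1 : ℝ) ≤ (κ : ℝ) ^ #D := one_le_pow₀ hκ1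
  have hDprime : ∀ p ∈ D, p.Prime := fun p hp => (hD p hp).1
  have hcopV : Nat.Coprime (dd (fun p : PS V R => (p : ℕ)) τ) V := TR10b.dd_coprime τ
  have hlhs : ∑ n ∈ Ioc 0 (NN L 0), wt L 0 n * vonMangoldt (A m * n + B m) *
      ind τ (pat A B (PS V R) n) * ∏ p ∈ D, (if n % p ∈ Cs p then (1 : ℝ) else 0)
      = ∑ n ∈ Ioc 0 (NN L 0) with (n ≡ ν [MOD dd (fun p : PS V R => (p : ℕ)) τ] ∧
        ∀ p ∈ D, n % p ∈ Cs p), wt L 0 n * vonMangoldt (A m * n + B m) := by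
    rw [sum_filter]
    refine sum_congr rfl fun n _ => ?_
    rw [hind, prod_indicator, ite_and]
    split_ifs <;> simp
  rw [hlhs]
  by_cases hm : ∃ p, τ p = some m
  · rw [hEx, if_pos hm, mul_zero, zero_mul, sub_zero]
    obtain ⟨p, hp⟩ := hm
    have hnn : ∀ n ∈ (Ioc 0 (NN L 0)).filter (fun n =>
        (n ≡ ν [MOD dd (fun p : PS V R => (p : ℕ)) τ] ∧ ∀ p ∈ D, n % p ∈ Cs p)),
        0 ≤ wt L 0 n * vonMangoldt (A m * n + B m) := fun n _ =>
      mul_nonneg (TR9.wt_nn _ _ _) vonMangoldt_nonneg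
    rw [abs_of_nonneg (sum_nonneg hnn)]
    have hle : ∑ n ∈ Ioc 0 (NN L 0) with (n ≡ ν [MOD dd (fun p : PS V R => (p : ℕ)) τ] ∧
        ∀ p ∈ D, n % p ∈ Cs p), wt L 0 n * vonMangoldt (A m * n + B m) ≤
        ∑ n ∈ Ioc 0 (NN L 0) with ¬ (A m * n + B m).Prime,
          wt L 0 n * vonMangoldt (A m * n + B m) := by
      rw [sum_filter, sum_filter]
      refine sum_le_sum fun n hn => ?_
      have hw := TR9.wt_nn L 0 n
      have hΛ : 0 ≤ vonMangoldt (A m * n + B m) := vonMangoldt_nonneg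
      rw [ite_and]
      by_cases hmod : n ≡ ν [MOD dd (fun p : PS V R => (p : ℕ)) τ]
      · rw [if_pos hmod]
        by_cases hprime : (A m * n + B m).Prime
        · rw [if_neg (show ¬ ¬ (A m * n + B m).Prime by simpa using hprime)]
          refine le_of_eq ?_
          have h1 : (p : ℕ) ∣ A m * n + B m := by
            have h2 : n ≡ ν [MOD (p : ℕ)] := hmod.of_dvd (dvd_dd τ p (by simp [hp]))
            have h3 : A m * n + B m ≡ A m * ν + B m [MOD (p : ℕ)] :=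
              Nat.ModEq.add_right _ (Nat.ModEq.mul_left _ h2)
            exact (Nat.ModEq.dvd_iff h3 dvd_rfl).2 (hdiv p m hp)
          have h2 : (p : ℕ) = A m * n + B m :=
            (Nat.prime_dvd_prime_iff_eq (mem_PS.1 p.2).2.1 hprime).1 h1
          have h3 : (n : ℝ) ≤ Real.exp (L / 2 + 0) := by
            have h4 : n ≤ R := by
              have h5 := (mem_PS.1 p.2).1
              have h6 : n ≤ A m * n := Nat.le_mul_of_pos_left n hA0
              omega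
            have h7 : (n : ℝ) ≤ R := by exact_mod_cast h4
            refine h7.trans (hR.trans (Real.exp_le_exp.2 (by linarith)))
          rw [TR9.wt_zero_left hL0 h3, zero_mul]
          split_ifs <;> rfl
        · rw [if_pos hprime]
          split_ifs
          · exact le_rfl
          · positivity
      · rw [if_neg hmod]
        split_ifs <;> positivity
    have hH1 := H₁ L hL1
    have h3 : C₁ * Real.exp (-L / 5) ≤ A m * E + (C₁ + C₂) * Real.exp (-L / 5) := by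
      have : 0 ≤ A m * E := mul_nonneg hA0'.le hE
      nlinarith
    refine (hle.trans (hH1.trans h3)).trans ?_
    exact le_mul_of_one_le_left (by positivity) hκp
  · obtain ⟨d, hdef⟩ : ∃ d, d = dd (fun p : PS V R => (p : ℕ)) τ := ⟨_, rfl⟩
    have hcl : ∀ b ∈ cls' d ν D Cs, Nat.Coprime (A m * b + B m) (A m * (d * ∏ p ∈ D, p)) := by
      intro b hb
      rw [hdef] at hb ⊢
      exact class_coprime h m hP τ hm hdiv hDprime (fun p hp c hc => (hCs p hp c hc).2) hb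
    have hAd : Nat.Coprime (A m) d := by
      by_contra hcop
      obtain ⟨q, hq, h1, h2⟩ := Nat.Prime.not_coprime_iff_dvd.1 hcop
      rw [hdef] at h2
      obtain ⟨p, _, rfl⟩ := dd_prime_of_dvd (fun p hp => (hP p hp).1) τ hq h2
      exact (hP p p.2).2 ((h.dvdA m p hq).1 h1)
    rw [← hdef] at hEE hν hcopV ⊢
    have hd0 : 0 < d := by omega
    have hcop : ∀ p ∈ D, Nat.Coprime d p := fun p hp =>
      Nat.Coprime.coprime_dvd_right (hD p hp).2.1 hcopV
    have hcard : (#(cls' d ν D Cs) : ℝ) = ∏ p ∈ D, (#(Cs p) : ℝ) := by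
      rw [cls', card_classes Cs D hDprime (fun p hp c hc => (hCs p hp c hc).1) d ν hd0 hcop]
      push_cast
      rfl
    have hdD : Nat.Coprime d (∏ p ∈ D, p) := Nat.Coprime.prod_right fun p hp => hcop p hp
    have hAD : Nat.Coprime (A m) (∏ p ∈ D, p) := Nat.Coprime.prod_right fun p hp => by
      refine ((Nat.Prime.coprime_iff_not_dvd (hDprime p hp)).2 ?_).symm
      intro hpA
      exact (hD p hp).2.2 ((h.dvdA m p (hDprime p hp)).1 hpA)
    have htot : Nat.totient (A m * (d * ∏ p ∈ D, p))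
        = Nat.totient (A m) * (Nat.totient d * ∏ p ∈ D, (p - 1)) := by
      rw [Nat.totient_mul (Nat.Coprime.mul_right hAd hAD), Nat.totient_mul hdD]
      congr 2
      clear hdD hAD hcard hcop hcl hlhs hCκ hEE
      have : ∀ D' ⊆ D, Nat.totient (∏ p ∈ D', p) = ∏ p ∈ D', (p - 1) := by
        intro D'
        induction D' using Finset.induction_on with
        | empty => intro _; simp
        | insert q D' hq ih =>
          intro hsub
          have hsub' : D' ⊆ D := fun x hx => hsub (mem_insert_of_mem hx)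
          rw [prod_insert hq, prod_insert hq, Nat.totient_mul, ih hsub',
            Nat.totient_prime (hDprime q (hsub (mem_insert_self _ _)))]
          refine Nat.Coprime.prod_right fun p hp => ?_
          exact (Nat.coprime_primes (hDprime q (hsub (mem_insert_self _ _)))
            (hDprime p (hsub' hp))).2 fun e => hq (e ▸ hp)
      exact this D (Subset.refl _)
    have hratio := TR9.totient_ratio hA0 h.Wpos (h.dvdA m)
    obtain ⟨S, hS⟩ : ∃ S : ℝ, S = ∑ N ∈ Ioc 0 (NN L (Real.log (A m))), vonMangoldt N *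
      wt L (Real.log (A m)) N := ⟨_, rfl⟩
    obtain ⟨X, hX⟩ : ∃ X : ℝ, X = (W : ℝ) / Nat.totient W := ⟨_, rfl⟩
    rw [hEx, if_neg hm, ← hS, ← hX, ← hdef,
      sum_classes d ν D Cs hd0 hDprime (Ioc 0 (NN L 0))
        (fun n => wt L 0 n * vonMangoldt (A m * n + B m))]
    have hcast : ((∏ p ∈ D, (p - 1) : ℕ) : ℝ) = ∏ p ∈ D, ((p : ℝ) - 1) := by
      push_cast
      refine prod_congr rfl fun p hp => ?_
      rw [Nat.cast_sub (hDprime p hp).one_lt.le, Nat.cast_one]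
    have hPne : ∏ p ∈ D, ((p : ℝ) - 1) ≠ 0 := by
      refine prod_ne_zero_iff.2 fun p hp => ?_
      have : (1 : ℝ) < p := by exact_mod_cast (hDprime p hp).one_lt
      linarith
    have hmain : X * S * (1 / (Nat.totient d : ℝ)) * ∏ p ∈ D, ((#(Cs p) : ℝ) / (p - 1))
        = ∑ _b ∈ cls' d ν D Cs, A m * (S / (Nat.totient (A m * (d * ∏ p ∈ D, p)) : ℝ)) := by
      rw [sum_const, nsmul_eq_mul, prod_div_distrib]
      refine alg_S2 (hX ▸ hratio) ?_ ?_ hPne hcard ?_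
      · exact_mod_cast (Nat.totient_pos.2 hA0).ne'
      · exact_mod_cast (Nat.totient_pos.2 hd0).ne'
      · rw [htot, Nat.cast_mul, Nat.cast_mul, hcast]
    rw [hmain, ← sum_sub_distrib]
    refine (abs_sum_le_sum_abs _ _).trans ?_
    refine (sum_le_sum fun b hb => (?_ : _ ≤ A m * E + (C₁ + C₂) * Real.exp (-L / 5))).trans ?_
    · have h1 := H₂ L hL2 (d * ∏ p ∈ D, p) b
      rw [← hS] at h1
      have h2 := hEE _ (hcl b hb)
      have h3 : (A m : ℝ) * EE (A m) L (d * ∏ p ∈ D, p) (A m * b + B m) ≤ A m * E :=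
        mul_le_mul_of_nonneg_left h2 hA0'.le
      have h4 : 0 ≤ C₁ * Real.exp (-L / 5) := by positivity
      linarith
    · rw [sum_const, nsmul_eq_mul, hcard]
      refine mul_le_mul_of_nonneg_right ?_ (by positivity)
      rw [← prod_const]
      exact prod_le_prod (fun p _ => Nat.cast_nonneg _) fun p hp => by exact_mod_cast hCκ p hp

end Pool.Agent.helper80.MTR
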