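import Pool.Agent.helper80.MTR.S2

/-!
# The second sum: one set of sieving primes
-/

set_option autoImplicit false

namespace Pool.Agent.helper80.MTR

open Finset Real ArithmeticFunction Pool.Agent.helper39.MT

/-- sums over pairs of a set of primes dividing `V` and an integer prime to `V` -/
lemma pair_sum {P : Finset ℕ} {V W : ℕ} (hP : ∀ p ∈ P, p.Prime ∧ p ∣ V) (hWV : W ∣ V) (κ t M N : ℕ)
    (F : ℕ → ℝ) (hF : ∀ d, 0 ≤ F d) :
    ∑ D ∈ P.powerset with (∏ p ∈ D, p ≤ M ∧ ∀ p ∈ D, ¬ p ∣ W), (κ : ℝ) ^ #D *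
      ∑ d ∈ Icc 1 N with Squarefree d ∧ Nat.Coprime d V,
        (t : ℝ) ^ d.primeFactors.card * F (d * ∏ p ∈ D, p)
    ≤ ∑ d ∈ Icc 1 (N * M) with Squarefree d ∧ Nat.Coprime d W,
        ((max κ t : ℕ) : ℝ) ^ d.primeFactors.card * F d := by
  classical
  set S1 := P.powerset.filter (fun D => ∏ p ∈ D, p ≤ M ∧ ∀ p ∈ D, ¬ p ∣ W) with hS1
  set S2 := (Icc 1 N).filter (fun d => Squarefree d ∧ Nat.Coprime d V) with hS2
  simp_rw [mul_sum]
  rw [← sum_product']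
  have hDp : ∀ D ∈ S1, ∀ p ∈ D, p.Prime ∧ p ∣ V ∧ ¬ p ∣ W := by
    intro D hD p hp
    rw [hS1, mem_filter, mem_powerset] at hD
    exact ⟨(hP p (hD.1 hp)).1, (hP p (hD.1 hp)).2, hD.2.2 p hp⟩
  have hpf : ∀ D ∈ S1, ∀ d ∈ S2, (d * ∏ p ∈ D, p).primeFactors.filter (fun p => p ∣ V) = D := by
    intro D hD d hd
    rw [hS2, mem_filter, mem_Icc] at hd
    have hd0 : d ≠ 0 := by omega
    have hD0 : ∏ p ∈ D, p ≠ 0 := prod_ne_zero_iff.2 fun p hp => (hDp D hD p hp).1.ne_zero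
    rw [Nat.primeFactors_mul hd0 hD0, Nat.primeFactors_prod fun p hp => (hDp D hD p hp).1]
    ext p
    rw [mem_filter, mem_union]
    constructor
    · rintro ⟨h1 | h1, h2⟩
      · exfalso
        have h3 := Nat.prime_of_mem_primeFactors h1
        have h4 := Nat.dvd_gcd (Nat.dvd_of_mem_primeFactors h1) h2
        rw [(hd.2.2 : Nat.gcd _ _ = 1)] at h4
        exact h3.one_lt.ne' (Nat.dvd_one.1 h4)
      · exact h1
    · intro h1
      exact ⟨Or.inr h1, (hDp D hD p h1).2.1⟩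
  have hinj : ∀ x ∈ S1 ×ˢ S2, ∀ x' ∈ S1 ×ˢ S2, x.2 * ∏ p ∈ x.1, p = x'.2 * ∏ p ∈ x'.1, p →
      x = x' := by
    rintro ⟨D, d⟩ hx ⟨D', d'⟩ hx' e
    rw [mem_product] at hx hx'
    have h1 := hpf D hx.1 d hx.2
    have h2 := hpf D' hx'.1 d' hx'.2
    simp only at e
    rw [e, h2] at h1
    subst h1
    have hD0 : 0 < ∏ p ∈ D', p := prod_pos fun p hp => (hDp D' hx'.1 p hp).1.pos
    have : d = d' := Nat.eq_of_mul_eq_mul_right hD0 e
    rw [this]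
  have hcop : ∀ D ∈ S1, ∀ d ∈ S2, Nat.Coprime d (∏ p ∈ D, p) := by
    intro D hD d hd
    rw [hS2, mem_filter] at hd
    exact Nat.Coprime.prod_right fun p hp =>
      Nat.Coprime.coprime_dvd_right (hDp D hD p hp).2.1 hd.2.2
  have hsub : (S1 ×ˢ S2).image (fun x => x.2 * ∏ p ∈ x.1, p) ⊆
      (Icc 1 (N * M)).filter (fun d => Squarefree d ∧ Nat.Coprime d W) := by
    intro e he
    rw [mem_image] at he
    obtain ⟨⟨D, d⟩, hx, rfl⟩ := he
    rw [mem_product] at hx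
    have hc := hcop D hx.1 d hx.2
    have hD' := hDp D hx.1
    have hx1 := hx.1
    have hx2 := hx.2
    rw [hS1, mem_filter] at hx1
    rw [hS2, mem_filter, mem_Icc] at hx2
    rw [mem_filter, mem_Icc]
    refine ⟨⟨?_, Nat.mul_le_mul hx2.1.2 hx1.2.1⟩, ?_, ?_⟩
    · exact Nat.mul_pos hx2.1.1 (prod_pos fun p hp => (hD' p hp).1.pos)
    · rw [Nat.squarefree_mul hc]
      refine ⟨hx2.2.1, Finset.squarefree_prod_of_pairwise_isCoprime ?_
        fun p hp => (hD' p hp).1.squarefree⟩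
      intro p hp q hq hpq
      exact Nat.coprime_iff_isRelPrime.1 ((Nat.coprime_primes (hD' p hp).1 (hD' q hq).1).2 hpq)
    · refine Nat.Coprime.mul_left (Nat.Coprime.coprime_dvd_right hWV hx2.2.2) ?_
      exact Nat.Coprime.prod_left fun p hp =>
        ((Nat.Prime.coprime_iff_not_dvd (hD' p hp).1).2 (hD' p hp).2.2)
  refine le_trans ?_ (sum_le_sum_of_subset_of_nonneg hsub fun d _ _ =>
    mul_nonneg (by positivity) (hF d))
  rw [sum_image hinj]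
  refine sum_le_sum fun x hx => ?_
  rw [mem_product] at hx
  have hcard : (x.2 * ∏ p ∈ x.1, p).primeFactors.card = x.2.primeFactors.card + #x.1 := by
    rw [(hcop x.1 hx.1 x.2 hx.2).primeFactors_mul,
      card_union_of_disjoint (hcop x.1 hx.1 x.2 hx.2).disjoint_primeFactors,
      Nat.primeFactors_prod fun p hp => (hDp x.1 hx.1 p hp).1]
  rw [hcard, pow_add, ← mul_assoc, mul_comm ((κ : ℝ) ^ #x.1)]
  refine mul_le_mul_of_nonneg_right ?_ (hF _)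
  refine mul_le_mul ?_ ?_ (by positivity) (by positivity)
  · exact pow_le_pow_left₀ (by positivity) (by exact_mod_cast le_max_right κ t) _
  · exact pow_le_pow_left₀ (by positivity) (by exact_mod_cast le_max_left κ t) _

lemma alg_S2D (c X S E G : ℝ) : X * S * (c * E) * G = c * (X * S * E * G) := by ring

lemma alg_S2E (w v c i g : ℝ) : w * v * (c * i) * g = c * (w * v * i * g) := by ring

/-- the second sum, for one set of sieving primes -/
theorem S2_D {k D₀ W : ℕ} {A B : Fin k → ℕ} (h : Std k D₀ A B W) (hD : 4 * k + 4 ≤ D₀)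
    (m : Fin k) {κ : ℕ} (hκ : 1 ≤ κ) :
    ∃ C C3 L₁ : ℝ, 0 < C ∧ 0 < C3 ∧ ∀ L : ℝ, L₁ ≤ L → ∀ V : ℕ, W ∣ V → ∀ R : ℕ, 2 ≤ R →
      (R : ℝ) ≤ Real.exp (L / 200) →
      ∀ y : (PS V R → Option (Fin k)) → ℝ, (∀ σ, |y σ| ≤ 1) →
      (∀ σ, y σ ≠ 0 → dd (fun p : PS V R => (p : ℕ)) σ ≤ R) →
      ∀ (D : Finset ℕ) (Cs : ℕ → Finset ℕ), (∀ p ∈ D, p.Prime ∧ p ∣ V ∧ ¬ p ∣ W) →
        (∀ p ∈ D, ∀ c ∈ Cs p, c < p ∧ ¬ p ∣ A m * c + B m) → (∀ p ∈ D, #(Cs p) ≤ κ) →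
      ∀ E : ℕ → ℝ, (∀ d, 0 ≤ E d) →
        (∀ d b, d ≠ 0 → d ≤ R ^ 2 → Squarefree d → Nat.Coprime d V →
          Nat.Coprime b (A m * (d * ∏ p ∈ D, p)) →
          EE (A m) L (d * ∏ p ∈ D, p) b ≤ E (d * ∏ p ∈ D, p)) →
      |∑ n ∈ Ioc 0 (NN L 0), (wt L 0 n * vonMangoldt (A m * n + B m) *
          FF (fun p : PS V R => (p : ℕ)) y (pat A B (PS V R) n) ^ 2) *
            ∏ p ∈ D, (if n % p ∈ Cs p then (1 : ℝ) else 0)
        - ((W : ℝ) / Nat.totient W * (∑ N ∈ Ioc 0 (NN L (Real.log (A m))), vonMangoldt N *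
            wt L (Real.log (A m)) N) *
            Ex (fun p : PS V R => mu1 m (p : ℝ))
              (fun e => FF (fun p : PS V R => (p : ℕ)) y e ^ 2)) *
            ∏ p ∈ D, ((#(Cs p) : ℝ) / (p - 1))|
      ≤ C3 * L ^ (2 * k) * ((κ : ℝ) ^ #D *
        ∑ d ∈ Icc 1 (R ^ 2) with Squarefree d ∧ Nat.Coprime d V,
          ((6 * k : ℕ) : ℝ) ^ d.primeFactors.card *
            (A m * E (d * ∏ p ∈ D, p) + C * Real.exp (-L / 5))) := by
  classical
  obtain ⟨C, L₁, hC, hone⟩ := S2_one h m hκ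
  obtain ⟨C3, hC3, hprod⟩ := prod_small k
  refine ⟨C, C3, max 2 L₁, hC, hC3, ?_⟩
  intro L hL V hWV R hR hRL y hy hyR D Cs hDV hCs hCκ E hE hEE
  have hL2 : 2 ≤ L := (le_max_left _ _).trans hL
  have hL1 : L₁ ≤ L := (le_max_right _ _).trans hL
  have hsmall : ∀ p : ℕ, p.Prime → p ≤ 4 * k + 4 → p ∣ V := fun p hp hle =>
    (h.small p hp (hle.trans hD)).trans hWV
  have hlarge : ∀ p : PS V R, 4 * k + 4 ≤ (p : ℕ) := by
    intro p
    by_contra hlt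
    exact (mem_PS.1 p.2).2.2 (hsmall p (mem_PS.1 p.2).2.1 (by omega))
  obtain ⟨c, hc1, hc2, hc3⟩ := FF_expand (fun p : PS V R => (p : ℕ)) hlarge y hy
  have hdd : ∀ τ, c τ ≠ 0 → dd (fun p : PS V R => (p : ℕ)) τ ≤ R ^ 2 := by
    intro τ hτ
    obtain ⟨σ, σ', h1, h2, h3⟩ := hc3 τ hτ
    refine (dd_le_mul _ (fun p => (mem_PS.1 p.2).2.1.one_le) τ σ σ' h3).trans ?_
    rw [pow_two]
    exact Nat.mul_le_mul (hyR σ h1) (hyR σ' h2)
  obtain ⟨S, hS⟩ : ∃ S : ℝ, S = ∑ N ∈ Ioc 0 (NN L (Real.log (A m))), vonMangoldt N *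
    wt L (Real.log (A m)) N := ⟨_, rfl⟩
  obtain ⟨X, hX⟩ : ∃ X : ℝ, X = (W : ℝ) / Nat.totient W := ⟨_, rfl⟩
  obtain ⟨G, hG⟩ : ∃ G : ℝ, G = ∏ p ∈ D, ((#(Cs p) : ℝ) / (p - 1)) := ⟨_, rfl⟩
  rw [← hS, ← hX, ← hG]
  obtain ⟨CP, hCP⟩ : ∃ CP : ℝ, CP = ∏ p : PS V R, (1 + (k : ℝ) / (((p : ℕ) : ℝ) - 1)) ^ 2 :=
    ⟨_, rfl⟩
  have hCP0 : 0 ≤ CP := hCP ▸ prod_nonneg fun p _ => sq_nonneg _
  have hCPle : CP ≤ C3 * L ^ (2 * k) := by
    rw [hCP]
    refine (hprod V R hR hsmall).trans (mul_le_mul_of_nonneg_left ?_ hC3.le)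
    have hR1 : (1 : ℝ) < R := by exact_mod_cast (by omega : 1 < R)
    have h1 : Real.log R ≤ L / 200 := by
      rw [Real.log_le_iff_le_exp (by linarith)]
      exact hRL
    exact pow_le_pow_left₀ (Real.log_nonneg hR1.le) (by linarith) _
  rw [← hCP] at hc2
  -- expansions
  have hsum : ∑ n ∈ Ioc 0 (NN L 0), (wt L 0 n * vonMangoldt (A m * n + B m) *
      FF (fun p : PS V R => (p : ℕ)) y (pat A B (PS V R) n) ^ 2) *
        ∏ p ∈ D, (if n % p ∈ Cs p then (1 : ℝ) else 0)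
      = ∑ τ, c τ * ∑ n ∈ Ioc 0 (NN L 0), wt L 0 n * vonMangoldt (A m * n + B m) *
          ind τ (pat A B (PS V R) n) * ∏ p ∈ D, (if n % p ∈ Cs p then (1 : ℝ) else 0) := by
    simp only [hc1, mul_sum, sum_mul]
    rw [sum_comm]
    exact sum_congr rfl fun τ _ => sum_congr rfl fun n _ => alg_S2E _ _ _ _ _
  have hEx : Ex (fun p : PS V R => mu1 m (p : ℝ))
      (fun e => FF (fun p : PS V R => (p : ℕ)) y e ^ 2)
      = ∑ τ, c τ * Ex (fun p : PS V R => mu1 m (p : ℝ)) (ind τ) := by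
    have : (fun e => FF (fun p : PS V R => (p : ℕ)) y e ^ 2) = fun e => ∑ τ, c τ * ind τ e := by
      funext e; exact hc1 e
    rw [this]
    exact TR11b.Ex_sum _ c ind
  rw [hsum, hEx, mul_sum, sum_mul, ← sum_sub_distrib]
  have herr : ∀ τ, |c τ * ∑ n ∈ Ioc 0 (NN L 0), wt L 0 n * vonMangoldt (A m * n + B m) *
          ind τ (pat A B (PS V R) n) * ∏ p ∈ D, (if n % p ∈ Cs p then (1 : ℝ) else 0)
        - X * S * (c τ * Ex (fun p : PS V R => mu1 m (p : ℝ)) (ind τ)) * G|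
      ≤ if dd (fun p : PS V R => (p : ℕ)) τ ≤ R ^ 2 then
          (CP * (κ : ℝ) ^ #D) * (((6 : ℕ) : ℝ) ^ (#{p | τ p ≠ none}) *
            (A m * E (dd (fun p : PS V R => (p : ℕ)) τ * ∏ p ∈ D, p) + C * Real.exp (-L / 5)))
        else 0 := by
    intro τ
    have hnn : 0 ≤ A m * E (dd (fun p : PS V R => (p : ℕ)) τ * ∏ p ∈ D, p)
        + C * Real.exp (-L / 5) := by
      have := hE (dd (fun p : PS V R => (p : ℕ)) τ * ∏ p ∈ D, p)
      positivity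
    by_cases hτ : c τ = 0
    · rw [hτ]
      simp only [zero_mul, mul_zero, sub_zero, abs_zero]
      split_ifs
      · positivity
      · exact le_rfl
    · have hle := hdd τ hτ
      rw [if_pos hle]
      have h1 := hone L hL1 V hWV R hRL τ hle D Cs hDV hCs hCκ
        (E (dd (fun p : PS V R => (p : ℕ)) τ * ∏ p ∈ D, p)) (hE _)
        (fun b hb => hEE _ b (TR10b.dd_pos τ).ne' hle (TR10b.dd_squarefree τ)
          (TR10b.dd_coprime τ) hb)
      rw [← hS, ← hX, ← hG] at h1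
      rw [alg_S2D, ← mul_sub, abs_mul]
      have h2 := mul_le_mul (hc2 τ) h1 (abs_nonneg _) (by positivity)
      refine h2.trans (le_of_eq ?_)
      push_cast
      ring
  refine (abs_sum_le_sum_abs _ _).trans ((sum_le_sum fun τ _ => herr τ).trans ?_)
  rw [← sum_filter, ← mul_sum]
  have h2 := sum_labels k V R (fun d => A m * E (d * ∏ p ∈ D, p) + C * Real.exp (-L / 5))
    (fun d => by
      have := hE (d * ∏ p ∈ D, p)
      positivity) 6
  obtain ⟨T, hT⟩ : ∃ T : ℝ, T = ∑ d ∈ Icc 1 (R ^ 2) with Squarefree d ∧ Nat.Coprime d V,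
      ((6 * k : ℕ) : ℝ) ^ d.primeFactors.card *
        (A m * E (d * ∏ p ∈ D, p) + C * Real.exp (-L / 5)) := ⟨_, rfl⟩
  rw [← hT] at h2 ⊢
  have hT0 : 0 ≤ T := hT ▸ sum_nonneg fun d _ => by
    have := hE (d * ∏ p ∈ D, p)
    positivity
  refine (mul_le_mul_of_nonneg_left h2 (by positivity)).trans ?_
  rw [mul_assoc]
  exact mul_le_mul_of_nonneg_right hCPle (by positivity)

end Pool.Agent.helper80.MTR
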