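import Pool.Agent.helper80.MTR.S2b
import Pool.Agent.helper99.MT.AN9

/-!
# The second sum: sieved lower bound
-/

set_option autoImplicit false

namespace Pool.Agent.helper80.MTR

open Finset Real ArithmeticFunction Pool.Agent.helper39.MT Pool.Agent.Lib.BrunHooley

/-- the residues in `C p` which are not roots of the form `m` -/
def Cm (C : ℕ → Finset ℕ) (a b : ℕ) (p : ℕ) : Finset ℕ := {c ∈ C p | ¬ p ∣ a * c + b}

lemma mem_Cm {C : ℕ → Finset ℕ} {a b p c : ℕ} : c ∈ Cm C a b p ↔ c ∈ C p ∧ ¬ p ∣ a * c + b := by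
  simp [Cm]

lemma card_Cm_le (C : ℕ → Finset ℕ) (a b p : ℕ) : #(Cm C a b p) ≤ #(C p) :=
  card_le_card (filter_subset _ _)

/-- the density of the second sum -/
noncomputable def gm (C : ℕ → Finset ℕ) (a b : ℕ) (p : ℕ) : ℝ :=
  if p.Prime then (#(Cm C a b p) : ℝ) / ((p : ℝ) - 1) else 0

lemma final_two (c₁ : ℝ) (K : ℕ) : ∃ L₁ : ℝ, ∀ L : ℝ, L₁ ≤ L →
    c₁ / L ^ (K + 2) + Real.exp (-L / 10) ≤ 1 / L ^ K := by
  obtain ⟨L₁, hL₁⟩ := pow_le_exp_large 2 K (δ := 1 / 10) (by norm_num)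
  refine ⟨max L₁ (max 1 (2 * |c₁|)), fun L hL => ?_⟩
  have h1 : L₁ ≤ L := (le_max_left _ _).trans hL
  have h2 : 1 ≤ L := (le_max_left _ _).trans ((le_max_right _ _).trans hL)
  have h3 : 2 * |c₁| ≤ L := (le_max_right _ _).trans ((le_max_right _ _).trans hL)
  have hL0 : 0 < L := by linarith
  have hLK : 0 < L ^ K := by positivity
  have h4 : Real.exp (-L / 10) ≤ 1 / 2 * (1 / L ^ K) := by
    have h5 := hL₁ L h1
    rw [show -L / 10 = -(1 / 10 * L) by ring, Real.exp_neg]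
    rw [← one_div, div_mul_div_comm, one_mul]
    exact one_div_le_one_div_of_le (by positivity) h5
  have h5 : c₁ / L ^ (K + 2) ≤ 1 / 2 * (1 / L ^ K) := by
    rw [div_le_iff₀ (by positivity)]
    have h6 : 1 / 2 * (1 / L ^ K) * L ^ (K + 2) = 1 / 2 * L ^ 2 := by
      rw [pow_add]; field_simp
    rw [h6]
    have h7 := le_abs_self c₁
    nlinarith [abs_nonneg c₁]
  linarith

/-- the number of levels is small -/
lemma level_le {r : ℕ} {L : ℝ} (hL : 4 ≤ L) (hZ : (Z r : ℝ) ≤ Real.exp (L / 240)) :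
    ((r : ℝ) + 2) ≤ L := by
  have h1 : ((r : ℝ)) + 1 ≤ 2 ^ r := by exact_mod_cast Nat.lt_two_pow_self (n := r)
  have h2 : (2 : ℝ) ^ r * Real.log 2 ≤ L / 240 := by
    have h3 := Real.log_le_log (by exact_mod_cast Z_pos r) hZ
    rw [Real.log_exp] at h3
    unfold Z at h3
    push_cast at h3
    rw [Real.log_pow] at h3
    push_cast at h3
    exact h3
  have h3 := Real.log_two_gt_d9
  have h4 : (0 : ℝ) < 2 ^ r := by positivity
  nlinarith

/-- the bound for the remainders -/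
lemma remainder_bound {k : ℕ} {C C3 C4 a L T T1 T2 : ℝ} (hL : 1 ≤ L) (K : ℕ) (hC : 0 < C)
    (hC3 : 0 < C3) (ha : 0 ≤ a)
    (hT1 : T1 ≤ 1 / L ^ (2 * k + K + 3)) (hT2 : T2 ≤ C4 * Real.exp (L / 30))
    (hT : T = C3 * L ^ (2 * k) * (a * T1 + C * Real.exp (-L / 5) * T2))
    (hlarge : C3 * C * C4 * L ^ (2 * k + 1) ≤ Real.exp (1 / 60 * L)) :
    L * T ≤ C3 * a / L ^ (K + 2) + Real.exp (-L / 8) := by
  have hL0 : 0 < L := by linarith
  have h1 : L * T ≤ L * (C3 * L ^ (2 * k) * (a * (1 / L ^ (2 * k + K + 3)) +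
      C * Real.exp (-L / 5) * (C4 * Real.exp (L / 30)))) := by
    rw [hT]
    refine mul_le_mul_of_nonneg_left ?_ hL0.le
    refine mul_le_mul_of_nonneg_left ?_ (by positivity)
    refine add_le_add (mul_le_mul_of_nonneg_left hT1 ha) ?_
    exact mul_le_mul_of_nonneg_left hT2 (by positivity)
  have h2 : L * (C3 * L ^ (2 * k) * (a * (1 / L ^ (2 * k + K + 3)) +
      C * Real.exp (-L / 5) * (C4 * Real.exp (L / 30))))
      = C3 * a / L ^ (K + 2) + (C3 * C * C4 * L ^ (2 * k + 1)) *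
        (Real.exp (-L / 5) * Real.exp (L / 30)) := by
    have e1 : L ^ (2 * k + K + 3) = L ^ (2 * k) * L * L ^ (K + 2) := by
      rw [← pow_succ, ← pow_add]; congr 1; ring
    rw [e1, pow_succ L (2 * k)]
    field_simp
  have h3 : (C3 * C * C4 * L ^ (2 * k + 1)) * (Real.exp (-L / 5) * Real.exp (L / 30))
      ≤ Real.exp (1 / 60 * L) * (Real.exp (-L / 5) * Real.exp (L / 30)) :=
    mul_le_mul_of_nonneg_right hlarge (by positivity)
  have h4 : Real.exp (1 / 60 * L) * (Real.exp (-L / 5) * Real.exp (L / 30))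
      ≤ Real.exp (-L / 8) := by
    rw [← Real.exp_add, ← Real.exp_add]
    exact Real.exp_le_exp.2 (by linarith)
  linarith

lemma sum_omega_sq (h : ℕ) : ∃ C : ℝ, 0 < C ∧ ∀ (W Q : ℕ),
    ∑ d ∈ Icc 1 Q with Squarefree d ∧ Nat.Coprime d W, (h : ℝ) ^ d.primeFactors.card
      ≤ C * (Q : ℝ) ^ 2 := by
  obtain ⟨C, hC, homega⟩ := pow_omega_le h
  refine ⟨C, hC, fun W Q => ?_⟩
  calc ∑ d ∈ Icc 1 Q with Squarefree d ∧ Nat.Coprime d W, (h : ℝ) ^ d.primeFactors.card
      ≤ ∑ d ∈ Icc 1 Q, (h : ℝ) ^ d.primeFactors.card :=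
        sum_le_sum_of_subset_of_nonneg (filter_subset _ _) fun _ _ _ => by positivity
    _ ≤ ∑ _d ∈ Icc 1 Q, C * (Q : ℝ) := by
        refine sum_le_sum fun d hd => ?_
        rw [mem_Icc] at hd
        refine (homega d (by omega)).trans (mul_le_mul_of_nonneg_left ?_ hC.le)
        have hd1 : (1 : ℝ) ≤ d := by exact_mod_cast hd.1
        calc (d : ℝ) ^ (1 / 4 : ℝ) ≤ (d : ℝ) ^ (1 : ℝ) :=
              Real.rpow_le_rpow_of_exponent_le hd1 (by norm_num)
          _ = d := Real.rpow_one _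
          _ ≤ Q := by exact_mod_cast hd.2
    _ = C * (Q : ℝ) ^ 2 := by
        rw [sum_const, Nat.card_Icc, nsmul_eq_mul, Nat.add_sub_cancel]
        ring

/-- the sieved second sum with the von Mangoldt function -/
theorem S2_sieveΛ (κ k : ℕ) (hκ : 1 ≤ κ) (K : ℕ) : ∃ B₀ C₀ : ℕ, ∀ {D₀ W : ℕ} {A B : Fin k → ℕ},
    Std k D₀ A B W → 4 * k + 4 ≤ D₀ → ∀ m : Fin k, ∃ c₁ L₁ : ℝ, ∀ L : ℝ, L₁ ≤ L → Good C₀ L →
    ∀ r : ℕ, (Z r : ℝ) ^ B₀ ≤ Real.exp (L / 240) → (Z r : ℝ) ≤ Real.exp (L / 240) →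
    ∀ V : ℕ, W ∣ V → (∀ p : ℕ, p.Prime → p ≤ Z r → p ∣ V) → ∀ R : ℕ, 2 ≤ R →
      (R : ℝ) ≤ Real.exp (L / 200) →
      ∀ y : (PS V R → Option (Fin k)) → ℝ, (∀ σ, |y σ| ≤ 1) →
      (∀ σ, y σ ≠ 0 → dd (fun p : PS V R => (p : ℕ)) σ ≤ R) →
      ∀ C : ℕ → Finset ℕ, (∀ p, p.Prime → ∀ c ∈ C p, c < p) → (∀ p, #(C p) ≤ κ) →
        (∀ p, p.Prime → #(C p) < p) → (∀ p, p.Prime → p ∣ W → C p = ∅) →
        (∀ p, p.Prime → ¬ p ∣ W → ∃ c ∈ C p, p ∣ A m * c + B m) →
      (W : ℝ) / Nat.totient W * (L / 10) * Ex (fun p : PS V R => mu1 m (p : ℝ))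
            (fun e => FF (fun p : PS V R => (p : ℕ)) y e ^ 2)
            * ∏ p ∈ Nat.primesLE (Z r), (1 - gm C (A m) (B m) p)
          - (c₁ / L ^ (K + 2) + Real.exp (-L / 8))
        ≤ ∑ n ∈ Ioc 0 (NN L 0),
          (wt L 0 n * vonMangoldt (A m * n + B m) *
            FF (fun p : PS V R => (p : ℕ)) y (pat A B (PS V R) n) ^ 2)
            * ∏ p ∈ Nat.primesLE (Z r),
              (1 - (if n % p ∈ Cm C (A m) (B m) p then (1 : ℝ) else 0)) := by
  classical
  obtain ⟨B₀, hB₀⟩ := bh_avg (2 * κ)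
  obtain ⟨C₀, hC₀⟩ := bv_log (2 * k + K + 3) (max κ (6 * k))
  obtain ⟨C4, hC4, hsq⟩ := sum_omega_sq (max κ (6 * k))
  refine ⟨B₀, C₀, ?_⟩
  intro D₀ W A B h hD m
  obtain ⟨Cc, C3, L₁, hCc, hC3, hS2⟩ := S2_D h hD m hκ
  obtain ⟨L₂, hbv⟩ := hC₀ (A m) (h.Apos m)
  obtain ⟨L₃, hL₃⟩ := pow_le_exp_large (C3 * Cc * C4) (2 * k + 1) (δ := 1 / 60) (by norm_num)
  obtain ⟨L₄, hL₄⟩ := Lam_wt_sum_ge (A m) (h.Apos m)
  refine ⟨C3 * A m, max 4 (max (max L₁ L₂) (max L₃ L₄)), ?_⟩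
  intro L hL hgood r hZ hZ1 V hWV hV R hR hRL y hy hyR C hC hCκ hCp hCW hCroot
  have hL4 : 4 ≤ L := (le_max_left _ _).trans hL
  have hLr := (le_max_right _ _).trans hL
  have hLa : L₁ ≤ L := ((le_max_left _ _).trans (le_max_left _ _)).trans hLr
  have hLb : L₂ ≤ L := ((le_max_right _ _).trans (le_max_left _ _)).trans hLr
  have hLc := hL₃ L (((le_max_left _ _).trans (le_max_right _ _)).trans hLr)
  obtain ⟨hLd, -⟩ := hL₄ L (((le_max_right _ _).trans (le_max_right _ _)).trans hLr)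
  obtain ⟨E, hE0, hE1, hE2⟩ := hbv L hLb hgood
  have hL0 : 0 < L := by linarith
  have hAm : (0 : ℝ) < A m := by exact_mod_cast h.Apos m
  -- the densities
  have hCmκ : ∀ p, #(Cm C (A m) (B m) p) ≤ κ := fun p => (card_Cm_le _ _ _ _).trans (hCκ p)
  have hCmlt : ∀ p, p.Prime → #(Cm C (A m) (B m) p) < p - 1 := by
    intro p hp
    by_cases hpW : p ∣ W
    · have : #(Cm C (A m) (B m) p) ≤ 0 := by
        refine (card_Cm_le _ _ _ _).trans ?_
        rw [hCW p hp hpW]; simp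
      have := hp.two_le
      omega
    · obtain ⟨c, hc, hcd⟩ := hCroot p hp hpW
      have h1 : #(Cm C (A m) (B m) p) < #(C p) := by
        refine card_lt_card ⟨filter_subset _ _, fun hsub => ?_⟩
        exact (mem_Cm.1 (hsub hc)).2 hcd
      have := hCp p hp
      omega
  have hg0 : ∀ p, 0 ≤ gm C (A m) (B m) p := by
    intro p
    unfold gm
    split_ifs with hp
    · have : (1 : ℝ) < p := by exact_mod_cast hp.one_lt
      exact div_nonneg (Nat.cast_nonneg _) (by linarith)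
    · exact le_rfl
  have hgκ : ∀ p : ℕ, gm C (A m) (B m) p * p ≤ ((2 * κ : ℕ) : ℝ) := by
    intro p
    unfold gm
    split_ifs with hp
    · have h2 : (2 : ℝ) ≤ p := by exact_mod_cast hp.two_le
      have h3 : (#(Cm C (A m) (B m) p) : ℝ) ≤ κ := by exact_mod_cast hCmκ p
      rw [div_mul_eq_mul_div, div_le_iff₀ (by linarith)]
      push_cast
      have h4 : (0 : ℝ) ≤ κ := Nat.cast_nonneg _
      nlinarith
    · rw [zero_mul]; positivity
  have hg1 : ∀ p, p.Prime → gm C (A m) (B m) p < 1 := by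
    intro p hp
    unfold gm
    rw [if_pos hp, div_lt_one (by have : (1 : ℝ) < p := by exact_mod_cast hp.one_lt
                                  linarith)]
    have h1 := hCmlt p hp
    have h2 : ((p - 1 : ℕ) : ℝ) = (p : ℝ) - 1 := by
      rw [Nat.cast_sub hp.one_lt.le, Nat.cast_one]
    rw [← h2]
    exact_mod_cast h1
  obtain ⟨S, hS⟩ : ∃ S : ℝ, S = ∑ N ∈ Ioc 0 (NN L (Real.log (A m))), vonMangoldt N *
    wt L (Real.log (A m)) N := ⟨_, rfl⟩
  rw [← hS] at hLd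
  obtain ⟨X, hX⟩ : ∃ X : ℝ, X = (W : ℝ) / Nat.totient W := ⟨_, rfl⟩
  have hX0 : 0 ≤ X := by rw [hX]; positivity
  have hpr : ∀ p : PS V R, 4 * k + 4 ≤ (p : ℕ) := by
    intro p
    by_contra hcon
    exact (mem_PS.1 p.2).2.2 ((h.small p (mem_PS.1 p.2).2.1 (by omega)).trans hWV)
  have hE1pos : 0 ≤ Ex (fun p : PS V R => mu1 m (p : ℝ))
      (fun e => FF (fun p : PS V R => (p : ℕ)) y e ^ 2) := by
    refine TR11b.Ex_nonneg (fun p e => ?_) (fun e => sq_nonneg _)
    have h1 : ((4 * k + 4 : ℕ) : ℝ) ≤ ((p : ℕ) : ℝ) := by exact_mod_cast hpr p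
    push_cast at h1
    have hk0 : (0 : ℝ) ≤ k := by positivity
    exact TR11b.mu1_nonneg m (by linarith) (by linarith) e
  obtain ⟨E1, hE1def⟩ : ∃ E1 : ℝ, E1 = Ex (fun p : PS V R => mu1 m (p : ℝ))
      (fun e => FF (fun p : PS V R => (p : ℕ)) y e ^ 2) := ⟨_, rfl⟩
  rw [← hE1def] at hE1pos
  rw [← hX, ← hE1def]
  set M : ℕ := Z r ^ B₀ with hM
  set G : Finset ℕ → ℝ := fun D => C3 * L ^ (2 * k) * ((κ : ℝ) ^ #D *
        ∑ d ∈ Icc 1 (R ^ 2) with Squarefree d ∧ Nat.Coprime d V,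
          ((6 * k : ℕ) : ℝ) ^ d.primeFactors.card *
            (A m * E (d * ∏ p ∈ D, p) + Cc * Real.exp (-L / 5))) with hG
  have hG0 : ∀ D, 0 ≤ G D := by
    intro D
    refine mul_nonneg (by positivity) (mul_nonneg (by positivity) (sum_nonneg fun d _ => ?_))
    have := hE0 (d * ∏ p ∈ D, p)
    positivity
  have hRM : ((R ^ 2 * M : ℕ) : ℝ) ≤ Real.exp (L / 60) := by
    push_cast
    calc (R : ℝ) ^ 2 * M ≤ Real.exp (L / 200) ^ 2 * Real.exp (L / 240) := by
          refine mul_le_mul (pow_le_pow_left₀ (Nat.cast_nonneg _) hRL 2) ?_ (Nat.cast_nonneg _)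
            (by positivity)
          rw [hM]; push_cast; exact hZ
      _ ≤ Real.exp (L / 60) := by
          rw [← Real.exp_nat_mul, ← Real.exp_add]
          exact Real.exp_le_exp.2 (by push_cast; linarith)
  have hcopA : ∀ d, Nat.Coprime d W → Nat.Coprime d (A m) := by
    intro d hd
    by_contra hcon
    obtain ⟨q, hq, hq1, hq2⟩ := Nat.Prime.not_coprime_iff_dvd.1 hcon
    have hq3 := (h.dvdA m q hq).1 hq2
    have := Nat.Coprime.eq_one_of_dvd (Nat.Coprime.coprime_dvd_left hq1 hd) hq3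
    exact hq.one_lt.ne' this
  have hmain := (hB₀ r (Ioc 0 (NN L 0))
    (fun n => wt L 0 n * vonMangoldt (A m * n + B m) *
      FF (fun p : PS V R => (p : ℕ)) y (pat A B (PS V R) n) ^ 2)
    (fun p n => if n % p ∈ Cm C (A m) (B m) p then (1 : ℝ) else 0) (X * S * E1)
    (gm C (A m) (B m))
    (fun D => if ∀ p ∈ D, ¬ p ∣ W then G D else 0)
    (fun n _ => mul_nonneg (mul_nonneg (wt_nonneg _ _ _) vonMangoldt_nonneg) (sq_nonneg _))
    (fun p n _ => by split_ifs <;> norm_num) (fun p n _ => by split_ifs <;> norm_num)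
    (mul_nonneg (mul_nonneg hX0 (by linarith)) hE1pos) hg0 hgκ hg1
    (fun D => by
      split_ifs
      · exact hG0 D
      · exact le_rfl) (fun D hDsub hDM => ?_)).1
  · refine le_trans ?_ hmain
    have hVpos : 0 ≤ ∏ p ∈ Nat.primesLE (Z r), (1 - gm C (A m) (B m) p) :=
      prod_nonneg fun p hp => by linarith [hg1 p (primesLE_prime _ p hp)]
    obtain ⟨V0, hV0⟩ : ∃ V0 : ℝ, V0 = ∏ p ∈ Nat.primesLE (Z r), (1 - gm C (A m) (B m) p) :=
      ⟨_, rfl⟩
    rw [← hV0] at hVpos ⊢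
    refine sub_le_sub ?_ ?_
    · have h1 : X * (L / 10) * E1 ≤ X * S * E1 / 2 := by
        have h2 : X * (L / 5) * E1 ≤ X * S * E1 :=
          mul_le_mul_of_nonneg_right (mul_le_mul_of_nonneg_left hLd hX0) hE1pos
        linarith
      exact mul_le_mul_of_nonneg_right h1 hVpos
    · have hlev := level_le hL4 hZ1
      have hpair := pair_sum (P := Nat.primesLE (Z r)) (V := V) (W := W) (fun p hp => by
        have := Nat.mem_primesLE.1 hp
        exact ⟨this.2, hV p this.2 this.1⟩) hWV κ (6 * k) M (R ^ 2)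
        (fun d => A m * E d + Cc * Real.exp (-L / 5)) (fun d => by
          have := hE0 d
          positivity)
      have hsumR : ∑ D ∈ (Nat.primesLE (Z r)).powerset with ∏ p ∈ D, p ≤ M,
          (if ∀ p ∈ D, ¬ p ∣ W then G D else 0) ≤ C3 * L ^ (2 * k) *
          (∑ d ∈ Icc 1 (R ^ 2 * M) with Squarefree d ∧ Nat.Coprime d W,
            ((max κ (6 * k) : ℕ) : ℝ) ^ d.primeFactors.card *
              (A m * E d + Cc * Real.exp (-L / 5))) := by
        rw [← sum_filter, filter_filter]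
        refine le_trans (le_of_eq ?_) (mul_le_mul_of_nonneg_left hpair
          (show 0 ≤ C3 * L ^ (2 * k) by positivity))
        rw [mul_sum]
      have hT1 : ∑ d ∈ Icc 1 (R ^ 2 * M) with Squarefree d ∧ Nat.Coprime d W,
          ((max κ (6 * k) : ℕ) : ℝ) ^ d.primeFactors.card * E d ≤ 1 / L ^ (2 * k + K + 3) := by
        refine le_trans ?_ (hE2 (R ^ 2 * M) hRM)
        refine sum_le_sum_of_subset_of_nonneg ?_ (fun d _ _ => mul_nonneg (by positivity) (hE0 d))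
        intro d hd
        rw [mem_filter] at hd ⊢
        exact ⟨hd.1, hd.2.1, hcopA d hd.2.2⟩
      have hT2 : ∑ d ∈ Icc 1 (R ^ 2 * M) with Squarefree d ∧ Nat.Coprime d W,
          ((max κ (6 * k) : ℕ) : ℝ) ^ d.primeFactors.card ≤ C4 * Real.exp (L / 30) := by
        refine (hsq W (R ^ 2 * M)).trans (mul_le_mul_of_nonneg_left ?_ hC4.le)
        calc (((R ^ 2 * M : ℕ) : ℝ)) ^ 2 ≤ Real.exp (L / 60) ^ 2 :=
              pow_le_pow_left₀ (Nat.cast_nonneg _) hRM 2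
          _ = Real.exp (L / 30) := by rw [← Real.exp_nat_mul]; congr 1; push_cast; ring
      have hsplit : ∑ d ∈ Icc 1 (R ^ 2 * M) with Squarefree d ∧ Nat.Coprime d W,
            ((max κ (6 * k) : ℕ) : ℝ) ^ d.primeFactors.card *
              (A m * E d + Cc * Real.exp (-L / 5))
          = A m * (∑ d ∈ Icc 1 (R ^ 2 * M) with Squarefree d ∧ Nat.Coprime d W,
            ((max κ (6 * k) : ℕ) : ℝ) ^ d.primeFactors.card * E d)
          + Cc * Real.exp (-L / 5) * (∑ d ∈ Icc 1 (R ^ 2 * M) with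
            Squarefree d ∧ Nat.Coprime d W,
            ((max κ (6 * k) : ℕ) : ℝ) ^ d.primeFactors.card) := by
        rw [mul_sum, mul_sum, ← sum_add_distrib]
        exact sum_congr rfl fun d _ => by ring
      have hrem := remainder_bound (k := k) (by linarith : (1 : ℝ) ≤ L) K hCc hC3 hAm.le hT1 hT2
        rfl hLc
      rw [← hsplit] at hrem
      have hnn : 0 ≤ ∑ D ∈ (Nat.primesLE (Z r)).powerset with ∏ p ∈ D, p ≤ M,
          (if ∀ p ∈ D, ¬ p ∣ W then G D else 0) := sum_nonneg fun D _ => by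
        split_ifs
        · exact hG0 D
        · exact le_rfl
      refine le_trans ?_ hrem
      exact mul_le_mul hlev hsumR hnn hL0.le
  · by_cases hDW : ∀ p ∈ D, ¬ p ∣ W
    · rw [if_pos hDW]
      have hDp : ∀ p ∈ D, p.Prime ∧ p ∣ V ∧ ¬ p ∣ W := fun p hp => by
        have := Nat.mem_primesLE.1 (hDsub hp)
        exact ⟨this.2, hV p this.2 this.1, hDW p hp⟩
      have h1 := hS2 L hLa V hWV R hR hRL y hy hyR D (Cm C (A m) (B m)) hDp
        (fun p hp c hc => ⟨hC p (hDp p hp).1 c (mem_Cm.1 hc).1, (mem_Cm.1 hc).2⟩)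
        (fun p _ => hCmκ p) E hE0 ?_
      · rw [← hS, ← hX, ← hE1def] at h1
        have h2 : ∏ p ∈ D, gm C (A m) (B m) p
            = ∏ p ∈ D, ((#(Cm C (A m) (B m) p) : ℝ) / (p - 1)) :=
          prod_congr rfl fun p hp => by unfold gm; rw [if_pos (hDp p hp).1]
        rw [h2]
        exact h1
      · intro d b hd0 hdR hdsq hdV hb
        have hD0 : ∏ p ∈ D, p ≠ 0 := prod_ne_zero_iff.2 fun p hp => (hDp p hp).1.ne_zero
        have hdD : Nat.Coprime d (∏ p ∈ D, p) := Nat.Coprime.prod_right fun p hp =>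
          Nat.Coprime.coprime_dvd_right (hDp p hp).2.1 hdV
        refine hE1 _ b (Nat.mul_ne_zero hd0 hD0) ?_ ?_ ?_ hb
        · refine le_trans ?_ hRM
          exact_mod_cast Nat.mul_le_mul hdR hDM
        · rw [Nat.squarefree_mul hdD]
          refine ⟨hdsq, Finset.squarefree_prod_of_pairwise_isCoprime ?_
            fun p hp => (hDp p hp).1.squarefree⟩
          intro p hp q hq hpq
          exact Nat.coprime_iff_isRelPrime.1
            ((Nat.coprime_primes (hDp p hp).1 (hDp q hq).1).2 hpq)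
        · refine hcopA _ (Nat.Coprime.mul_left (Nat.Coprime.coprime_dvd_right hWV hdV) ?_)
          exact Nat.Coprime.prod_left fun p hp =>
            ((Nat.Prime.coprime_iff_not_dvd (hDp p hp).1).2 (hDp p hp).2.2)
    · rw [if_neg hDW]
      push Not at hDW
      obtain ⟨p, hp, hpW⟩ := hDW
      have hpp := (Nat.mem_primesLE.1 (hDsub hp)).2
      have hemp : Cm C (A m) (B m) p = ∅ := by
        rw [← card_eq_zero]
        have := card_Cm_le C (A m) (B m) p
        rw [hCW p hpp hpW, card_empty] at this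
        omega
      have h1 : ∏ p ∈ D, gm C (A m) (B m) p = 0 := prod_eq_zero hp (by
        unfold gm; rw [if_pos hpp, hemp]; simp)
      rw [h1, mul_zero, sub_zero]
      have h2 : ∀ n ∈ Ioc 0 (NN L 0), (wt L 0 n * vonMangoldt (A m * n + B m) *
          FF (fun p : PS V R => (p : ℕ)) y (pat A B (PS V R) n) ^ 2) *
          ∏ p ∈ D, (if n % p ∈ Cm C (A m) (B m) p then (1 : ℝ) else 0) = 0 := by
        intro n _
        rw [prod_eq_zero hp (by rw [hemp]; simp), mul_zero]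
      rw [sum_eq_zero h2, abs_zero]

end Pool.Agent.helper80.MTR
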